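import Pool.Agent.Lib.MP_c091ab_al.Perfect

/-!
Vanishing of `Ext(k, -)` on the radical of a principal ideal of a perfect algebra: it follows from
finiteness of `Ext(k, S)`, passes to quotients by radicals, and finally reaches the residue field.
-/

universe u

open CategoryTheory Abelian IsLocalRing

namespace Pool.Agent.Lib.MP_c091ab_al

variable {R : Type u} [CommRing R]

/-- the radical of a principal ideal -/
abbrev Rad {S : Type u} [CommRing S] (y : S) : Ideal S := (Ideal.span {y}).radical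

section maps

variable {S : Type u} [CommRing S] [Algebra R S]

/-- multiplication by `a` on `S` -/
def mulS (R : Type u) [CommRing R] [Algebra R S] (a : S) : S →ₗ[R] S :=
  (LinearMap.mulLeft S a).restrictScalars R

/-- multiplication by `a` from `S` into an ideal containing `a` -/
def mulTo (R : Type u) [CommRing R] [Algebra R S] (a : S) (J : Ideal S) (ha : a ∈ J) :
    S →ₗ[R] J :=
  (LinearMap.codRestrict J (LinearMap.mulLeft S a)
    (fun _ => Ideal.mul_mem_right _ _ ha)).restrictScalars R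

/-- multiplication by `a` between two ideals -/
def mulII (R : Type u) [CommRing R] [Algebra R S] (a : S) (I J : Ideal S)
    (h : ∀ s ∈ I, a * s ∈ J) : I →ₗ[R] J :=
  (LinearMap.codRestrict J ((LinearMap.mulLeft S a).comp I.subtype)
    (fun s => h s s.2)).restrictScalars R

lemma mulS_apply (a s : S) : mulS R a s = a * s := rfl

lemma mulTo_coe (a : S) (J : Ideal S) (ha : a ∈ J) (s : S) :
    (mulTo R a J ha s : S) = a * s := rfl

lemma mulII_coe (a : S) (I J : Ideal S) (h : ∀ s ∈ I, a * s ∈ J) (s : I) :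
    (mulII R a I J h s : S) = a * s := rfl

end maps

lemma rad_of_pow {S : Type u} [CommRing S] {y v : S} {n : ℕ} (h : v ^ n ∈ Rad y) : v ∈ Rad y :=
  Ideal.mem_radical_of_pow_mem h

lemma self_mem_rad {S : Type u} [CommRing S] (y : S) : y ∈ Rad y :=
  Ideal.le_radical (Ideal.mem_span_singleton_self y)

lemma rad_le_rad {S : Type u} [CommRing S] {y z : S} (h : z ∈ Rad y) : Rad z ≤ Rad y := by
  have : Ideal.span {z} ≤ Rad y := (Ideal.span_singleton_le_iff_mem _).mpr h
  exact (Ideal.radical_isRadical _).radical_le_iff.mpr this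

/-- Every map from a finite module to the radical of `(y)` is an element of that radical times a
map to `S`. -/
lemma Perf.factor' {p : ℕ} (hp : p.Prime) {S : Type u} [CommRing S] [Algebra R S] (h : Perf p S)
    (y : S) {W : Type u} [AddCommGroup W] [Module R W] [Module.Finite R W]
    (f : W →ₗ[R] Rad y) :
    ∃ u ∈ Rad y, ∃ g : W →ₗ[R] S, ∀ w, (f w : S) = u * g w := by
  have := h.red
  choose rt hrt using h.root
  let ρ : ℕ → S := fun e => rt^[e] y
  have hρ : ∀ e, ρ (e + 1) ^ p = ρ e := fun e => by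
    simp only [ρ, Function.iterate_succ_apply', hrt]
  have hρ' : ∀ e, ρ e ^ p ^ e = y := by
    intro e
    induction e with
    | zero => simp [ρ]
    | succ e ih => rw [pow_succ', pow_mul, hρ, ih]
  obtain ⟨p', hp'⟩ : ∃ p', p = p' + 1 + 1 := ⟨p - 2, by have := hp.two_le; omega⟩
  let μ : ℕ → S →ₗ[R] S := fun e => (LinearMap.mulLeft S (ρ e)).restrictScalars R
  let f' : W →ₗ[R] S := ((Rad y).subtype.restrictScalars R).comp f
  let N : ℕ →o Submodule R W := ⟨fun e => (LinearMap.range (μ e)).comap f', by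
    refine monotone_nat_of_le_succ fun e w hw => ?_
    obtain ⟨s, hs⟩ := hw
    refine ⟨ρ (e + 1) ^ (p' + 1) * s, ?_⟩
    rw [← hs]
    change ρ (e + 1) * (ρ (e + 1) ^ (p' + 1) * s) = ρ e * s
    rw [← hρ e, hp']
    ring⟩
  have hN : iSup N = ⊤ := by
    rw [eq_top_iff]
    intro w _
    obtain ⟨n, hn⟩ := (f w).2
    obtain ⟨s, hs⟩ := Ideal.mem_span_singleton'.mp hn
    obtain ⟨c, hc⟩ := Nat.exists_eq_add_of_le (Nat.lt_pow_self hp.one_lt (n := n)).le
    obtain ⟨t, ht⟩ := h.root_pow n (s * (f w : S) ^ c)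
    refine Submodule.mem_iSup_of_mem n ⟨t, ?_⟩
    change ρ n * t = (f w : S)
    apply h.pow_inj hp n
    rw [mul_pow, hρ', ht, hc, pow_add, ← hs]
    ring
  obtain ⟨e, he⟩ := Submodule.FG.stabilizes_of_iSup_eq Module.Finite.fg_top N hN
  have hmem : ∀ w, f' w ∈ LinearMap.range (μ e) := fun w => by
    have : w ∈ N e := he ▸ Submodule.mem_top
    exact this
  have hker : LinearMap.ker (μ e) ≤ LinearMap.ker (μ (e + 1)) := by
    intro s hs
    change ρ e * s = 0 at hs
    change ρ (e + 1) * s = 0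
    refine IsNilpotent.eq_zero ⟨p, ?_⟩
    rw [mul_pow, hρ, hp', pow_succ, ← mul_assoc, mul_right_comm, hs, zero_mul]
  let lam : LinearMap.range (μ e) →ₗ[R] S :=
    ((LinearMap.ker (μ e)).liftQ (μ (e + 1)) hker).comp
      (LinearMap.quotKerEquivRange (μ e)).symm.toLinearMap
  have hlam : ∀ (s : S) (hs : μ e s ∈ LinearMap.range (μ e)), lam ⟨μ e s, hs⟩ = μ (e + 1) s := by
    intro s hs
    simp only [lam, LinearMap.comp_apply, LinearEquiv.coe_coe,
      LinearMap.quotKerEquivRange_symm_apply_image, Submodule.mkQ_apply, Submodule.liftQ_apply]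
  have hu : ρ (e + 1) ^ (p' + 1) ∈ Rad y := by
    refine Ideal.pow_mem_of_mem _ ?_ _ (by omega)
    exact ⟨p ^ (e + 1), by rw [hρ']; exact Ideal.mem_span_singleton_self y⟩
  refine ⟨_, hu, lam.comp (f'.codRestrict _ hmem), ?_⟩
  intro w
  obtain ⟨s, hs⟩ := hmem w
  have e1 : f'.codRestrict _ hmem w = ⟨μ e s, hs ▸ hmem w⟩ := Subtype.ext hs.symm
  change f' w = ρ (e + 1) ^ (p' + 1) * lam (f'.codRestrict _ hmem w)
  rw [e1, hlam, ← hs]
  change ρ e * s = ρ (e + 1) ^ (p' + 1) * (ρ (e + 1) * s)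
  rw [← hρ e, hp']
  ring

/-- the same with the factor split into two elements of the radical -/
lemma Perf.factor2 {p : ℕ} (hp : p.Prime) {S : Type u} [CommRing S] [Algebra R S] (h : Perf p S)
    (y : S) {W : Type u} [AddCommGroup W] [Module R W] [Module.Finite R W]
    (f : W →ₗ[R] Rad y) :
    ∃ u ∈ Rad y, ∃ v ∈ Rad y, ∃ g : W →ₗ[R] S, ∀ w, (f w : S) = u * (v * g w) := by
  obtain ⟨u, hu, g, hg⟩ := h.factor' hp y f
  obtain ⟨v, rfl⟩ := h.root u
  obtain ⟨p', hp'⟩ : ∃ p', p = p' + 1 + 1 := ⟨p - 2, by have := hp.two_le; omega⟩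
  have hv : v ∈ Rad y := rad_of_pow hu
  refine ⟨v ^ (p' + 1), Ideal.pow_mem_of_mem _ hv _ (by omega), v, hv, g, fun w => ?_⟩
  rw [hg w, hp']
  ring

section ext

variable [IsNoetherianRing R] {p : ℕ} {S : Type u} [CommRing S] [Algebra R S]
  {L : Type u} [AddCommGroup L] [Module R L] [Module.Finite R L] {n : ℕ}

lemma Perf.rad_of_rad (hp : p.Prime) (h : Perf p S) {y z : S} (hz : z ∈ Rad y)
    (hv : ∀ ξ : E R L (Rad y) n, ξ = 0) (ξ : E R L (Rad z) n) : ξ = 0 := by
  obtain ⟨W, _, _, _, θ, hθ⟩ := exists_universal (R := R) n L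
  obtain ⟨f, rfl⟩ := hθ _ ξ
  obtain ⟨u, hu, v, hv', g, hg⟩ := h.factor2 hp z f
  have e : f = (mulII R u (Rad y) (Rad z) (fun _ _ => Ideal.mul_mem_right _ _ hu)).comp
      ((mulTo R v (Rad y) (rad_le_rad hz hv')).comp g) := by
    ext w
    exact hg w
  rw [e, ← m0_comp_m0, ← Ext.comp_assoc_of_third_deg_zero, hv (θ.comp _ (add_zero n)),
    Ext.zero_comp]

lemma Perf.rad_of_kill (hp : p.Prime) (h : Perf p S) {y : S}
    (hv : ∀ v ∈ Rad y, ∀ ξ : E R L S n, ξ.comp (m0 (mulS R v)) (add_zero n) = 0)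
    (ξ : E R L (Rad y) n) : ξ = 0 := by
  obtain ⟨W, _, _, _, θ, hθ⟩ := exists_universal (R := R) n L
  obtain ⟨f, rfl⟩ := hθ _ ξ
  obtain ⟨u, hu, v, hv', g, hg⟩ := h.factor2 hp y f
  have e : f = (mulTo R u (Rad y) hu).comp ((mulS R v).comp g) := by
    ext w
    exact hg w
  rw [e, ← m0_comp_m0, ← Ext.comp_assoc_of_third_deg_zero, ← m0_comp_m0,
    ← Ext.comp_assoc_of_third_deg_zero, hv v hv', Ext.zero_comp]

lemma Perf.rad_quot (hp : p.Prime) (h : Perf p S) (y z : S)
    (hv : ∀ ξ : E R L (Rad y) n, ξ = 0) (hv' : ∀ ξ : E R L (Rad y) (n + 1), ξ = 0)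
    (ξ : E R L (Rad (Ideal.Quotient.mk (Rad z) y)) n) : ξ = 0 := by
  have hyz : y * z ∈ Rad y := Ideal.mul_mem_right _ _ (self_mem_rad y)
  have hyz' : y * z ∈ Rad z := Ideal.mul_mem_left _ _ (self_mem_rad z)
  let ι : Rad (y * z) →ₗ[R] Rad y :=
    mulII R 1 _ _ (fun s hs => by rw [one_mul]; exact rad_le_rad hyz hs)
  have hπ : ∀ s : Rad y, Ideal.Quotient.mk (Rad z) s ∈ Rad (Ideal.Quotient.mk (Rad z) y) := by
    rintro ⟨s, m, hm⟩
    obtain ⟨c, hc⟩ := Ideal.mem_span_singleton'.mp hm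
    refine ⟨m, Ideal.mem_span_singleton'.mpr ⟨Ideal.Quotient.mk _ c, ?_⟩⟩
    rw [← map_mul, hc, map_pow]
  let π : Rad y →ₗ[R] Rad (Ideal.Quotient.mk (Rad z) y) :=
    { toFun := fun s => ⟨Ideal.Quotient.mk (Rad z) s, hπ s⟩
      map_add' := fun a b => Subtype.ext (by simp)
      map_smul' := fun a b => Subtype.ext rfl }
  have hex : Function.Exact ι π := by
    intro s
    constructor
    · intro hs
      have h1 : (s : S) ∈ Rad z :=
        Ideal.Quotient.eq_zero_iff_mem.mp (congrArg Subtype.val hs)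
      have h2 : (s : S) ∈ Rad (y * z) := by
        obtain ⟨a, ha⟩ := s.2
        obtain ⟨b, hb⟩ := h1
        refine ⟨a + b, ?_⟩
        rw [pow_add, ← Ideal.span_singleton_mul_span_singleton]
        exact Ideal.mul_mem_mul ha hb
      exact ⟨⟨s, h2⟩, Subtype.ext (one_mul _)⟩
    · rintro ⟨t, rfl⟩
      apply Subtype.ext
      change Ideal.Quotient.mk (Rad z) (1 * (t : S)) = 0
      rw [one_mul, Ideal.Quotient.eq_zero_iff_mem]
      exact rad_le_rad hyz' t.2
  have hι : Function.Injective ι := by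
    intro a b hab
    have := congrArg Subtype.val hab
    rw [mulII_coe, mulII_coe, one_mul, one_mul] at this
    exact Subtype.ext this
  have hsurj : Function.Surjective π := by
    rintro ⟨t, m, hm⟩
    obtain ⟨c, hc⟩ := Ideal.mem_span_singleton'.mp hm
    obtain ⟨c, rfl⟩ := Ideal.Quotient.mk_surjective c
    obtain ⟨t, rfl⟩ := Ideal.Quotient.mk_surjective t
    obtain ⟨k, hk⟩ := Nat.exists_eq_add_of_le (Nat.lt_pow_self hp.one_lt (n := m)).le
    obtain ⟨r, hr⟩ := h.root_pow m (c * t ^ k * y)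
    refine ⟨⟨r, p ^ m, ?_⟩, Subtype.ext ?_⟩
    · rw [hr]
      exact Ideal.mul_mem_left _ _ (Ideal.mem_span_singleton_self y)
    · change Ideal.Quotient.mk (Rad z) r = Ideal.Quotient.mk (Rad z) t
      apply (h.quot (Ideal.span {z})).pow_inj hp m
      rw [← map_pow, hr, hk, pow_add, ← hc, map_mul, map_mul, map_pow]
      ring
  have hS := sc_exact _ _ hex hι hsurj
  obtain ⟨η, rfl⟩ := Ext.covariant_sequence_exact₃ _ hS ξ rfl (h.rad_of_rad hp hyz hv' _)
  rw [hv η, Ext.zero_comp]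

end ext

section act

variable {S : Type u} [CommRing S] [Algebra R S] {L : Type u} [AddCommGroup L] [Module R L]

/-- the action of `S` on `Ext^n(L, S)` -/
noncomputable def actS (R : Type u) [CommRing R] [Algebra R S] (L : Type u) [AddCommGroup L]
    [Module R L] (n : ℕ) : S →* Module.End R (E R L S n) where
  toFun s :=
    { toFun := fun ξ => ξ.comp (m0 (mulS R s)) (add_zero n)
      map_add' := fun a b => Ext.add_comp _ _ _ _
      map_smul' := fun a b => Ext.smul_comp _ _ _ _ }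
  map_one' := by
    ext ξ
    have : mulS R (1 : S) = LinearMap.id := by ext s; exact one_mul s
    change ξ.comp (m0 (mulS R (1 : S))) (add_zero n) = ξ
    rw [this, comp_m0_id]
  map_mul' s t := by
    ext ξ
    have : mulS R (s * t) = (mulS R s).comp (mulS R t) := by ext r; exact mul_assoc s t r
    change ξ.comp (m0 (mulS R (s * t))) (add_zero n) =
      (ξ.comp (m0 (mulS R t)) (add_zero n)).comp (m0 (mulS R s)) (add_zero n)
    rw [Ext.comp_assoc_of_third_deg_zero, m0_comp_m0, this]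

lemma actS_apply {n : ℕ} (s : S) (ξ : E R L S n) :
    actS R L n s ξ = ξ.comp (m0 (mulS R s)) (add_zero n) := rfl

lemma m0_smul {A B : Type u} [AddCommGroup A] [Module R A] [AddCommGroup B] [Module R B]
    (x : R) (f : A →ₗ[R] B) : m0 (x • f) = x • m0 f := Ext.mk₀_smul x (ModuleCat.ofHom f)

lemma m0_add {A B : Type u} [AddCommGroup A] [Module R A] [AddCommGroup B] [Module R B]
    (f g : A →ₗ[R] B) : m0 (f + g) = m0 f + m0 g :=
  Ext.mk₀_add (ModuleCat.ofHom f) (ModuleCat.ofHom g)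

lemma actS_smul {n : ℕ} (x : R) (s : S) (ξ : E R L S n) :
    actS R L n (x • s) ξ = x • actS R L n s ξ := by
  have : mulS R (x • s) = x • mulS R s := by
    ext r
    exact smul_mul_assoc x s r
  rw [actS_apply, actS_apply, this, m0_smul, Ext.comp_smul]

lemma actS_add {n : ℕ} (s t : S) (ξ : E R L S n) :
    actS R L n (s + t) ξ = actS R L n s ξ + actS R L n t ξ := by
  have : mulS R (s + t) = mulS R s + mulS R t := by
    ext r
    exact add_mul s t r
  rw [actS_apply, actS_apply, actS_apply, this, m0_add, Ext.comp_add]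

lemma smul_ext_eq_zero {M : Type u} [AddCommGroup M] [Module R M] {n : ℕ} (x : R)
    (hx : ∀ l : L, x • l = 0) (ξ : E R L M n) : x • ξ = 0 := by
  have h1 : x • (LinearMap.id : L →ₗ[R] L) = 0 := by
    ext l
    exact hx l
  have h2 : m0 (0 : L →ₗ[R] L) = 0 := (m0_eq_zero_iff _).mpr rfl
  rw [← m0_id_comp ξ, ← Ext.smul_comp, ← m0_smul, h1, h2, Ext.zero_comp]

/-- If `Ext^n(L, S)` is finite then the roots of an element killing `L` kill it. -/
lemma Perf.kill_of_finite [IsNoetherianRing R] {p : ℕ} (hp : p.Prime) (h : Perf p S) {n : ℕ}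
    [Module.Finite R (E R L S n)] (x : R) (hx : ∀ l : L, x • l = 0) (v : S)
    (hv : v ∈ Rad (algebraMap R S x)) (ξ : E R L S n) :
    ξ.comp (m0 (mulS R v)) (add_zero n) = 0 := by
  let T := actS (S := S) R L n
  have hnil : ∀ w ∈ Rad (algebraMap R S x), IsNilpotent (T w) := by
    rintro w ⟨m, hm⟩
    obtain ⟨c, hc⟩ := Ideal.mem_span_singleton'.mp hm
    refine ⟨m, ?_⟩
    rw [← map_pow, ← hc, mul_comm, ← Algebra.smul_def]
    ext η
    rw [actS_smul, smul_ext_eq_zero x hx]
    rfl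
  choose rt hrt using h.root
  let ρ : ℕ → S := fun e => rt^[e] v
  have hρ : ∀ e, ρ (e + 1) ^ p = ρ e := fun e => by
    simp only [ρ, Function.iterate_succ_apply', hrt]
  have hρm : ∀ e, ρ e ∈ Rad (algebraMap R S x) := by
    intro e
    induction e with
    | zero => exact hv
    | succ e ih => exact rad_of_pow (n := p) (by rw [hρ]; exact ih)
  obtain ⟨p', hp'⟩ : ∃ p', p = p' + 1 + 1 := ⟨p - 2, by have := hp.two_le; omega⟩
  let N : ℕ →o Submodule R (E R L S n) := ⟨fun e => LinearMap.range (T (ρ e)), by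
    refine monotone_nat_of_le_succ fun e => ?_
    rintro _ ⟨η, rfl⟩
    refine ⟨T (ρ (e + 1) ^ (p' + 1)) η, ?_⟩
    rw [← Module.End.mul_apply, ← map_mul, ← hρ e, hp', pow_succ' _ (p' + 1)]⟩
  obtain ⟨e, he⟩ := (monotone_stabilizes_iff_noetherian.mpr
    (inferInstance : IsNoetherian R (E R L S n))) N
  have h1 : LinearMap.range (T (ρ e)) = LinearMap.range (T (ρ (e + 1))) := he (e + 1) (by omega)
  have h2 : ∀ m : ℕ, ∀ η, ∃ ζ, T (ρ (e + 1)) η = (T (ρ (e + 1)) ^ (m + 1)) ζ := by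
    intro m
    induction m with
    | zero => exact fun η => ⟨η, by simp⟩
    | succ m ih =>
      intro η
      obtain ⟨ζ, hζ⟩ := ih η
      have : T (ρ (e + 1)) ζ ∈ LinearMap.range (T (ρ e)) := h1 ▸ ⟨ζ, rfl⟩
      obtain ⟨ζ', hζ'⟩ := this
      refine ⟨T (ρ (e + 1) ^ p') ζ', ?_⟩
      rw [hζ, pow_succ, Module.End.mul_apply, ← hζ', ← hρ e, ← map_pow, ← map_pow,
        ← Module.End.mul_apply, ← Module.End.mul_apply, ← map_mul, ← map_mul, hp']
      congr 2
      ring
  obtain ⟨m, hm⟩ := hnil _ (hρm (e + 1))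
  have h3 : N (e + 1) = ⊥ := by
    rw [eq_bot_iff]
    rintro _ ⟨η, rfl⟩
    obtain ⟨ζ, hζ⟩ := h2 m η
    rw [hζ, pow_succ, hm, zero_mul]
    rfl
  have h4 : T v ξ ∈ N (e + 1) := N.monotone (Nat.zero_le _) ⟨ξ, rfl⟩
  rw [h3] at h4
  exact h4

end act

theorem Perf.residue_of_rad [IsNoetherianRing R] [IsLocalRing R] {p : ℕ} (hp : p.Prime) (n : ℕ)
    {T : Type u} [CommRing T] [IsDomain T] (r : ℕ) :
    ∀ (S : Type u) [CommRing S] [Algebra R S] (_ : Perf p S) (φ : S →+* T) (y : S) (ys : List S),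
      ys.length = r → φ y ≠ 0 → ¬ IsUnit (φ y) → (∀ z ∈ ys, φ z = 0) →
      (∀ a ∈ maximalIdeal R,
        algebraMap R S a ∈ (Ideal.span {y} ⊔ Ideal.span {z | z ∈ ys}).radical) →
      (∀ j, n ≤ j → ∀ ξ : E R (R ⧸ maximalIdeal R) (Rad y) j, ξ = 0) →
      ∀ ξ : E R (R ⧸ maximalIdeal R) (R ⧸ maximalIdeal R) n, ξ = 0 := by
  induction r with
  | zero =>
    intro S _ _ h φ y ys hlen hy0 hyu _ hm hv
    obtain rfl := List.length_eq_zero_iff.mp hlen
    have := h.red
    have hle : (maximalIdeal R).map (algebraMap R S) ≤ Rad y := by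
      rw [Ideal.map_le_iff_le_comap]
      intro a ha
      simpa using hm a ha
    obtain ⟨N, hN⟩ := Ideal.exists_pow_le_of_le_radical_of_fg hle
      (Ideal.FG.map (IsNoetherian.noetherian _) _)
    obtain ⟨u, hu⟩ := h.root_pow N y
    obtain ⟨v, hvu⟩ := h.root u
    obtain ⟨p', hp'⟩ : ∃ p', p = p' + 1 + 1 := ⟨p - 2, by have := hp.two_le; omega⟩
    have hur : u ∈ Rad y := rad_of_pow (n := p ^ N) (by rw [hu]; exact self_mem_rad y)
    have hvr : v ∈ Rad y := rad_of_pow (n := p) (by rw [hvu]; exact hur)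
    have hdiv : ∀ a ∈ maximalIdeal R, ∃ c, algebraMap R S a = u * c := by
      intro a ha
      obtain ⟨c, hc⟩ := Ideal.mem_span_singleton'.mp
        (hN (Ideal.pow_mem_pow (Ideal.mem_map_of_mem _ ha) N))
      obtain ⟨k, hk⟩ := Nat.exists_eq_add_of_le (Nat.lt_pow_self hp.one_lt (n := N)).le
      obtain ⟨t, ht⟩ := h.root_pow N (c * algebraMap R S a ^ k)
      refine ⟨t, h.pow_inj hp N ?_⟩
      rw [mul_pow, hu, ht, hk, pow_add, ← hc]
      ring
    let μ : Rad y →ₗ[R] Rad y := mulII R u _ _ (fun s hs => Ideal.mul_mem_left _ _ hs)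
    have hμ : Function.Injective μ := by
      rw [injective_iff_map_eq_zero]
      rintro ⟨s, m, hm'⟩ hs
      have h1 : u * s = 0 := congrArg Subtype.val hs
      obtain ⟨c, hc⟩ := Ideal.mem_span_singleton'.mp hm'
      apply Subtype.ext
      refine IsNilpotent.eq_zero ⟨m + 1, ?_⟩
      obtain ⟨k, hk⟩ : ∃ k, p ^ N = k + 1 :=
        Nat.exists_eq_succ_of_ne_zero (pow_ne_zero _ hp.ne_zero)
      change s ^ (m + 1) = 0
      rw [pow_succ, ← hc, ← hu, hk, pow_succ, mul_assoc, mul_assoc, h1, mul_zero, mul_zero]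
    have hS := sc_exact μ (LinearMap.range μ).mkQ (LinearMap.exact_map_mkQ_range μ) hμ
      (LinearMap.range μ).mkQ_surjective
    have hQ : ∀ ξ : E R (R ⧸ maximalIdeal R) (Rad y ⧸ LinearMap.range μ) n, ξ = 0 := by
      intro ξ
      obtain ⟨η, rfl⟩ := Ext.covariant_sequence_exact₃ _ hS ξ rfl (hv (n + 1) (by omega) _)
      rw [hv n le_rfl η, Ext.zero_comp]
    have h0 : ∀ a ∈ maximalIdeal R, ∀ s : Rad y ⧸ LinearMap.range μ, a • s = 0 := by
      intro a ha s
      obtain ⟨s, rfl⟩ := Submodule.Quotient.mk_surjective _ s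
      obtain ⟨c, hc⟩ := hdiv a ha
      rw [← Submodule.Quotient.mk_smul, Submodule.Quotient.mk_eq_zero]
      refine ⟨⟨c * s, Ideal.mul_mem_left _ _ s.2⟩, Subtype.ext ?_⟩
      change u * (c * s) = a • (s : S)
      rw [Algebra.smul_def, hc, mul_assoc]
    let q : Rad y ⧸ LinearMap.range μ := Submodule.Quotient.mk ⟨v, hvr⟩
    have h1 : q ∉ (maximalIdeal R • ⊤ : Submodule R (Rad y ⧸ LinearMap.range μ)) := by
      intro h1
      have h2 : ∀ s ∈ (maximalIdeal R • ⊤ : Submodule R (Rad y ⧸ LinearMap.range μ)), s = 0 :=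
        fun s hs => Submodule.smul_induction_on hs (fun a ha t _ => h0 a ha t)
          (fun x y hx hy => by rw [hx, hy, add_zero])
      obtain ⟨w, hw⟩ := (Submodule.Quotient.mk_eq_zero _).mp (h2 q h1)
      have h3 : u * w = v := congrArg Subtype.val hw
      have hyv : y = v ^ (p * p ^ N) := by rw [pow_mul, hvu, hu]
      have hv0 : φ v ≠ 0 := by
        intro h4
        apply hy0
        rw [hyv, map_pow, h4, zero_pow (mul_ne_zero hp.ne_zero (pow_ne_zero _ hp.ne_zero))]
      have h5 : φ v * (φ v * (φ v ^ p' * φ w)) = φ v * 1 := by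
        rw [mul_one]
        conv_rhs => rw [← h3, ← hvu, hp']
        rw [map_mul, map_pow]
        ring
      apply hyu
      rw [hyv, map_pow]
      exact (IsUnit.of_mul_eq_one _ (mul_left_cancel₀ hv0 h5)).pow _
    obtain ⟨i, r, hri⟩ := exists_retract q h1 (fun a ha => h0 a ha q)
    exact vanish_retract_right i r hri hQ
  | succ r ih =>
    intro S _ _ h φ y ys hlen hy0 hyu hz hm hv
    obtain ⟨z, ys, rfl⟩ := List.exists_cons_of_length_eq_add_one hlen
    have hker : ∀ a ∈ Rad z, φ a = 0 := by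
      rintro a ⟨m, hm'⟩
      obtain ⟨c, hc⟩ := Ideal.mem_span_singleton'.mp hm'
      refine IsNilpotent.eq_zero ⟨m, ?_⟩
      rw [← map_pow, ← hc, map_mul, hz z (by simp), mul_zero]
    refine ih (S ⧸ Rad z) (h.quot _) (Ideal.Quotient.lift _ φ hker) (Ideal.Quotient.mk _ y)
      (ys.map (Ideal.Quotient.mk (Rad z))) (by simpa using hlen) hy0 hyu ?_ ?_ ?_
    · intro w hw
      obtain ⟨w, hw', rfl⟩ := List.mem_map.mp hw
      exact hz w (List.mem_cons_of_mem _ hw')
    · intro a ha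
      obtain ⟨m, hm'⟩ := hm a ha
      refine ⟨m, ?_⟩
      have e1 : algebraMap R (S ⧸ Rad z) a = Ideal.Quotient.mk (Rad z) (algebraMap R S a) := rfl
      rw [e1, ← map_pow]
      refine (Ideal.map_le_iff_le_comap.mpr ?_ : _ ≤ _) (Ideal.mem_map_of_mem _ hm')
      refine sup_le ?_ ?_
      · rw [Ideal.span_singleton_le_iff_mem, Ideal.mem_comap]
        exact Ideal.mem_sup_left (Ideal.mem_span_singleton_self _)
      · rw [Ideal.span_le]
        intro w hw
        rw [SetLike.mem_coe, Ideal.mem_comap]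
        rcases List.mem_cons.mp hw with rfl | hw
        · rw [Ideal.Quotient.eq_zero_iff_mem.mpr (self_mem_rad _)]
          exact Ideal.zero_mem _
        · exact Ideal.mem_sup_right (Ideal.subset_span (List.mem_map.mpr ⟨w, hw, rfl⟩))
    · intro j hj
      exact h.rad_quot hp y z (hv j hj) (hv (j + 1) (by omega))

end Pool.Agent.Lib.MP_c091ab_al
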