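import Mathlib

/-!
Basic homological lemmas over a commutative (local, Noetherian) ring, in terms of the
`Ext` groups of `ModuleCat`.
-/

universe u

open CategoryTheory Abelian IsLocalRing TensorProduct

namespace Pool.Agent.Lib.MP_c091ab_al

variable {R : Type u} [CommRing R]

/-- `Ext` of two bare modules. -/
abbrev E (R : Type u) [CommRing R] (L M : Type u) [AddCommGroup L] [Module R L]
    [AddCommGroup M] [Module R M] (n : ℕ) : Type u :=
  Ext.{u} (ModuleCat.of R L) (ModuleCat.of R M) n

section sc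

variable {A B C : Type u} [AddCommGroup A] [Module R A] [AddCommGroup B] [Module R B]
  [AddCommGroup C] [Module R C]

/-- short complex from an exact pair of linear maps -/
abbrev sc (f : A →ₗ[R] B) (g : B →ₗ[R] C) (h : Function.Exact f g) :
    ShortComplex (ModuleCat.{u} R) :=
  ModuleCat.shortComplexOfCompEqZero f g h.linearMap_comp_eq_zero

lemma sc_exact (f : A →ₗ[R] B) (g : B →ₗ[R] C) (h : Function.Exact f g)
    (hf : Function.Injective f) (hg : Function.Surjective g) : (sc f g h).ShortExact :=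
  ModuleCat.shortComplex_shortExact _ h hf hg

/-- degree zero class of a linear map -/
noncomputable abbrev m0 (f : A →ₗ[R] B) : E R A B 0 := Ext.mk₀ (ModuleCat.ofHom f)

lemma m0_comp_m0 (f : A →ₗ[R] B) (g : B →ₗ[R] C) :
    (m0 f).comp (m0 g) (zero_add 0) = m0 (g.comp f) := by
  rw [Ext.mk₀_comp_mk₀]; rfl

lemma m0_comp_m0_assoc (f : A →ₗ[R] B) (g : B →ₗ[R] C) {M : Type u} [AddCommGroup M]
    [Module R M] {n : ℕ} (ξ : E R C M n) :
    (m0 f).comp ((m0 g).comp ξ (zero_add n)) (zero_add n) =
      (m0 (g.comp f)).comp ξ (zero_add n) := by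
  rw [Ext.mk₀_comp_mk₀_assoc]; rfl

lemma exists_m0 (ξ : E R A B 0) : ∃ f : A →ₗ[R] B, ξ = m0 f := by
  obtain ⟨f, rfl⟩ := (Ext.mk₀_bijective _ _).2 ξ
  exact ⟨f.hom, rfl⟩

lemma m0_eq_zero_iff (f : A →ₗ[R] B) : m0 f = 0 ↔ f = 0 := by
  rw [Ext.mk₀_eq_zero_iff]
  constructor
  · intro h
    have := congrArg ModuleCat.Hom.hom h
    simpa using this
  · rintro rfl; rfl

lemma m0_id_comp {M : Type u} [AddCommGroup M] [Module R M] {n : ℕ} (ξ : E R A M n) :
    (m0 (LinearMap.id : A →ₗ[R] A)).comp ξ (zero_add n) = ξ := Ext.mk₀_id_comp ξ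

lemma comp_m0_id {M : Type u} [AddCommGroup M] [Module R M] {n : ℕ} (ξ : E R M A n) :
    ξ.comp (m0 (LinearMap.id : A →ₗ[R] A)) (add_zero n) = ξ := Ext.comp_mk₀_id ξ

/-- vanishing of `Ext` passes to retracts in the second variable -/
lemma vanish_retract_right {L : Type u} [AddCommGroup L] [Module R L] {n : ℕ}
    (i : A →ₗ[R] B) (r : B →ₗ[R] A) (hri : r.comp i = LinearMap.id)
    (h : ∀ ξ : E R L B n, ξ = 0) (ξ : E R L A n) : ξ = 0 := by
  have h1 : ξ.comp (m0 i) (add_zero n) = 0 := h _
  have h2 : (ξ.comp (m0 i) (add_zero n)).comp (m0 r) (add_zero n) = ξ := by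
    rw [Ext.comp_assoc_of_third_deg_zero, m0_comp_m0, hri, comp_m0_id]
  rw [← h2, h1, Ext.zero_comp]

/-- vanishing of `Ext` passes to retracts in the first variable -/
lemma vanish_retract_left {M : Type u} [AddCommGroup M] [Module R M] {n : ℕ}
    (i : A →ₗ[R] B) (r : B →ₗ[R] A) (hri : r.comp i = LinearMap.id)
    (h : ∀ ξ : E R B M n, ξ = 0) (ξ : E R A M n) : ξ = 0 := by
  have h1 : (m0 r).comp ξ (zero_add n) = 0 := h _
  have h2 : (m0 i).comp ((m0 r).comp ξ (zero_add n)) (zero_add n) = ξ := by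
    rw [m0_comp_m0_assoc, hri, m0_id_comp]
  rw [← h2, h1, Ext.comp_zero]

end sc

/-- Every class in `Ext^n(L, M)`, for `L` finite over a Noetherian ring, is induced from one
universal class with values in a finite module. -/
lemma exists_universal [IsNoetherianRing R] (n : ℕ) :
    ∀ (L : Type u) [AddCommGroup L] [Module R L] [Module.Finite R L],
    ∃ (W : Type u) (_ : AddCommGroup W) (_ : Module R W) (_ : Module.Finite R W)
      (θ : E R L W n), ∀ (M : Type u) [AddCommGroup M] [Module R M] (ξ : E R L M n),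
        ∃ f : W →ₗ[R] M, ξ = θ.comp (m0 f) (add_zero n) := by
  induction n with
  | zero =>
    intro L _ _ _
    refine ⟨L, inferInstance, inferInstance, inferInstance, m0 LinearMap.id, ?_⟩
    intro M _ _ ξ
    obtain ⟨f, rfl⟩ := exists_m0 ξ
    exact ⟨f, (m0_id_comp _).symm⟩
  | succ n ih =>
    intro L _ _ _
    obtain ⟨F, _, _, _, _, f, hf⟩ := Module.exists_finite_presentation R L
    have hS := LinearMap.shortExact_shortComplexKer hf
    obtain ⟨W, _, _, _, θ, hθ⟩ := ih (LinearMap.ker f)
    refine ⟨W, inferInstance, inferInstance, inferInstance,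
      hS.extClass.comp θ (add_comm 1 n), ?_⟩
    intro M _ _ ξ
    obtain ⟨η, rfl⟩ := Ext.contravariant_sequence_exact₃ hS _ ξ
      (Ext.eq_zero_of_projective _) (add_comm 1 n)
    obtain ⟨g, rfl⟩ := hθ M η
    exact ⟨g, (Ext.comp_assoc_of_third_deg_zero _ _ _ _).symm⟩

section loc

variable [IsLocalRing R]

/-- An element outside `m Q` is sent to `1` by some linear map to the residue field. -/
lemma exists_functional {Q : Type u} [AddCommGroup Q] [Module R Q] (q : Q)
    (hq : q ∉ (maximalIdeal R • ⊤ : Submodule R Q)) :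
    ∃ r : Q →ₗ[R] R ⧸ maximalIdeal R, r q = 1 := by
  let _ := Ideal.Quotient.field (maximalIdeal R)
  have h1 : (1 : R ⧸ maximalIdeal R) ⊗ₜ[R] q ≠ (0 : (R ⧸ maximalIdeal R) ⊗[R] Q) := by
    intro h
    apply hq
    have h3 : TensorProduct.quotTensorEquivQuotSMul Q (maximalIdeal R)
        ((Ideal.Quotient.mk (maximalIdeal R) 1) ⊗ₜ[R] q) = Submodule.Quotient.mk q := by
      rw [TensorProduct.quotTensorEquivQuotSMul_mk_tmul, one_smul]
    rw [← Submodule.Quotient.mk_eq_zero, ← h3, map_one, h, map_zero]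
  obtain ⟨φ, hφ⟩ := Module.Projective.exists_dual_eq_one (R ⧸ maximalIdeal R) h1
  exact ⟨(φ.restrictScalars R).comp (TensorProduct.mk R _ Q 1), hφ⟩

/-- The residue field is a retract of `Q` as soon as `Q` has a socle element outside `m Q`. -/
lemma exists_retract {Q : Type u} [AddCommGroup Q] [Module R Q] (q : Q)
    (hq : q ∉ (maximalIdeal R • ⊤ : Submodule R Q)) (hm : ∀ a ∈ maximalIdeal R, a • q = 0) :
    ∃ (i : (R ⧸ maximalIdeal R) →ₗ[R] Q) (r : Q →ₗ[R] R ⧸ maximalIdeal R),
      r.comp i = LinearMap.id := by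
  obtain ⟨r, hr⟩ := exists_functional q hq
  refine ⟨(maximalIdeal R).liftQ (LinearMap.toSpanSingleton R Q q) (fun a ha => hm a ha), r, ?_⟩
  apply Submodule.linearMap_qext
  ext
  change r ((1 : R) • q) = 1
  rw [one_smul, hr]

lemma map_eq_zero_of_mem_smul {Q : Type u} [AddCommGroup Q] [Module R Q]
    (r : Q →ₗ[R] R ⧸ maximalIdeal R) {q : Q} (hq : q ∈ (maximalIdeal R • ⊤ : Submodule R Q)) :
    r q = 0 := by
  refine Submodule.smul_induction_on hq ?_ ?_
  · intro a ha n _
    rw [map_smul]
    obtain ⟨b, hb⟩ := Ideal.Quotient.mk_surjective (r n)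
    rw [← hb]
    change Ideal.Quotient.mk _ (a * b) = 0
    rw [Ideal.Quotient.eq_zero_iff_mem]
    exact Ideal.mul_mem_right _ _ ha
  · intro x y hx hy
    rw [map_add, hx, hy, add_zero]

/-- Nakayama: a finite module with no nonzero map to the residue field is zero. -/
lemma subsingleton_of_hom {Q : Type u} [AddCommGroup Q] [Module R Q] [Module.Finite R Q]
    (h : ∀ r : Q →ₗ[R] R ⧸ maximalIdeal R, r = 0) : Subsingleton Q := by
  have h1 : (⊤ : Submodule R Q) ≤ maximalIdeal R • ⊤ := by
    intro q _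
    by_contra hq
    obtain ⟨r, hr⟩ := exists_functional q hq
    rw [h r] at hr
    exact zero_ne_one hr
  have h2 : (⊤ : Submodule R Q) = ⊥ :=
    Submodule.eq_bot_of_le_smul_of_le_jacobson_bot (maximalIdeal R) ⊤ Module.Finite.fg_top h1
      (IsLocalRing.maximalIdeal_le_jacobson _)
  refine ⟨fun a b => ?_⟩
  have ha : a ∈ (⊥ : Submodule R Q) := h2 ▸ Submodule.mem_top
  have hb : b ∈ (⊥ : Submodule R Q) := h2 ▸ Submodule.mem_top
  rw [Submodule.mem_bot] at ha hb
  rw [ha, hb]

/-- minimal free cover of a finite module over a local ring -/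
lemma exists_min_cover (L : Type u) [AddCommGroup L] [Module R L] [Module.Finite R L] :
    ∃ (n : ℕ) (f : (Fin n → R) →ₗ[R] L), Function.Surjective f ∧
      LinearMap.ker f ≤ maximalIdeal R • ⊤ := by
  let k := ResidueField R
  let b := Module.finBasis k (k ⊗[R] L)
  have ⟨v, hv⟩ := (TensorProduct.mk_surjective R L k Ideal.Quotient.mk_surjective).comp_left b
  have hv' : ∀ i, (1 : k) ⊗ₜ[R] v i = b i := congr_fun hv
  have hsp := IsLocalRing.span_eq_top_of_tmul_eq_basis v b hv'
  refine ⟨_, Fintype.linearCombination R v, ?_, ?_⟩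
  · rw [← LinearMap.range_eq_top, Fintype.range_linearCombination, hsp]
  · intro c hc
    rw [LinearMap.mem_ker, Fintype.linearCombination_apply] at hc
    have h1 : ∑ i, (algebraMap R k (c i)) • b i = 0 := by
      have := congrArg (TensorProduct.mk R k L 1) hc
      rw [map_sum, map_zero] at this
      rw [← this]
      refine Finset.sum_congr rfl fun i _ => ?_
      rw [map_smul, TensorProduct.mk_apply, hv', algebraMap_smul]
    have h2 := Fintype.linearIndependent_iff.mp b.linearIndependent _ h1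
    have h3 : c = ∑ i, c i • (Pi.single i 1 : Fin _ → R) := by
      ext j
      simp [Pi.single_apply]
    rw [h3]
    refine Submodule.sum_mem _ fun i _ => Submodule.smul_mem_smul ?_ Submodule.mem_top
    exact (IsLocalRing.residue_eq_zero_iff _).mp (h2 i)

/-- If `Ext^n(L, k) = 0` for a finite module `L` then `L` has projective dimension `< n`. -/
lemma pd_of_ext_residue [IsNoetherianRing R] (n : ℕ) :
    ∀ (L : Type u) [AddCommGroup L] [Module R L] [Module.Finite R L],
      (∀ ξ : E R L (R ⧸ maximalIdeal R) n, ξ = 0) →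
      HasProjectiveDimensionLT (ModuleCat.of R L) n := by
  induction n with
  | zero =>
    intro L _ _ _ h
    have : Subsingleton L := subsingleton_of_hom fun r => (m0_eq_zero_iff r).mp (h _)
    exact (ModuleCat.isZero_of_subsingleton (ModuleCat.of R L)).hasProjectiveDimensionLT_zero
  | succ n ih =>
    intro L _ _ _ h
    obtain ⟨m, f, hf, hker⟩ := exists_min_cover (R := R) L
    have hS := LinearMap.shortExact_shortComplexKer hf
    refine hS.hasProjectiveDimensionLT_X₃ n (ih (LinearMap.ker f) ?_) inferInstance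
    intro η
    obtain ⟨ζ, rfl⟩ := Ext.contravariant_sequence_exact₁ hS _ η (add_comm 1 n) (h _)
    cases n with
    | zero =>
      obtain ⟨g, rfl⟩ := exists_m0 ζ
      rw [m0_comp_m0, m0_eq_zero_iff]
      ext x
      exact map_eq_zero_of_mem_smul g (hker x.2)
    | succ n =>
      rw [Ext.eq_zero_of_projective ζ, Ext.comp_zero]

end loc

end Pool.Agent.Lib.MP_c091ab_al
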