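import Pool.Agent.Lib.MP_c091ab_al.Basic

/-!
Grothendieck vanishing in the form: a class in `Ext^j(R/c, M)` dies in `Ext^j(R/c', M)` for a
smaller `c'` whose radical still contains `x_1, ..., x_d`, when `j > d`; and the rigidity of the
vanishing of `Ext^j(k, M)` above the dimension.
-/

universe u

open CategoryTheory Abelian IsLocalRing

namespace Pool.Agent.Lib.MP_c091ab_al

variable {R : Type u} [CommRing R]

/-- multiplication by `a` as a map `R/I → R/J` -/
def mulQ (I J : Ideal R) (a : R) (h : ∀ r ∈ I, a * r ∈ J) : (R ⧸ I) →ₗ[R] (R ⧸ J) :=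
  Submodule.mapQ I J (LinearMap.mulLeft R a) (fun r hr => h r hr)

lemma mulQ_mk (I J : Ideal R) (a : R) (h : ∀ r ∈ I, a * r ∈ J) (r : R) :
    mulQ I J a h (Ideal.Quotient.mk I r) = Ideal.Quotient.mk J (a * r) := rfl

/-- the projection `R/I → R/J` -/
def fac (I J : Ideal R) (h : I ≤ J) : (R ⧸ I) →ₗ[R] (R ⧸ J) :=
  mulQ I J 1 (fun r hr => by simpa using h hr)

lemma fac_mk (I J : Ideal R) (h : I ≤ J) (r : R) :
    fac I J h (Ideal.Quotient.mk I r) = Ideal.Quotient.mk J r := by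
  rw [fac, mulQ_mk, one_mul]

lemma quot_ext {I : Ideal R} {M : Type u} [AddCommGroup M] [Module R M]
    {f g : (R ⧸ I) →ₗ[R] M}
    (h : ∀ r : R, f (Ideal.Quotient.mk I r) = g (Ideal.Quotient.mk I r)) : f = g := by
  apply LinearMap.ext
  intro x
  obtain ⟨r, rfl⟩ := Ideal.Quotient.mk_surjective x
  exact h r

lemma fac_comp (I J K : Ideal R) (h : I ≤ J) (h' : J ≤ K) :
    (fac J K h').comp (fac I J h) = fac I K (h.trans h') :=
  quot_ext fun r => by simp [fac_mk]

lemma fac_surjective (I J : Ideal R) (h : I ≤ J) : Function.Surjective (fac I J h) := by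
  intro x
  obtain ⟨r, rfl⟩ := Ideal.Quotient.mk_surjective x
  exact ⟨Ideal.Quotient.mk I r, fac_mk _ _ _ _⟩

/-- the ideal `(c : a)` -/
def col (c : Ideal R) (a : R) : Ideal R := Submodule.comap (LinearMap.mulLeft R a) c

lemma mem_col {c : Ideal R} {a r : R} : r ∈ col c a ↔ a * r ∈ c := Iff.rfl

lemma le_col (c : Ideal R) (a : R) : c ≤ col c a := fun _ hr => Ideal.mul_mem_left _ _ hr

/-- multiplication `R/(c : a) → R/c` -/
def inj (c : Ideal R) (a : R) : (R ⧸ col c a) →ₗ[R] (R ⧸ c) :=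
  mulQ (col c a) c a (fun _ hr => hr)

lemma inj_injective (c : Ideal R) (a : R) : Function.Injective (inj c a) := by
  rw [injective_iff_map_eq_zero]
  intro x hx
  obtain ⟨r, rfl⟩ := Ideal.Quotient.mk_surjective x
  rw [inj, mulQ_mk, Ideal.Quotient.eq_zero_iff_mem] at hx
  exact Ideal.Quotient.eq_zero_iff_mem.mpr hx

lemma inj_exact (c : Ideal R) (a : R) :
    Function.Exact (inj c a) (fac c (c ⊔ Ideal.span {a}) le_sup_left) := by
  intro x
  obtain ⟨r, rfl⟩ := Ideal.Quotient.mk_surjective x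
  rw [fac_mk, Ideal.Quotient.eq_zero_iff_mem]
  constructor
  · intro h
    obtain ⟨s, hs, t, ht, rfl⟩ := Submodule.mem_sup.mp h
    obtain ⟨b, rfl⟩ := Ideal.mem_span_singleton'.mp ht
    refine ⟨Ideal.Quotient.mk _ b, ?_⟩
    rw [inj, mulQ_mk, Ideal.Quotient.eq]
    have : a * b - (s + b * a) = -s := by ring
    rw [this]
    exact c.neg_mem hs
  · rintro ⟨y, hy⟩
    obtain ⟨b, rfl⟩ := Ideal.Quotient.mk_surjective y
    rw [inj, mulQ_mk, Ideal.Quotient.eq] at hy
    have : r = -(a * b - r) + b * a := by ring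
    rw [this]
    exact Submodule.add_mem_sup (c.neg_mem hy) (Ideal.mem_span_singleton'.mpr ⟨b, rfl⟩)

lemma seq_exact (c : Ideal R) (a : R) : (sc _ _ (inj_exact c a)).ShortExact :=
  sc_exact _ _ _ (inj_injective c a) (fac_surjective _ _ _)

lemma nat_sc {A B C A' B' C' M : Type u} [AddCommGroup A] [Module R A] [AddCommGroup B]
    [Module R B] [AddCommGroup C] [Module R C] [AddCommGroup A'] [Module R A'] [AddCommGroup B']
    [Module R B'] [AddCommGroup C'] [Module R C'] [AddCommGroup M] [Module R M]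
    {f : A →ₗ[R] B} {g : B →ₗ[R] C} {f' : A' →ₗ[R] B'} {g' : B' →ₗ[R] C'}
    (h : Function.Exact f g) (h' : Function.Exact f' g')
    (hS : (sc f g h).ShortExact) (hS' : (sc f' g' h').ShortExact)
    (α : A →ₗ[R] A') (β : B →ₗ[R] B') (γ : C →ₗ[R] C')
    (h1 : f'.comp α = β.comp f) (h2 : g'.comp β = γ.comp g) {j : ℕ} (η : E R A' M j) :
    (m0 γ).comp (hS'.extClass.comp η (add_comm 1 j)) (zero_add (j + 1)) =
      hS.extClass.comp ((m0 α).comp η (zero_add j)) (add_comm 1 j) := by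
  let φ : sc f g h ⟶ sc f' g' h' :=
    { τ₁ := ModuleCat.ofHom α
      τ₂ := ModuleCat.ofHom β
      τ₃ := ModuleCat.ofHom γ
      comm₁₂ := ModuleCat.hom_ext h1
      comm₂₃ := ModuleCat.hom_ext h2 }
  have hnat := ShortComplex.ShortExact.extClass_naturality hS hS' φ
  have e2 : (m0 γ).comp (hS'.extClass.comp η (add_comm 1 j)) (zero_add (j + 1)) =
      ((Ext.mk₀ φ.τ₃).comp hS'.extClass (zero_add 1)).comp η (add_comm 1 j) :=
    (Ext.comp_assoc _ _ _ (zero_add 1) (add_comm 1 j) (by omega)).symm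
  rw [e2, ← hnat, Ext.comp_assoc_of_second_deg_zero]

lemma exists_stable [IsNoetherianRing R] (c : Ideal R) (y : R) :
    ∃ e : ℕ, ∀ s r, y ^ (s + e) * r ∈ c → y ^ e * r ∈ c := by
  let f : ℕ →o Ideal R := ⟨fun n => col c (y ^ n), by
    intro a b hab r hr
    obtain ⟨t, rfl⟩ := Nat.exists_eq_add_of_le hab
    rw [mem_col] at hr ⊢
    rw [pow_add, mul_comm (y ^ a), mul_assoc]
    exact Ideal.mul_mem_left _ _ hr⟩
  obtain ⟨e, he⟩ := (monotone_stabilizes_iff_noetherian.mpr
    (inferInstance : IsNoetherian R R)) f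
  refine ⟨e, fun s r hr => ?_⟩
  have h1 : r ∈ f (s + e) := hr
  rw [← he (s + e) (by omega)] at h1
  exact h1

/-- Grothendieck vanishing, pointwise form. -/
theorem grothendieck [IsNoetherianRing R] {M : Type u} [AddCommGroup M] [Module R M]
    (xs : List R) : ∀ (j : ℕ), xs.length < j → ∀ (c : Ideal R), (∀ x ∈ xs, x ∈ c.radical) →
      ∀ ξ : E R (R ⧸ c) M j, ∃ (c' : Ideal R) (h : c' ≤ c), (∀ x ∈ xs, x ∈ c'.radical) ∧
        (m0 (fac c' c h)).comp ξ (zero_add j) = 0 := by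
  induction xs with
  | nil =>
    intro j hj c _ ξ
    refine ⟨⊥, bot_le, by simp, ?_⟩
    obtain ⟨j, rfl⟩ : ∃ i, j = i + 1 := ⟨j - 1, by simp at hj; omega⟩
    have : Module.Free R (R ⧸ (⊥ : Ideal R)) :=
      Module.Free.of_equiv (Submodule.quotEquivOfEqBot (⊥ : Ideal R) rfl).symm
    exact Ext.eq_zero_of_projective _
  | cons y bs ih =>
    intro j hj c hc ξ
    obtain ⟨j, rfl⟩ : ∃ i, j = i + 1 := ⟨j - 1, by simp at hj; omega⟩
    have hj' : bs.length < j := by simp at hj; omega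
    obtain ⟨s, hs⟩ : y ∈ c.radical := hc y (by simp)
    obtain ⟨c₁, h₁, hc₁, hξ₁⟩ := ih (j + 1) (by omega) c
      (fun x hx => hc x (by simp [hx])) ξ
    have h₂ : c₁ ⊔ Ideal.span {y ^ s} ≤ c :=
      sup_le h₁ ((Ideal.span_singleton_le_iff_mem _).mpr hs)
    obtain ⟨η, hη⟩ := Ext.contravariant_sequence_exact₃ (seq_exact c₁ (y ^ s)) _
      ((m0 (fac _ c h₂)).comp ξ (zero_add _))
      (by
        have := m0_comp_m0_assoc (fac c₁ (c₁ ⊔ Ideal.span {y ^ s}) le_sup_left) (fac _ c h₂) ξ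
        rw [fac_comp, hξ₁] at this
        exact this) (add_comm 1 j)
    obtain ⟨c₃', h₃', hc₃', hη₃⟩ := ih j hj' (col c₁ (y ^ s))
      (fun x hx => Ideal.radical_mono (le_col _ _) (hc₁ x hx)) η
    obtain ⟨e, he⟩ := exists_stable (c₃' ⊓ c₁) y
    have h₄ : (c₃' ⊓ c₁) ⊔ Ideal.span {y ^ (s + e)} ≤ c₁ ⊔ Ideal.span {y ^ s} := by
      refine sup_le_sup inf_le_right ?_
      rw [Ideal.span_singleton_le_span_singleton]
      exact pow_dvd_pow y (by omega)
    refine ⟨(c₃' ⊓ c₁) ⊔ Ideal.span {y ^ (s + e)}, h₄.trans h₂, ?_, ?_⟩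
    · intro x hx
      rcases List.mem_cons.mp hx with rfl | hx
      · exact ⟨s + e, Ideal.mem_sup_right (Ideal.mem_span_singleton_self _)⟩
      · refine Ideal.radical_mono le_sup_left ?_
        rw [Ideal.radical_inf]
        exact ⟨hc₃' x hx, hc₁ x hx⟩
    · let τ : (R ⧸ col (c₃' ⊓ c₁) (y ^ (s + e))) →ₗ[R] (R ⧸ c₃') :=
        mulQ _ _ (y ^ e) (fun r hr => (he s r hr).1)
      have e1 : (m0 (fac _ c (h₄.trans h₂))).comp ξ (zero_add _) =
          (m0 (fac _ _ h₄)).comp ((m0 (fac _ c h₂)).comp ξ (zero_add _)) (zero_add _) := by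
        rw [m0_comp_m0_assoc, fac_comp]
      have hnat := nat_sc (inj_exact (c₃' ⊓ c₁) (y ^ (s + e))) (inj_exact c₁ (y ^ s))
        (seq_exact (c₃' ⊓ c₁) (y ^ (s + e))) (seq_exact c₁ (y ^ s))
        ((fac c₃' (col c₁ (y ^ s)) h₃').comp τ) (fac (c₃' ⊓ c₁) c₁ inf_le_right) (fac _ _ h₄)
        (quot_ext fun r => by
          simp only [LinearMap.comp_apply, τ, inj, mulQ_mk, fac_mk]
          congr 1
          ring)
        (quot_ext fun r => by simp only [LinearMap.comp_apply, fac_mk]) η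
      rw [e1, ← hη, hnat, ← m0_comp_m0_assoc, hη₃, Ext.comp_zero, Ext.comp_zero]

section loc

variable [IsLocalRing R]

lemma vanish_finiteLength {M : Type u} [AddCommGroup M] [Module R M] {n : ℕ}
    (h : ∀ ξ : E R (R ⧸ maximalIdeal R) M n, ξ = 0)
    (L : Type u) [AddCommGroup L] [Module R L] (hL : IsFiniteLength R L) :
    ∀ ξ : E R L M n, ξ = 0 := by
  induction hL with
  | @of_subsingleton L _ _ _ =>
    intro ξ
    have := (ModuleCat.isZero_of_subsingleton (ModuleCat.of R L)).hasProjectiveDimensionLT_zero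
    exact ξ.eq_zero_of_hasProjectiveDimensionLT 0 (Nat.zero_le _)
  | @of_simple_quotient L _ _ N hs _ ih =>
    intro ξ
    have hS := sc_exact N.subtype N.mkQ (LinearMap.exact_subtype_mkQ N) N.injective_subtype
      N.mkQ_surjective
    obtain ⟨ζ, rfl⟩ := Ext.contravariant_sequence_exact₂ hS _ ξ (ih _)
    obtain ⟨I, hI, ⟨e⟩⟩ := isSimpleModule_iff_quot_maximal.mp hs
    obtain rfl := IsLocalRing.eq_maximalIdeal hI
    have : ζ = 0 := vanish_retract_left e.toLinearMap e.symm.toLinearMap (by ext; simp) h ζ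
    rw [this, Ext.comp_zero]

/-- Rigidity: one vanishing above the dimension gives the next one. -/
theorem rigidity_succ [IsNoetherianRing R] {M : Type u} [AddCommGroup M] [Module R M]
    (d : ℕ) (hd : ringKrullDim R ≤ d) (n : ℕ) (hn : d ≤ n)
    (h : ∀ ξ : E R (R ⧸ maximalIdeal R) M n, ξ = 0) :
    ∀ ξ : E R (R ⧸ maximalIdeal R) M (n + 1), ξ = 0 := by
  intro ξ
  obtain ⟨s, hs, hcard⟩ := (maximalIdeal R).exists_finset_card_eq_height_of_isNoetherianRing
  have hsd : s.card ≤ d := by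
    rw [← IsLocalRing.maximalIdeal_height_eq_ringKrullDim, ← hcard] at hd
    exact_mod_cast hd
  obtain ⟨c, hc, hrad, hξ⟩ := grothendieck (M := M) s.toList (n + 1) (by simp; omega)
    (maximalIdeal R) (fun x hx => Ideal.le_radical
      (hs.1.2 (Ideal.subset_span (by simpa using hx)))) ξ
  have hS := LinearMap.shortExact_shortComplexKer (fac_surjective c _ hc)
  obtain ⟨η, rfl⟩ := Ext.contravariant_sequence_exact₃ hS _ ξ hξ (add_comm 1 n)
  have hm : maximalIdeal R ≤ c.radical := by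
    rw [Ideal.radical_eq_sInf]
    refine le_sInf ?_
    rintro P ⟨hP1, hP2⟩
    have h1 : Ideal.span (s : Set R) ≤ P := by
      rw [Ideal.span_le]
      intro x hx
      exact (hP2.radical_le_iff.mpr hP1) (hrad x (by simpa using hx))
    exact hs.2 ⟨hP2, h1⟩ (IsLocalRing.le_maximalIdeal hP2.ne_top)
  have hart : IsArtinianRing (R ⧸ c) := by
    have hc' : c ≠ ⊤ := fun h => (maximalIdeal.isMaximal R).ne_top (top_le_iff.mp (h ▸ hc))
    rw [isArtinianRing_iff_krullDimLE_zero, Ideal.krullDimLE_zero_quotient_iff_forall_minimalPrimes_isMaximal]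
    intro P hP
    have : maximalIdeal R ≤ P := hm.trans (hP.1.1.radical_le_iff.mpr hP.1.2)
    have h2 := (maximalIdeal.isMaximal R).eq_of_le hP.1.1.ne_top this
    rw [← h2]
    exact maximalIdeal.isMaximal R
  have hart' : IsArtinian R (R ⧸ c) :=
    isArtinian_of_surjective_algebraMap (R := R ⧸ c) Ideal.Quotient.mk_surjective
  have hfl : IsFiniteLength R (LinearMap.ker (fac c _ hc)) :=
    isFiniteLength_iff_isNoetherian_isArtinian.mpr ⟨inferInstance, inferInstance⟩
  rw [vanish_finiteLength h _ hfl η, Ext.comp_zero]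

theorem rigidity [IsNoetherianRing R] {M : Type u} [AddCommGroup M] [Module R M]
    (d : ℕ) (hd : ringKrullDim R ≤ d) (n : ℕ) (hn : d ≤ n)
    (h : ∀ ξ : E R (R ⧸ maximalIdeal R) M n, ξ = 0) (j : ℕ) (hj : n ≤ j) :
    ∀ ξ : E R (R ⧸ maximalIdeal R) M j, ξ = 0 := by
  induction j, hj using Nat.le_induction with
  | base => exact h
  | succ j hj ih => exact rigidity_succ d hd j (hn.trans hj) ih

end loc

end Pool.Agent.Lib.MP_c091ab_al
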