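import Pool.Agent.Lib.MP_c091ab_al.Almost
import Pool.Agent.Lib.MP_c091ab_al.Vanish

/-!
Finite Bass numbers of a perfect purely inseparable extension at or above the dimension.
-/

universe u

open CategoryTheory Abelian IsLocalRing

namespace Pool.Agent.Lib.MP_c091ab_al

variable {R : Type u} [CommRing R] [IsLocalRing R] [IsNoetherianRing R]

/-- a prime directly below the maximal ideal -/
lemma exists_coheight_one (hd : 1 ≤ ringKrullDim R) :
    ∃ (P : Ideal R) (x : R), P.IsPrime ∧ x ∈ maximalIdeal R ∧ x ∉ P ∧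
      maximalIdeal R ≤ (Ideal.span {x} ⊔ P).radical := by
  have hne : {P : Ideal R | P.IsPrime ∧ P ≠ maximalIdeal R}.Nonempty := by
    by_contra hcon
    have h0 : Ring.KrullDimLE 0 R := by
      rw [Ring.krullDimLE_zero_iff]
      intro P hP
      have : P = maximalIdeal R := by
        by_contra h
        exact hcon ⟨P, hP, h⟩
      rw [this]
      exact maximalIdeal.isMaximal R
    have h1 := Ring.krullDimLE_iff.mp h0
    have h2 : (1 : WithBot ℕ∞) ≤ ((0 : ℕ) : WithBot ℕ∞) := hd.trans h1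
    exact absurd h2 (by decide)
  obtain ⟨P, ⟨hP, hPm⟩, hmax⟩ := set_has_maximal_iff_noetherian.mpr
    (inferInstance : IsNoetherian R R) _ hne
  have hlt : P < maximalIdeal R := lt_of_le_of_ne (IsLocalRing.le_maximalIdeal hP.ne_top) hPm
  obtain ⟨x, hx, hxP⟩ := SetLike.exists_of_lt hlt
  refine ⟨P, x, hP, hx, hxP, ?_⟩
  rw [Ideal.radical_eq_sInf]
  refine le_sInf ?_
  rintro Q ⟨hQ1, hQ2⟩
  by_contra hcon
  have hQm : Q ≠ maximalIdeal R := fun h => hcon (h ▸ le_rfl)
  refine hmax Q ⟨hQ2, hQm⟩ (lt_of_le_of_ne (le_sup_right.trans hQ1) ?_)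
  rintro rfl
  exact hxP (hQ1 (Ideal.mem_sup_left (Ideal.mem_span_singleton_self x)))

variable {p : ℕ} {S : Type u} [CommRing S] [Algebra R S]

theorem Perf.residue_of_finite (hp : p.Prime) (h : Perf p S) [Algebra.IsIntegral R S]
    (hker : ∀ r : R, algebraMap R S r = 0 → IsNilpotent r)
    (d : ℕ) (hd : ringKrullDim R = d) (hd1 : 1 ≤ d) (i : ℕ) (hi : d ≤ i)
    [Module.Finite R (E R (R ⧸ maximalIdeal R) S i)] :
    ∀ ξ : E R (R ⧸ maximalIdeal R) (R ⧸ maximalIdeal R) i, ξ = 0 := by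
  obtain ⟨P, x, hP, hx, hxP, hrad⟩ := exists_coheight_one (R := R)
    (by rw [hd]; exact_mod_cast hd1)
  obtain ⟨Q, -, hQ, hQP⟩ := Ideal.exists_ideal_over_prime_of_isIntegral P (⊥ : Ideal S) (by
    intro r hr
    obtain ⟨n, hn⟩ := hker r (by simpa using hr)
    exact hP.mem_of_pow_mem n (hn ▸ P.zero_mem))
  have hkill : ∀ l : R ⧸ maximalIdeal R, x • l = 0 := by
    intro l
    obtain ⟨l, rfl⟩ := Ideal.Quotient.mk_surjective l
    change Ideal.Quotient.mk _ (x * l) = 0
    exact Ideal.Quotient.eq_zero_iff_mem.mpr (Ideal.mul_mem_right _ _ hx)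
  have h1 : ∀ ξ : E R (R ⧸ maximalIdeal R) (Rad (algebraMap R S x)) i, ξ = 0 :=
    h.rad_of_kill hp (fun v hv ξ => h.kill_of_finite hp x hkill v hv ξ)
  have h2 := rigidity d hd.le i hi h1
  obtain ⟨t, ht⟩ := IsNoetherian.noetherian P
  refine Perf.residue_of_rad hp i (T := S ⧸ Q) _ S h (Ideal.Quotient.mk Q) (algebraMap R S x)
    (t.toList.map (algebraMap R S)) rfl ?_ ?_ ?_ ?_ h2
  · intro h0
    apply hxP
    rw [← hQP, Ideal.mem_comap]
    exact Ideal.Quotient.eq_zero_iff_mem.mp h0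
  · intro hu
    obtain ⟨Q', hQ', hle⟩ := Ideal.exists_le_maximal Q hQ.ne_top
    have hm : Q'.comap (algebraMap R S) = maximalIdeal R :=
      IsLocalRing.eq_maximalIdeal (Ideal.isMaximal_comap_of_isIntegral_of_isMaximal Q')
    obtain ⟨s, hs⟩ := hu.exists_right_inv
    obtain ⟨s, rfl⟩ := Ideal.Quotient.mk_surjective s
    rw [← map_mul, ← map_one (Ideal.Quotient.mk Q), Ideal.Quotient.eq] at hs
    have hx' : algebraMap R S x ∈ Q' := by
      rw [← Ideal.mem_comap, hm]
      exact hx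
    apply hQ'.ne_top
    rw [Ideal.eq_top_iff_one]
    have e : (1 : S) = algebraMap R S x * s - (algebraMap R S x * s - 1) := by ring
    rw [e]
    exact Q'.sub_mem (Ideal.mul_mem_right _ _ hx') (hle hs)
  · intro z hz
    obtain ⟨a, ha, rfl⟩ := List.mem_map.mp hz
    rw [Ideal.Quotient.eq_zero_iff_mem, ← Ideal.mem_comap, hQP, ← ht]
    exact Submodule.subset_span (by simpa using ha)
  · intro a ha
    obtain ⟨n, hn⟩ := hrad ha
    refine ⟨n, ?_⟩
    rw [← map_pow]
    refine (Ideal.map_le_iff_le_comap.mpr ?_ : _ ≤ _) (Ideal.mem_map_of_mem _ hn)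
    refine sup_le ?_ ?_
    · rw [Ideal.span_singleton_le_iff_mem, Ideal.mem_comap]
      exact Ideal.mem_sup_left (Ideal.mem_span_singleton_self _)
    · rw [← ht]
      refine Submodule.span_le.mpr ?_
      intro w hw
      rw [SetLike.mem_coe, Ideal.mem_comap]
      exact Ideal.mem_sup_right (Ideal.subset_span (List.mem_map.mpr ⟨w, by simpa using hw, rfl⟩))

/-- A nonzero finite `Ext^n(L, S)` forces a perfect residue field. -/
theorem Perf.perfect_of_finite (hp : p.Prime) (h : Perf p S)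
    (hpi : ∀ s : S, ∃ (e : ℕ) (r : R), algebraMap R S r = s ^ p ^ e)
    {L : Type u} [AddCommGroup L] [Module R L] {n : ℕ} [Module.Finite R (E R L S n)]
    (ξ : E R L S n) (hξ : ξ ≠ 0) (a : R) : ∃ b : R, a - b ^ p ∈ maximalIdeal R := by
  let lam : S →ₗ[R] E R L S n :=
    { toFun := fun s => actS R L n s ξ
      map_add' := fun s t => actS_add s t ξ
      map_smul' := fun x s => actS_smul x s ξ }
  let I : Ideal S :=
    { carrier := {s | lam s = 0}
      add_mem' := fun {s t} hs ht => by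
        change lam (s + t) = 0
        rw [map_add, hs, ht, add_zero]
      zero_mem' := map_zero lam
      smul_mem' := fun c s hs => by
        change actS R L n (c * s) ξ = 0
        have hs' : actS R L n s ξ = 0 := hs
        rw [map_mul, Module.End.mul_apply, hs', map_zero] }
  have hI : I ≠ ⊤ := by
    intro htop
    have h1 : (1 : S) ∈ I := htop ▸ Submodule.mem_top
    have h2 : actS R L n (1 : S) ξ = 0 := h1
    rw [map_one] at h2
    exact hξ h2
  obtain ⟨Q, hQ, hIQ⟩ := Ideal.exists_le_maximal I hI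
  have hfin1 : Module.Finite R (S ⧸ LinearMap.ker lam) :=
    Module.Finite.equiv (LinearMap.quotKerEquivRange lam).symm
  have hfin : Module.Finite R (S ⧸ Q) :=
    Module.Finite.of_surjective
      ((LinearMap.ker lam).liftQ (Ideal.Quotient.mkₐ R Q).toLinearMap
        (fun s hs => Ideal.Quotient.eq_zero_iff_mem.mpr (hIQ hs)))
      (fun y => by
        obtain ⟨s, rfl⟩ := Ideal.Quotient.mk_surjective y
        exact ⟨Submodule.Quotient.mk s, rfl⟩)
  have hm : Q.comap (algebraMap R S) = maximalIdeal R := by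
    have : Algebra.IsIntegral R S := ⟨fun s => by
      obtain ⟨e, r, hr⟩ := hpi s
      exact IsIntegral.of_pow (pow_pos hp.pos e) (hr ▸ isIntegral_algebraMap)⟩
    exact IsLocalRing.eq_maximalIdeal (Ideal.isMaximal_comap_of_isIntegral_of_isMaximal Q)
  let _ := Ideal.Quotient.field Q
  have := Fact.mk hp
  have hchar : CharP (S ⧸ Q) p := (CharP.charP_iff_prime_eq_zero hp).mpr (by
    rw [← map_natCast (Ideal.Quotient.mk Q), h.char, map_zero])
  let N : ℕ →o Submodule R (S ⧸ Q) := ⟨fun e =>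
    { carrier := {y | ∃ r : R, algebraMap R (S ⧸ Q) r = y ^ p ^ e}
      add_mem' := by
        rintro y z ⟨r, hr⟩ ⟨s, hs⟩
        exact ⟨r + s, by rw [map_add, hr, hs, add_pow_char_pow]⟩
      zero_mem' := ⟨0, by rw [map_zero, zero_pow (pow_ne_zero _ hp.ne_zero)]⟩
      smul_mem' := by
        rintro c y ⟨r, hr⟩
        exact ⟨c ^ p ^ e * r, by rw [map_mul, map_pow, hr, Algebra.smul_def, mul_pow]⟩ }, by
    refine monotone_nat_of_le_succ fun e => ?_
    rintro y ⟨r, hr⟩
    exact ⟨r ^ p, by rw [map_pow, hr, ← pow_mul, pow_succ]⟩⟩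
  have hN : iSup N = ⊤ := by
    rw [eq_top_iff]
    intro y _
    obtain ⟨s, rfl⟩ := Ideal.Quotient.mk_surjective y
    obtain ⟨e, r, hr⟩ := hpi s
    refine Submodule.mem_iSup_of_mem e ⟨r, ?_⟩
    rw [← map_pow, ← hr]
    rfl
  obtain ⟨e, he⟩ := Submodule.FG.stabilizes_of_iSup_eq Module.Finite.fg_top N hN
  obtain ⟨t, ht⟩ := h.root_pow (e + 1) (algebraMap R S a)
  have hmem : Ideal.Quotient.mk Q t ∈ N e := he ▸ Submodule.mem_top
  obtain ⟨b, hb⟩ := hmem
  refine ⟨b, ?_⟩
  rw [← hm, Ideal.mem_comap, ← Ideal.Quotient.eq_zero_iff_mem, map_sub, map_sub, map_pow, map_pow,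
    ← ht, map_pow]
  have e1 : Ideal.Quotient.mk Q (algebraMap R S b) = algebraMap R (S ⧸ Q) b := rfl
  rw [e1, hb, ← pow_mul, pow_succ, sub_self]

end Pool.Agent.Lib.MP_c091ab_al
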