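import Pool.Agent.Lib.MP_c091ab_al.Almost

/-!
Short exact sequences of bare modules, the minimal resolution of the residue field, and cocycles
representing `Ext` classes.
-/

universe u

open CategoryTheory Abelian IsLocalRing

namespace Pool.Agent.Lib.MP_c091ab_al

variable {R : Type u} [CommRing R]

/-- a short exact sequence of bare modules -/
structure SES (R : Type u) [CommRing R] (A B C : Type u) [AddCommGroup A] [Module R A]
    [AddCommGroup B] [Module R B] [AddCommGroup C] [Module R C] where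
  f : A →ₗ[R] B
  g : B →ₗ[R] C
  ex : Function.Exact f g
  inj : Function.Injective f
  surj : Function.Surjective g

lemma ext_sub_comp {X Y Z : ModuleCat.{u} R} {a b c : ℕ} (α β : Ext.{u} X Y a) (γ : Ext.{u} Y Z b)
    (h : a + b = c) : (α - β).comp γ h = α.comp γ h - β.comp γ h := by
  rw [sub_eq_add_neg, sub_eq_add_neg, Ext.add_comp, Ext.neg_comp]

lemma ext_comp_sub {X Y Z : ModuleCat.{u} R} {a b c : ℕ} (α : Ext.{u} X Y a) (β γ : Ext.{u} Y Z b)
    (h : a + b = c) : α.comp (β - γ) h = α.comp β h - α.comp γ h := by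
  rw [sub_eq_add_neg, sub_eq_add_neg, Ext.comp_add, Ext.comp_neg]

lemma m0_zero {A B : Type u} [AddCommGroup A] [Module R A] [AddCommGroup B] [Module R B] :
    m0 (0 : A →ₗ[R] B) = 0 := (m0_eq_zero_iff _).mpr rfl

lemma m0_sub {A B : Type u} [AddCommGroup A] [Module R A] [AddCommGroup B] [Module R B]
    (f g : A →ₗ[R] B) : m0 (f - g) = m0 f - m0 g := by
  rw [eq_sub_iff_add_eq, ← m0_add, sub_add_cancel]

lemma m0_inj {A B : Type u} [AddCommGroup A] [Module R A] [AddCommGroup B] [Module R B]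
    {f g : A →ₗ[R] B} (h : m0 f = m0 g) : f = g := by
  rw [← sub_eq_zero, ← m0_sub, m0_eq_zero_iff] at h
  exact sub_eq_zero.mp h

lemma comp_m0_comp_m0 {L A B C : Type u} [AddCommGroup L] [Module R L] [AddCommGroup A]
    [Module R A] [AddCommGroup B] [Module R B] [AddCommGroup C] [Module R C] {n : ℕ}
    (ξ : E R L A n) (f : A →ₗ[R] B) (g : B →ₗ[R] C) :
    (ξ.comp (m0 f) (add_zero n)).comp (m0 g) (add_zero n) =
      ξ.comp (m0 (g.comp f)) (add_zero n) := by
  rw [Ext.comp_assoc_of_third_deg_zero, m0_comp_m0]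

namespace SES

variable {A B C : Type u} [AddCommGroup A] [Module R A] [AddCommGroup B] [Module R B]
  [AddCommGroup C] [Module R C] (S : SES R A B C) {X : Type u} [AddCommGroup X] [Module R X]

lemma se : (sc S.f S.g S.ex).ShortExact := sc_exact _ _ _ S.inj S.surj

/-- the class of the sequence -/
noncomputable def e : E R C A 1 := S.se.extClass

lemma co1 {n₀ n₁ : ℕ} (h : n₀ + 1 = n₁) (x : E R X A n₁)
    (hx : x.comp (m0 S.f) (add_zero n₁) = 0) : ∃ y : E R X C n₀, y.comp S.e h = x :=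
  Ext.covariant_sequence_exact₁ _ S.se x hx h

lemma co2 {n : ℕ} (x : E R X B n) (hx : x.comp (m0 S.g) (add_zero n) = 0) :
    ∃ y : E R X A n, y.comp (m0 S.f) (add_zero n) = x :=
  Ext.covariant_sequence_exact₂ _ S.se x hx

lemma co3 {n₀ n₁ : ℕ} (h : n₀ + 1 = n₁) (x : E R X C n₀) (hx : x.comp S.e h = 0) :
    ∃ y : E R X B n₀, y.comp (m0 S.g) (add_zero n₀) = x :=
  Ext.covariant_sequence_exact₃ _ S.se x h hx

lemma ct1 {n₀ n₁ : ℕ} (h : 1 + n₀ = n₁) (x : E R A X n₀) (hx : S.e.comp x h = 0) :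
    ∃ y : E R B X n₀, (m0 S.f).comp y (zero_add n₀) = x :=
  Ext.contravariant_sequence_exact₁ S.se _ x h hx

lemma ct2 {n : ℕ} (x : E R B X n) (hx : (m0 S.f).comp x (zero_add n) = 0) :
    ∃ y : E R C X n, (m0 S.g).comp y (zero_add n) = x :=
  Ext.contravariant_sequence_exact₂ S.se _ x hx

lemma ct3 {n₀ n₁ : ℕ} (h : 1 + n₀ = n₁) (x : E R C X n₁)
    (hx : (m0 S.g).comp x (zero_add n₁) = 0) : ∃ y : E R A X n₀, S.e.comp y h = x :=
  Ext.contravariant_sequence_exact₃ S.se _ x hx h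

lemma g_e : (m0 S.g).comp S.e (zero_add 1) = 0 := S.se.comp_extClass

lemma e_f : S.e.comp (m0 S.f) (add_zero 1) = 0 := S.se.extClass_comp

lemma gf : S.g.comp S.f = 0 := S.ex.linearMap_comp_eq_zero

lemma g_e_comp {n n' : ℕ} (h : 1 + n = n') (y : E R A X n) :
    (m0 S.g).comp (S.e.comp y h) (zero_add n') = 0 := S.se.comp_extClass_assoc y h

lemma e_f_comp {n n' : ℕ} (h : 1 + n = n') (y : E R B X n) :
    S.e.comp ((m0 S.f).comp y (zero_add n)) h = 0 := S.se.extClass_comp_assoc y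

lemma f_g_comp {n : ℕ} (y : E R C X n) :
    (m0 S.f).comp ((m0 S.g).comp y (zero_add n)) (zero_add n) = 0 := by
  rw [m0_comp_m0_assoc, S.gf, m0_zero, Ext.zero_comp]

lemma comp_g_e {n n' : ℕ} (h : n + 1 = n') (y : E R X B n) :
    (y.comp (m0 S.g) (add_zero n)).comp S.e h = 0 := by
  rw [Ext.comp_assoc_of_second_deg_zero, S.g_e, Ext.comp_zero]

lemma comp_e_f {n n' : ℕ} (h : n + 1 = n') (y : E R X C n) :
    (y.comp S.e h).comp (m0 S.f) (add_zero n') = 0 := by
  rw [Ext.comp_assoc_of_third_deg_zero, S.e_f, Ext.comp_zero]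

lemma comp_f_g {n : ℕ} (y : E R X A n) :
    (y.comp (m0 S.f) (add_zero n)).comp (m0 S.g) (add_zero n) = 0 := by
  rw [comp_m0_comp_m0, S.gf, m0_zero, Ext.comp_zero]

lemma g_inj0 (y : E R C X 0) (hy : (m0 S.g).comp y (zero_add 0) = 0) : y = 0 := by
  obtain ⟨t, rfl⟩ := exists_m0 y
  rw [m0_comp_m0, m0_eq_zero_iff] at hy
  rw [m0_eq_zero_iff]
  ext c
  obtain ⟨b, rfl⟩ := S.surj c
  exact LinearMap.congr_fun hy b

lemma nat {A' B' C' : Type u} [AddCommGroup A'] [Module R A'] [AddCommGroup B'] [Module R B']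
    [AddCommGroup C'] [Module R C'] (S' : SES R A' B' C') (α : A →ₗ[R] A') (β : B →ₗ[R] B')
    (γ : C →ₗ[R] C') (h1 : S'.f.comp α = β.comp S.f) (h2 : S'.g.comp β = γ.comp S.g) :
    S.e.comp (m0 α) (add_zero 1) = (m0 γ).comp S'.e (zero_add 1) := by
  let φ : sc S.f S.g S.ex ⟶ sc S'.f S'.g S'.ex :=
    { τ₁ := ModuleCat.ofHom α
      τ₂ := ModuleCat.ofHom β
      τ₃ := ModuleCat.ofHom γ
      comm₁₂ := ModuleCat.hom_ext h1
      comm₂₃ := ModuleCat.hom_ext h2 }
  exact ShortComplex.ShortExact.extClass_naturality S.se S'.se φ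

end SES

/-- the sequence `ker f → B → C` -/
def SES.ofSurj {B C : Type u} [AddCommGroup B] [Module R B] [AddCommGroup C] [Module R C]
    (g : B →ₗ[R] C) (hg : Function.Surjective g) : SES R (LinearMap.ker g) B C :=
  ⟨(LinearMap.ker g).subtype, g, LinearMap.exact_subtype_ker_map g,
    (LinearMap.ker g).injective_subtype, hg⟩

/-- the sequence `A → B → B / f A` -/
def SES.ofInj {A B : Type u} [AddCommGroup A] [Module R A] [AddCommGroup B] [Module R B]
    (f : A →ₗ[R] B) (hf : Function.Injective f) : SES R A B (B ⧸ LinearMap.range f) :=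
  ⟨f, (LinearMap.range f).mkQ, LinearMap.exact_map_mkQ_range f, hf,
    (LinearMap.range f).mkQ_surjective⟩

/-- a finite module -/
structure FM (R : Type u) [CommRing R] where
  T : Type u
  [ag : AddCommGroup T]
  [md : Module R T]
  [fin : Module.Finite R T]

attribute [instance] FM.ag FM.md FM.fin

section res

variable [IsLocalRing R] [IsNoetherianRing R]

/-- rank of a minimal cover -/
noncomputable def FM.rk (L : FM R) : ℕ := (exists_min_cover (R := R) L.T).choose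

/-- a minimal cover -/
noncomputable def FM.cov (L : FM R) : (Fin L.rk → R) →ₗ[R] L.T :=
  (exists_min_cover (R := R) L.T).choose_spec.choose

omit [IsNoetherianRing R] in
lemma FM.cov_surj (L : FM R) : Function.Surjective L.cov :=
  (exists_min_cover (R := R) L.T).choose_spec.choose_spec.1

omit [IsNoetherianRing R] in
lemma FM.cov_ker (L : FM R) : LinearMap.ker L.cov ≤ maximalIdeal R • ⊤ :=
  (exists_min_cover (R := R) L.T).choose_spec.choose_spec.2

variable (R) in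
/-- the syzygies of the residue field -/
noncomputable def syz : ℕ → FM R
  | 0 => FM.mk (R ⧸ maximalIdeal R)
  | n + 1 => FM.mk (LinearMap.ker (syz n).cov)

variable (R) in
/-- the terms of the minimal resolution -/
abbrev FF (n : ℕ) : Type u := Fin (syz R n).rk → R

variable (R) in
/-- the sequence `Ω (n+1) → F n → Ω n` -/
noncomputable def syzS (n : ℕ) : SES R (syz R (n + 1)).T (FF R n) (syz R n).T :=
  SES.ofSurj (syz R n).cov (syz R n).cov_surj

variable (R) in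
/-- the differential of the minimal resolution -/
noncomputable def dd (n : ℕ) : FF R (n + 1) →ₗ[R] FF R n :=
  (syzS R n).f.comp (syzS R (n + 1)).g

lemma dd_dd (n : ℕ) : (dd R n).comp (dd R (n + 1)) = 0 := by
  rw [dd, dd, LinearMap.comp_assoc, ← LinearMap.comp_assoc _ _ (syzS R (n + 1)).g,
    (syzS R (n + 1)).gf, LinearMap.zero_comp, LinearMap.comp_zero]

lemma dd_mem (n : ℕ) (x : FF R (n + 1)) :
    dd R n x ∈ (maximalIdeal R • ⊤ : Submodule R (FF R n)) :=
  (syz R n).cov_ker ((syzS R (n + 1)).g x).2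

lemma dd_entry (n : ℕ) (x : FF R (n + 1)) (u : Fin (syz R n).rk) :
    dd R n x u ∈ maximalIdeal R := by
  refine Submodule.smul_induction_on (p := fun y : FF R n => y u ∈ maximalIdeal R)
    (dd_mem n x) ?_ ?_
  · intro a ha y _
    exact Ideal.mul_mem_right _ _ ha
  · intro y z hy hz
    exact Ideal.add_mem _ hy hz

variable (R) in
/-- the universal classes -/
noncomputable def th : (n : ℕ) → E R (R ⧸ maximalIdeal R) (syz R n).T n
  | 0 => m0 (LinearMap.id : (R ⧸ maximalIdeal R) →ₗ[R] (R ⧸ maximalIdeal R))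
  | n + 1 => (th n).comp (syzS R n).e rfl

variable {N : Type u} [AddCommGroup N] [Module R N]

lemma th_surj (n : ℕ) : ∀ (j m : ℕ) (h : n + j = m) (ξ : E R (R ⧸ maximalIdeal R) N m),
    ∃ η : E R (syz R n).T N j, ξ = (th R n).comp η h := by
  induction n with
  | zero =>
    intro j m h ξ
    obtain rfl : j = m := by omega
    exact ⟨ξ, (m0_id_comp ξ).symm⟩
  | succ n ih =>
    intro j m h ξ
    obtain ⟨η, rfl⟩ := ih (j + 1) m (by omega) ξ
    obtain ⟨ζ, rfl⟩ := (syzS R n).ct3 (add_comm 1 j) η (Ext.eq_zero_of_projective _)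
    exact ⟨ζ, (Ext.comp_assoc _ _ _ rfl (add_comm 1 j) (by omega)).symm⟩

lemma th_inj (n : ℕ) : ∀ (j m : ℕ) (h : n + (j + 1) = m) (η : E R (syz R n).T N (j + 1)),
    (th R n).comp η h = 0 → η = 0 := by
  induction n with
  | zero =>
    intro j m h η hη
    obtain rfl : j + 1 = m := by omega
    exact (m0_id_comp η).symm.trans hη
  | succ n ih =>
    intro j m h η hη
    have h1 : (th R n).comp ((syzS R n).e.comp η (add_comm 1 (j + 1))) (by omega : _ = m) = 0 :=
      (Ext.comp_assoc _ _ _ rfl (add_comm 1 (j + 1)) (by omega)).symm.trans hη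
    obtain ⟨ζ, rfl⟩ := (syzS R n).ct1 _ η (ih (j + 1) m (by omega) _ h1)
    rw [Ext.eq_zero_of_projective ζ, Ext.comp_zero]

/-- the cochain `w` is a cocycle representing `ξ` -/
def Rep (n : ℕ) (w : FF R n →ₗ[R] N) (ξ : E R (R ⧸ maximalIdeal R) N n) : Prop :=
  ∃ f : (syz R n).T →ₗ[R] N, w = f.comp (syzS R n).g ∧ ξ = (th R n).comp (m0 f) (add_zero n)

lemma Rep.cocycle {n : ℕ} {w : FF R n →ₗ[R] N} {ξ : E R (R ⧸ maximalIdeal R) N n}
    (h : Rep n w ξ) : w.comp (dd R n) = 0 := by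
  obtain ⟨f, rfl, -⟩ := h
  rw [dd, LinearMap.comp_assoc, ← LinearMap.comp_assoc _ _ (syzS R n).g, (syzS R n).gf,
    LinearMap.zero_comp, LinearMap.comp_zero]

lemma rep_of_cocycle {n : ℕ} (w : FF R n →ₗ[R] N) (h : w.comp (dd R n) = 0) :
    ∃ ξ, Rep n w ξ := by
  have h1 : LinearMap.ker (syzS R n).g ≤ LinearMap.ker w := by
    intro x hx
    obtain ⟨y, rfl⟩ := ((syzS R n).ex x).mp hx
    obtain ⟨z, rfl⟩ := (syzS R (n + 1)).surj y
    exact LinearMap.congr_fun h z
  let f : (syz R n).T →ₗ[R] N := ((LinearMap.ker (syzS R n).g).liftQ w h1).comp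
    (LinearMap.quotKerEquivOfSurjective _ (syzS R n).surj).symm.toLinearMap
  refine ⟨_, f, ?_, rfl⟩
  apply LinearMap.ext
  intro x
  simp [f]

lemma rep_of_class {n : ℕ} (ξ : E R (R ⧸ maximalIdeal R) N n) : ∃ w, Rep n w ξ := by
  obtain ⟨η, rfl⟩ := th_surj n 0 n (add_zero n) ξ
  obtain ⟨f, rfl⟩ := exists_m0 η
  exact ⟨_, f, rfl, rfl⟩

lemma Rep.unique {n : ℕ} {w : FF R n →ₗ[R] N} {ξ ξ' : E R (R ⧸ maximalIdeal R) N n}
    (h : Rep n w ξ) (h' : Rep n w ξ') : ξ = ξ' := by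
  obtain ⟨f, hf, rfl⟩ := h
  obtain ⟨f', hf', rfl⟩ := h'
  have : f = f' := (LinearMap.cancel_right (syzS R n).surj).mp (hf.symm.trans hf')
  rw [this]

lemma Rep.sub {n : ℕ} {w w' : FF R n →ₗ[R] N} {ξ ξ' : E R (R ⧸ maximalIdeal R) N n}
    (h : Rep n w ξ) (h' : Rep n w' ξ') : Rep n (w - w') (ξ - ξ') := by
  obtain ⟨f, rfl, rfl⟩ := h
  obtain ⟨f', rfl, rfl⟩ := h'
  exact ⟨f - f', by rw [LinearMap.sub_comp], by rw [m0_sub, ext_comp_sub]⟩

lemma Rep.zero0 {w : FF R 0 →ₗ[R] N} (h : Rep 0 w 0) : w = 0 := by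
  obtain ⟨f, rfl, hf⟩ := h
  have h1 : m0 f = 0 := (m0_id_comp (m0 f)).symm.trans hf.symm
  rw [(m0_eq_zero_iff f).mp h1, LinearMap.zero_comp]

lemma Rep.zero_succ {n : ℕ} {w : FF R (n + 1) →ₗ[R] N} (h : Rep (n + 1) w 0) :
    ∃ v : FF R n →ₗ[R] N, v.comp (dd R n) = w := by
  obtain ⟨f, rfl, hf⟩ := h
  have h1 : (th R n).comp ((syzS R n).e.comp (m0 f) (add_zero 1)) rfl = 0 :=
    (Ext.comp_assoc_of_third_deg_zero _ _ _ _).symm.trans hf.symm
  obtain ⟨ζ, hζ⟩ := (syzS R n).ct1 _ (m0 f) (th_inj n 0 (n + 1) rfl _ h1)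
  obtain ⟨v, rfl⟩ := exists_m0 ζ
  rw [m0_comp_m0] at hζ
  exact ⟨v, by rw [dd, ← LinearMap.comp_assoc, m0_inj hζ]⟩

lemma rep_cob {n : ℕ} (v : FF R n →ₗ[R] N) : Rep (n + 1) (v.comp (dd R n)) 0 := by
  refine ⟨v.comp (syzS R n).f, rfl, ?_⟩
  have : (th R (n + 1)).comp (m0 (v.comp (syzS R n).f)) (add_zero _) =
      (th R n).comp ((syzS R n).e.comp (m0 (v.comp (syzS R n).f)) (add_zero 1)) rfl :=
    Ext.comp_assoc_of_third_deg_zero _ _ _ _
  rw [this, ← m0_comp_m0, (syzS R n).e_f_comp, Ext.comp_zero]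

lemma rep_zero (n : ℕ) : Rep n (0 : FF R n →ₗ[R] N) 0 :=
  ⟨0, rfl, by rw [m0_zero, Ext.comp_zero]⟩

lemma Rep.map {N' : Type u} [AddCommGroup N'] [Module R N'] {n : ℕ} {w : FF R n →ₗ[R] N}
    {ξ : E R (R ⧸ maximalIdeal R) N n} (h : Rep n w ξ) (g : N →ₗ[R] N') :
    Rep n (g.comp w) (ξ.comp (m0 g) (add_zero n)) := by
  obtain ⟨f, rfl, rfl⟩ := h
  exact ⟨g.comp f, rfl, comp_m0_comp_m0 _ _ _⟩

lemma Rep.conn {A B : Type u} [AddCommGroup A] [Module R A] [AddCommGroup B] [Module R B]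
    (S : SES R A B N) {n : ℕ} {v : FF R n →ₗ[R] B} {ξ : E R (R ⧸ maximalIdeal R) N n}
    (h : Rep n (S.g.comp v) ξ) (w : FF R (n + 1) →ₗ[R] A) (hw : S.f.comp w = v.comp (dd R n)) :
    Rep (n + 1) w (ξ.comp S.e rfl) := by
  obtain ⟨f, hf, rfl⟩ := h
  have h1 : w.comp (dd R (n + 1)) = 0 := by
    apply (LinearMap.cancel_left S.inj).mp
    rw [← LinearMap.comp_assoc, hw, LinearMap.comp_assoc, dd_dd, LinearMap.comp_zero,
      LinearMap.comp_zero]
  obtain ⟨_, f', rfl, -⟩ := rep_of_cocycle w h1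
  refine ⟨f', rfl, ?_⟩
  have h2 : S.f.comp f' = v.comp (syzS R n).f := by
    apply (LinearMap.cancel_right (syzS R (n + 1)).surj).mp
    exact hw
  have h3 := (syzS R n).nat S f' v f h2 hf
  have h4 : (th R (n + 1)).comp (m0 f') (add_zero _) =
      (th R n).comp ((syzS R n).e.comp (m0 f') (add_zero 1)) rfl :=
    Ext.comp_assoc_of_third_deg_zero _ _ _ _
  rw [h4, h3, Ext.comp_assoc_of_second_deg_zero]

/-- a vanishing Betti number kills `Ext(k, k)` -/
lemma ext_zero_of_rk (n : ℕ) (h : (syz R n).rk = 0) (ξ : E R (R ⧸ maximalIdeal R) N n) :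
    ξ = 0 := by
  obtain ⟨w, hw⟩ := rep_of_class ξ
  have : w = 0 := by
    apply LinearMap.ext
    intro x
    have : x = 0 := funext fun u => absurd u.2 (by omega)
    rw [this, map_zero, map_zero]
  rw [this] at hw
  exact hw.unique (rep_zero n)

end res

end Pool.Agent.Lib.MP_c091ab_al
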