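import Pool.Agent.Lib.MP_c091ab_al.Gap1
import Pool.Agent.Lib.MP_c091ab_al.Vanish

/-!
Torsion modules have no higher local cohomology.
-/

universe u

open CategoryTheory Abelian IsLocalRing

namespace Pool.Agent.Lib.MP_c091ab_al

variable {R : Type u} [CommRing R] [IsLocalRing R]

/-- `c` contains a power of the maximal ideal -/
def Prim (c : Ideal R) : Prop := ∃ N : ℕ, maximalIdeal R ^ N ≤ c

variable (R) in
/-- elements killed by a power of the maximal ideal -/
def gam (T : Type u) [AddCommGroup T] [Module R T] : Submodule R T where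
  carrier := {t | ∃ N : ℕ, ∀ r ∈ maximalIdeal R ^ N, r • t = 0}
  add_mem' := by
    rintro a b ⟨N, hN⟩ ⟨M, hM⟩
    refine ⟨N + M, fun r hr => ?_⟩
    rw [smul_add, hN r (Ideal.pow_le_pow_right (by omega) hr),
      hM r (Ideal.pow_le_pow_right (by omega) hr), add_zero]
  zero_mem' := ⟨0, fun r _ => smul_zero r⟩
  smul_mem' := by
    rintro c a ⟨N, hN⟩
    exact ⟨N, fun r hr => by rw [smul_comm, hN r hr, smul_zero]⟩

variable (R) in
/-- the module is killed by a power of the maximal ideal -/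
def Sm (L : Type u) [AddCommGroup L] [Module R L] : Prop :=
  ∃ N : ℕ, ∀ r ∈ maximalIdeal R ^ N, ∀ l : L, r • l = 0

lemma prim_max : Prim (maximalIdeal R) := ⟨1, by simp⟩

lemma sm_of_finiteLength (L : Type u) [AddCommGroup L] [Module R L] (hL : IsFiniteLength R L) :
    Sm R L := by
  induction hL with
  | @of_subsingleton L _ _ _ => exact ⟨0, fun _ _ _ => Subsingleton.elim _ _⟩
  | @of_simple_quotient L _ _ N hs _ ih =>
    obtain ⟨n, hn⟩ := ih
    obtain ⟨I, hI, ⟨e⟩⟩ := isSimpleModule_iff_quot_maximal.mp hs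
    obtain rfl := IsLocalRing.eq_maximalIdeal hI
    refine ⟨n + 1, fun r hr l => ?_⟩
    rw [pow_succ] at hr
    refine Submodule.mul_induction_on hr ?_ ?_
    · intro a ha b hb
      have h1 : b • l ∈ N := by
        rw [← Submodule.Quotient.mk_eq_zero, Submodule.Quotient.mk_smul]
        apply e.injective
        rw [map_smul, map_zero]
        obtain ⟨x, hx⟩ := Ideal.Quotient.mk_surjective (e (Submodule.Quotient.mk l))
        rw [← hx]
        change Ideal.Quotient.mk _ (b * x) = 0
        exact Ideal.Quotient.eq_zero_iff_mem.mpr (Ideal.mul_mem_right _ _ hb)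
      rw [mul_smul]
      exact congrArg Subtype.val (hn a ha ⟨_, h1⟩)
    · intro x y hx hy
      rw [add_smul, hx, hy, add_zero]

variable [IsNoetherianRing R]

lemma fl_quot {c : Ideal R} (hc : Prim c) : IsFiniteLength R (R ⧸ c) := by
  obtain ⟨N, hN⟩ := hc
  have hart : IsArtinianRing (R ⧸ c) := by
    rw [isArtinianRing_iff_krullDimLE_zero,
      Ideal.krullDimLE_zero_quotient_iff_forall_minimalPrimes_isMaximal]
    intro P hP
    have : maximalIdeal R ≤ P := fun x hx =>
      hP.1.1.mem_of_pow_mem N (hP.1.2 (hN (Ideal.pow_mem_pow hx N)))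
    have h2 := (maximalIdeal.isMaximal R).eq_of_le hP.1.1.ne_top this
    rw [← h2]
    exact maximalIdeal.isMaximal R
  have hart' : IsArtinian R (R ⧸ c) :=
    isArtinian_of_surjective_algebraMap (R := R ⧸ c) Ideal.Quotient.mk_surjective
  exact isFiniteLength_iff_isNoetherian_isArtinian.mpr ⟨inferInstance, inferInstance⟩

lemma fl_sub {c : Ideal R} (hc : Prim c) (K : Submodule R (R ⧸ c)) : IsFiniteLength R K := by
  obtain ⟨_, _⟩ := isFiniteLength_iff_isNoetherian_isArtinian.mp (fl_quot hc)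
  exact isFiniteLength_iff_isNoetherian_isArtinian.mpr ⟨inferInstance, inferInstance⟩

lemma baer_gam (I : Type u) [AddCommGroup I] [Module R I] [hI : Module.Injective R I] :
    Module.Baer R (gam R I) := by
  intro J g
  have h1 : ∃ N : ℕ, ∀ r ∈ maximalIdeal R ^ N, ∀ x : J, r • g x = 0 := by
    let P : ℕ →o Submodule R J := ⟨fun N =>
      { carrier := {x | ∀ r ∈ maximalIdeal R ^ N, r • g x = 0}
        add_mem' := fun {a b} ha hb r hr => by
          rw [map_add, smul_add, ha r hr, hb r hr, add_zero]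
        zero_mem' := fun r _ => by rw [map_zero, smul_zero]
        smul_mem' := fun c a ha r hr => by rw [map_smul, smul_comm, ha r hr, smul_zero] },
      fun a b hab x hx r hr => hx r (Ideal.pow_le_pow_right hab hr)⟩
    have hP : iSup P = ⊤ := by
      rw [eq_top_iff]
      intro x _
      obtain ⟨N, hN⟩ := (g x).2
      exact Submodule.mem_iSup_of_mem N (fun r hr => Subtype.ext (hN r hr))
    obtain ⟨N, hN⟩ := Submodule.FG.stabilizes_of_iSup_eq Module.Finite.fg_top P hP
    refine ⟨N, fun r hr x => ?_⟩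
    have : x ∈ P N := hN ▸ Submodule.mem_top
    exact this r hr
  obtain ⟨N, hN⟩ := h1
  obtain ⟨k, hk⟩ := (maximalIdeal R).exists_pow_inf_eq_pow_smul (M := R) J
  let c : Ideal R := maximalIdeal R ^ (N + k)
  let ι : J →ₗ[R] R ⧸ c := c.mkQ.comp J.subtype
  have hker : LinearMap.ker ι ≤ LinearMap.ker ((gam R I).subtype.comp g) := by
    intro x hx
    have h2 : (x : R) ∈ c := (Submodule.Quotient.mk_eq_zero _).mp hx
    have h3 : (x : R) ∈ (maximalIdeal R ^ (N + k) • ⊤ ⊓ J : Submodule R R) :=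
      ⟨by simpa using h2, x.2⟩
    rw [hk (N + k) (by omega), Nat.add_sub_cancel] at h3
    have h4 : ∀ y ∈ (maximalIdeal R ^ N • (maximalIdeal R ^ k • ⊤ ⊓ J) : Submodule R R),
        ∃ hy : y ∈ J, g ⟨y, hy⟩ = 0 := by
      intro y hy
      refine Submodule.smul_induction_on hy ?_ ?_
      · intro r hr z hz
        refine ⟨J.smul_mem r hz.2, ?_⟩
        rw [← hN r hr ⟨z, hz.2⟩, ← map_smul]
        rfl
      · rintro a b ⟨ha, ha'⟩ ⟨hb, hb'⟩
        refine ⟨J.add_mem ha hb, ?_⟩
        have : (⟨a + b, J.add_mem ha hb⟩ : J) = ⟨a, ha⟩ + ⟨b, hb⟩ := rfl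
        rw [this, map_add, ha', hb', add_zero]
    obtain ⟨_, h5⟩ := h4 x h3
    change ((g x : gam R I) : I) = 0
    rw [show g x = 0 from h5]
    rfl
  obtain ⟨h, hh⟩ := hI.out ((LinearMap.ker ι).liftQ ι le_rfl)
    (LinearMap.ker_eq_bot.mp (Submodule.ker_liftQ_eq_bot _ _ _ le_rfl))
    ((LinearMap.ker ι).liftQ _ hker)
  refine ⟨LinearMap.codRestrict (gam R I) (h.comp c.mkQ) (fun x => ⟨N + k, fun r hr => ?_⟩), ?_⟩
  · rw [← map_smul, LinearMap.comp_apply, Submodule.mkQ_apply, smul_eq_mul,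
      (Submodule.Quotient.mk_eq_zero _).mpr (Ideal.mul_mem_right _ _ hr : r * x ∈ c), map_zero]
  · intro x hx
    exact Subtype.ext (hh (Submodule.Quotient.mk ⟨x, hx⟩))

lemma tors_embed (T : Type u) [AddCommGroup T] [Module R T] (hT : ∀ t : T, t ∈ gam R T) :
    ∃ (J : Type u) (_ : AddCommGroup J) (_ : Module R J) (_ : Module.Injective R J)
      (f : T →ₗ[R] J), Function.Injective f ∧ ∀ t : J, t ∈ gam R J := by
  let I := Injective.under (ModuleCat.of R T)
  let ι : T →ₗ[R] I := (Injective.ι (ModuleCat.of R T)).hom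
  have hι : Function.Injective ι := (ModuleCat.mono_iff_injective _).mp inferInstance
  have hI : Module.Injective R I :=
    Module.injective_module_of_injective_object R I (inj := Injective.injective_under _)
  refine ⟨gam R I, inferInstance, inferInstance, (baer_gam I).injective,
    LinearMap.codRestrict _ ι (fun t => ?_), ?_, ?_⟩
  · obtain ⟨N, hN⟩ := hT t
    exact ⟨N, fun r hr => by rw [← map_smul, hN r hr, map_zero]⟩
  · intro a b hab
    exact hι (congrArg Subtype.val hab)
  · rintro ⟨t, N, hN⟩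
    exact ⟨N, fun r hr => Subtype.ext (hN r hr)⟩

/-- A class of positive degree with values in a torsion module dies on a smaller ideal. -/
lemma tors_die (n : ℕ) : ∀ (T : Type u) [AddCommGroup T] [Module R T] (_ : ∀ t : T, t ∈ gam R T)
    (c : Ideal R) (_ : Prim c) (ξ : E R (R ⧸ c) T (n + 1)),
    ∃ (c' : Ideal R) (h : c' ≤ c), Prim c' ∧ (m0 (fac c' c h)).comp ξ (zero_add _) = 0 := by
  induction n with
  | zero =>
    intro T _ _ hT c hc ξ
    obtain ⟨J, _, _, hJ, f, hf, hJt⟩ := tors_embed T hT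
    have := Module.injective_object_of_injective_module R J
    let S := SES.ofInj f hf
    obtain ⟨η, rfl⟩ := S.co1 rfl ξ (Ext.eq_zero_of_injective _)
    obtain ⟨g, rfl⟩ := exists_m0 η
    obtain ⟨x, hx⟩ := S.surj (g 1)
    obtain ⟨N, hN⟩ := hJt x
    obtain ⟨M, hM⟩ := hc
    have hp : Prim (c ⊓ maximalIdeal R ^ N) :=
      ⟨M + N, le_inf ((Ideal.pow_le_pow_right (by omega)).trans hM)
        (Ideal.pow_le_pow_right (by omega))⟩
    refine ⟨c ⊓ maximalIdeal R ^ N, inf_le_left, hp, ?_⟩
    let l : (R ⧸ (c ⊓ maximalIdeal R ^ N)) →ₗ[R] J :=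
      Submodule.liftQ _ (LinearMap.toSpanSingleton R J x) (fun r hr => hN r hr.2)
    have e1 : g.comp (fac _ c inf_le_left) = S.g.comp l := by
      refine quot_ext fun r => ?_
      rw [LinearMap.comp_apply, fac_mk]
      change _ = S.g (r • x)
      rw [map_smul, hx, ← map_smul]
      congr 1
      change _ = Ideal.Quotient.mk c (r * 1)
      rw [mul_one]
    rw [← Ext.comp_assoc _ _ _ (zero_add 0) rfl rfl, m0_comp_m0, e1, ← m0_comp_m0]
    exact S.comp_g_e rfl _
  | succ n ih =>
    intro T _ _ hT c hc ξ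
    obtain ⟨J, _, _, hJ, f, hf, hJt⟩ := tors_embed T hT
    have := Module.injective_object_of_injective_module R J
    let S := SES.ofInj f hf
    obtain ⟨η, rfl⟩ := S.co1 rfl ξ (Ext.eq_zero_of_injective _)
    obtain ⟨c', h, hp, h0⟩ := ih (J ⧸ LinearMap.range f) (fun t => by
      obtain ⟨x, rfl⟩ := Submodule.Quotient.mk_surjective _ t
      obtain ⟨N, hN⟩ := hJt x
      exact ⟨N, fun r hr => by
        rw [← Submodule.Quotient.mk_smul, hN r hr, Submodule.Quotient.mk_zero]⟩) c hc η
    refine ⟨c', h, hp, ?_⟩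
    rw [← Ext.comp_assoc _ _ _ (zero_add (n + 1)) rfl (by omega), h0, Ext.zero_comp]

end Pool.Agent.Lib.MP_c091ab_al
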