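import Pool.Agent.Lib.MP_c091ab_al.Gap2

/-!
Modules over an `R`-algebra, their cosyzygies with respect to localisations, and the comparison
maps on `Ext`.
-/

universe u

open CategoryTheory Abelian IsLocalRing

namespace Pool.Agent.Lib.MP_c091ab_al

/-- a module over the `R`-algebra `R'` -/
structure Md (R R' : Type u) [CommRing R] [CommRing R'] [Algebra R R'] where
  T : Type u
  [ag : AddCommGroup T]
  [mr : Module R T]
  [mr' : Module R' T]
  [st : IsScalarTower R R' T]

attribute [instance] Md.ag Md.mr Md.mr' Md.st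

variable {R R' : Type u} [CommRing R] [CommRing R'] [Algebra R R'] [IsLocalRing R]

/-- an embedding, up to torsion, into a module without `Ext` from finite length modules -/
structure Step (M : Md R R') where
  C : Md R R'
  N : Md R R'
  j : M.T →ₗ[R'] C.T
  b : C.T →ₗ[R'] N.T
  hj : ∀ m, j m = 0 ↔ m ∈ gam R M.T
  ex : Function.Exact j b
  surj : Function.Surjective b
  acyc : ∀ (L : Type u) [AddCommGroup L] [Module R L], Sm R L → ∀ (n : ℕ) (ξ : E R L C.T n), ξ = 0

omit [IsLocalRing R] in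
lemma ext_zero_of_bij {L T : Type u} [AddCommGroup L] [Module R L] [AddCommGroup T] [Module R T]
    (x : R) (hx : ∀ l : L, x • l = 0) (hT : Function.Bijective (fun t : T => x • t)) {n : ℕ}
    (ξ : E R L T n) : ξ = 0 := by
  let e : T ≃ₗ[R] T := LinearEquiv.ofBijective (x • LinearMap.id) hT
  have h1 : (x • LinearMap.id : T →ₗ[R] T).comp e.symm.toLinearMap = LinearMap.id := by
    ext t
    exact e.apply_symm_apply t
  rw [← comp_m0_id ξ, ← h1, ← comp_m0_comp_m0, m0_smul, Ext.comp_smul, comp_m0_id,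
    smul_ext_eq_zero x hx]

variable [IsNoetherianRing R]

lemma step_nonempty (M : Md R R') : Nonempty (Step M) := by
  classical
  obtain ⟨t, ht⟩ := IsNoetherian.noetherian (maximalIdeal R)
  let Lc : t → Type u := fun a => LocalizedModule (Submonoid.powers (algebraMap R R' a)) M.T
  let j : M.T →ₗ[R'] (∀ a, Lc a) :=
    LinearMap.pi fun a => LocalizedModule.mkLinearMap (Submonoid.powers (algebraMap R R' a)) M.T
  refine ⟨⟨Md.mk (∀ a, Lc a), Md.mk ((∀ a, Lc a) ⧸ LinearMap.range j), j,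
    (LinearMap.range j).mkQ, ?_, LinearMap.exact_map_mkQ_range j,
    (LinearMap.range j).mkQ_surjective, ?_⟩⟩
  · intro m
    constructor
    · intro hm
      have h1 : ∀ a : t, ∃ N : ℕ, (a : R) ^ N • m = 0 := by
        intro a
        obtain ⟨⟨_, N, rfl⟩, hN⟩ := (IsLocalizedModule.eq_zero_iff
          (Submonoid.powers (algebraMap R R' a))
          (LocalizedModule.mkLinearMap (Submonoid.powers (algebraMap R R' a)) M.T)).mp
          (congr_fun hm a)
        refine ⟨N, ?_⟩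
        rw [← algebraMap_smul R', map_pow]
        exact hN
      let J : Ideal R := LinearMap.ker (LinearMap.toSpanSingleton R M.T m)
      have h2 : maximalIdeal R ≤ J.radical := by
        rw [← ht]
        refine Submodule.span_le.mpr fun a ha => ?_
        obtain ⟨N, hN⟩ := h1 ⟨a, ha⟩
        exact ⟨N, hN⟩
      obtain ⟨N, hN⟩ := Ideal.exists_pow_le_of_le_radical_of_fg h2 (IsNoetherian.noetherian _)
      exact ⟨N, fun r hr => hN hr⟩
    · rintro ⟨N, hN⟩
      funext a
      refine (IsLocalizedModule.eq_zero_iff (Submonoid.powers (algebraMap R R' a))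
        (LocalizedModule.mkLinearMap (Submonoid.powers (algebraMap R R' a)) M.T)).mpr
        ⟨⟨_, N, rfl⟩, ?_⟩
      change (algebraMap R R' a) ^ N • m = 0
      rw [← map_pow, algebraMap_smul]
      exact hN _ (Ideal.pow_mem_pow (ht ▸ Submodule.subset_span a.2) N)
  · intro L _ _ hL n ξ
    obtain ⟨N, hN⟩ := hL
    have h1 : ∀ (a : t) (η : E R L (Lc a) n), η = 0 := by
      intro a
      refine ext_zero_of_bij ((a : R) ^ N)
        (hN _ (Ideal.pow_mem_pow (ht ▸ Submodule.subset_span a.2) N)) ?_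
      have h2 := (Module.End.isUnit_iff _).mp (IsLocalizedModule.map_units
        (S := Submonoid.powers (algebraMap R R' a))
        (LocalizedModule.mkLinearMap (Submonoid.powers (algebraMap R R' a)) M.T)
        ⟨algebraMap R R' a ^ N, N, rfl⟩)
      have e : (fun x : Lc a => (a : R) ^ N • x) =
          algebraMap R' (Module.End R' (Lc a)) (algebraMap R R' a ^ N) := by
        funext x
        rw [← map_pow, Module.algebraMap_end_apply, algebraMap_smul]
      rw [e]
      exact h2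
    have h3 : (LinearMap.id : (∀ a, Lc a) →ₗ[R] (∀ a, Lc a)) =
        ∑ a, (LinearMap.single R Lc a).comp (LinearMap.proj a) := by
      apply LinearMap.ext
      intro x
      rw [LinearMap.sum_apply]
      exact (Finset.univ_sum_single x).symm
    have h4 : ∀ s : Finset t, ξ.comp
        (m0 (∑ a ∈ s, (LinearMap.single R Lc a).comp (LinearMap.proj a))) (add_zero n) = 0 := by
      intro s
      induction s using Finset.induction_on with
      | empty => rw [Finset.sum_empty, m0_zero, Ext.comp_zero]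
      | insert a s ha ih =>
        rw [Finset.sum_insert ha, m0_add, Ext.comp_add, ih, add_zero, ← comp_m0_comp_m0,
          h1 a (ξ.comp _ _), Ext.zero_comp]
    exact (comp_m0_id ξ).symm.trans (by rw [h3]; exact h4 _)

/-- a chosen step -/
noncomputable def stp (M : Md R R') : Step M := Classical.choice (step_nonempty M)

/-- iterated cosyzygies -/
noncomputable def iter : ℕ → Md R R' → Md R R'
  | 0, M => M
  | s + 1, M => iter s (stp M).N

namespace Step

omit [IsNoetherianRing R]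

variable {M : Md R R'} (S : Step M)

/-- the map to the acyclic module, over `R` -/
def jR : M.T →ₗ[R] S.C.T := S.j.restrictScalars R

/-- the map from the acyclic module, over `R` -/
def bR : S.C.T →ₗ[R] S.N.T := S.b.restrictScalars R

/-- torsion, module, image -/
def s1 : SES R (LinearMap.ker S.jR.rangeRestrict) M.T (LinearMap.range S.jR) :=
  SES.ofSurj _ S.jR.surjective_rangeRestrict

/-- image, acyclic module, cokernel -/
def s2 : SES R (LinearMap.range S.jR) S.C.T S.N.T where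
  f := (LinearMap.range S.jR).subtype
  g := S.bR
  ex := fun y => (S.ex y).trans
    ⟨fun ⟨x, hx⟩ => ⟨⟨y, x, hx⟩, rfl⟩, fun ⟨⟨_, x, hx⟩, hz⟩ => ⟨x, hx.trans hz⟩⟩
  inj := (LinearMap.range S.jR).injective_subtype
  surj := S.surj

lemma tors (t : LinearMap.ker S.jR.rangeRestrict) : t ∈ gam R (LinearMap.ker S.jR.rangeRestrict) := by
  obtain ⟨N, hN⟩ := (S.hj t.1).mp (congrArg Subtype.val t.2)
  exact ⟨N, fun r hr => Subtype.ext (hN r hr)⟩

variable {L : Type u} [AddCommGroup L] [Module R L]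

lemma conn_inj (hL : Sm R L) {n : ℕ} (η : E R L S.N.T n) (h : η.comp S.s2.e rfl = 0) : η = 0 := by
  obtain ⟨y, rfl⟩ := S.s2.co3 rfl η h
  rw [S.acyc L hL n y, Ext.zero_comp]

lemma conn_surj (hL : Sm R L) {n : ℕ} (ξ : E R L M.T (n + 1)) :
    ∃ η : E R L S.N.T n, η.comp S.s2.e rfl = ξ.comp (m0 S.s1.g) (add_zero _) :=
  S.s2.co1 rfl _ (S.acyc L hL _ _)

/-- the comparison map of one step -/
noncomputable def k1 (hL : Sm R L) {n : ℕ} (ξ : E R L M.T (n + 1)) : E R L S.N.T n :=
  (S.conn_surj hL ξ).choose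

lemma k1_spec (hL : Sm R L) {n : ℕ} (ξ : E R L M.T (n + 1)) :
    (S.k1 hL ξ).comp S.s2.e rfl = ξ.comp (m0 S.s1.g) (add_zero _) :=
  (S.conn_surj hL ξ).choose_spec

lemma k1_eq (hL : Sm R L) {n : ℕ} {ξ : E R L M.T (n + 1)} {η : E R L S.N.T n}
    (h : η.comp S.s2.e rfl = ξ.comp (m0 S.s1.g) (add_zero _)) : S.k1 hL ξ = η := by
  rw [← sub_eq_zero]
  apply S.conn_inj hL
  rw [ext_sub_comp, S.k1_spec, h, sub_self]

lemma k1_sub (hL : Sm R L) {n : ℕ} (ξ ξ' : E R L M.T (n + 1)) :
    S.k1 hL (ξ - ξ') = S.k1 hL ξ - S.k1 hL ξ' :=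
  S.k1_eq hL (by rw [ext_sub_comp, ext_sub_comp, S.k1_spec, S.k1_spec])

lemma k1_comp (hL : Sm R L) {L' : Type u} [AddCommGroup L'] [Module R L'] (hL' : Sm R L')
    {a n n' : ℕ} (ω : E R L' L a) (ξ : E R L M.T (n + 1)) (h : a + n = n') :
    S.k1 hL' (ω.comp ξ (by omega : a + (n + 1) = n' + 1)) = ω.comp (S.k1 hL ξ) h := by
  apply S.k1_eq hL'
  rw [Ext.comp_assoc _ _ _ h rfl (by omega), S.k1_spec, Ext.comp_assoc_of_third_deg_zero]

end Step

variable {L : Type u} [AddCommGroup L] [Module R L]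

/-- the comparison map of `s` steps -/
noncomputable def kap (hL : Sm R L) : (s : ℕ) → (M : Md R R') → (m : ℕ) →
    E R L M.T (m + s) → E R L (iter s M).T m
  | 0, _, _, ξ => ξ
  | s + 1, M, m, ξ => kap hL s (stp M).N m ((stp M).k1 hL (n := m + s) ξ)

lemma kap_sub (hL : Sm R L) (s : ℕ) : ∀ (M : Md R R') (m : ℕ) (ξ ξ' : E R L M.T (m + s)),
    kap hL s M m (ξ - ξ') = kap hL s M m ξ - kap hL s M m ξ' := by
  induction s with
  | zero => intro M m ξ ξ'; rfl
  | succ s ih =>
    intro M m ξ ξ'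
    exact (congrArg (kap hL s (stp M).N m) ((stp M).k1_sub hL (n := m + s) ξ ξ')).trans (ih _ _ _ _)

lemma kap_zero (hL : Sm R L) (s : ℕ) (M : Md R R') (m : ℕ) : kap hL s M m 0 = 0 := by
  have := kap_sub hL s M m 0 0
  rwa [sub_self, sub_self] at this

lemma kap_comp (hL : Sm R L) {L' : Type u} [AddCommGroup L'] [Module R L'] (hL' : Sm R L')
    {a : ℕ} (ω : E R L' L a) (s : ℕ) : ∀ (M : Md R R') (m m' : ℕ) (h : a + m = m')
    (ξ : E R L M.T (m + s)),
    kap hL' s M m' (ω.comp ξ (by omega)) = ω.comp (kap hL s M m ξ) h := by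
  induction s with
  | zero => intro M m m' h ξ; rfl
  | succ s ih =>
    intro M m m' h ξ
    exact (congrArg (kap hL' s (stp M).N m')
      ((stp M).k1_comp hL hL' ω (n := m + s) (n' := m' + s) ξ (by omega))).trans (ih _ _ _ h _)

lemma sm_quot {c : Ideal R} (hc : Prim c) : Sm R (R ⧸ c) := sm_of_finiteLength _ (fl_quot hc)

lemma kap_linj (s : ℕ) : ∀ (M : Md R R') (m : ℕ) (c : Ideal R) (hc : Prim c)
    (ξ : E R (R ⧸ c) M.T (m + s)), kap (sm_quot hc) s M m ξ = 0 →
    ∃ (c' : Ideal R) (h : c' ≤ c), Prim c' ∧ (m0 (fac c' c h)).comp ξ (zero_add _) = 0 := by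
  induction s with
  | zero =>
    intro M m c hc ξ hξ
    refine ⟨c, le_rfl, hc, ?_⟩
    rw [show ξ = 0 from hξ, Ext.comp_zero]
  | succ s ih =>
    intro M m c hc ξ hξ
    obtain ⟨c₁, h₁, hc₁, h0⟩ := ih _ m c hc _ hξ
    rw [← (stp M).k1_comp (sm_quot hc) (sm_quot hc₁) _ (n := m + s) ξ (zero_add _)] at h0
    have h2 := (stp M).k1_spec (sm_quot hc₁) (n := m + s)
      ((m0 (fac c₁ c h₁)).comp ξ (zero_add _))
    rw [h0, Ext.zero_comp] at h2
    obtain ⟨γ, hγ⟩ := (stp M).s1.co2 _ h2.symm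
    obtain ⟨c₂, h₂, hc₂, h3⟩ := tors_die (m + s) _ (stp M).tors c₁ hc₁ γ
    refine ⟨c₂, h₂.trans h₁, hc₂, ?_⟩
    rw [← fac_comp c₂ c₁ c h₂ h₁, ← m0_comp_m0_assoc]
    refine (congrArg (fun z => (m0 (fac c₂ c₁ h₂)).comp z (zero_add _)) hγ.symm).trans ?_
    rw [← Ext.comp_assoc_of_third_deg_zero, h3, Ext.zero_comp]

lemma kap_lsurj (s : ℕ) : ∀ (M : Md R R') (m : ℕ) (c : Ideal R) (_ : Prim c)
    (τ : E R (R ⧸ c) (iter s M).T m),
    ∃ (c' : Ideal R) (h : c' ≤ c) (hc' : Prim c') (ξ : E R (R ⧸ c') M.T (m + s)),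
      kap (sm_quot hc') s M m ξ = (m0 (fac c' c h)).comp τ (zero_add _) := by
  induction s with
  | zero =>
    intro M m c hc τ
    exact ⟨c, le_rfl, hc, _, rfl⟩
  | succ s ih =>
    intro M m c hc τ
    obtain ⟨c₁, h₁, hc₁, η, hη⟩ := ih (stp M).N m c hc τ
    obtain ⟨c₂, h₂, hc₂, h3⟩ := tors_die (m + s + 1) _ (stp M).tors c₁ hc₁
      ((η.comp (stp M).s2.e rfl).comp (stp M).s1.e rfl)
    rw [← Ext.comp_assoc _ _ _ (zero_add (m + s + 1)) rfl (by omega)] at h3
    obtain ⟨ξ, hξ⟩ := (stp M).s1.co3 rfl _ h3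
    refine ⟨c₂, h₂.trans h₁, hc₂, ξ, ?_⟩
    have h4 : (stp M).k1 (sm_quot hc₂) (n := m + s) ξ = (m0 (fac c₂ c₁ h₂)).comp η (zero_add _) := by
      apply (stp M).k1_eq
      rw [hξ, Ext.comp_assoc _ _ _ (zero_add (m + s)) rfl (by omega)]
    refine (congrArg (kap (sm_quot hc₂) s (stp M).N m) h4).trans ?_
    rw [kap_comp (sm_quot hc₁) (sm_quot hc₂) _ s _ m m (zero_add m), hη,
      ← fac_comp c₂ c₁ c h₂ h₁]
    exact m0_comp_m0_assoc (fac c₂ c₁ h₂) (fac c₁ c h₁) τ

end Pool.Agent.Lib.MP_c091ab_al
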