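import Pool.Agent.Lib.MP_c091ab_al.Gap3

/-!
Rigidity for the truncation below a gap: if `Ext^s(k, M) = 0` then the comparison maps to the
`s`-th cosyzygy are bijective.
-/

universe u

open CategoryTheory Abelian IsLocalRing

namespace Pool.Agent.Lib.MP_c091ab_al

variable {R R' : Type u} [CommRing R] [CommRing R'] [Algebra R R'] [IsLocalRing R]
  [IsNoetherianRing R]

/-- injectivity of the comparison map -/
def KInj (s : ℕ) (M : Md R R') (m : ℕ) (L : Type u) [AddCommGroup L] [Module R L] : Prop :=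
  ∀ (hL : Sm R L) (ξ : E R L M.T (m + s)), kap hL s M m ξ = 0 → ξ = 0

/-- surjectivity of the comparison map -/
def KSurj (s : ℕ) (M : Md R R') (m : ℕ) (L : Type u) [AddCommGroup L] [Module R L] : Prop :=
  ∀ (hL : Sm R L) (τ : E R L (iter s M).T m), ∃ ξ, kap hL s M m ξ = τ

variable {s : ℕ} {M : Md R R'}

omit [IsNoetherianRing R] in
lemma Sm.of_equiv {L L' : Type u} [AddCommGroup L] [Module R L] [AddCommGroup L'] [Module R L']
    (e : L ≃ₗ[R] L') (h : Sm R L) : Sm R L' := by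
  obtain ⟨N, hN⟩ := h
  refine ⟨N, fun r hr l => ?_⟩
  obtain ⟨l, rfl⟩ := e.surjective l
  rw [← map_smul, hN r hr, map_zero]

lemma KInj.of_equiv {m : ℕ} {L L' : Type u} [AddCommGroup L] [Module R L] [AddCommGroup L']
    [Module R L'] (e : L ≃ₗ[R] L') (h : KInj s M m L) : KInj s M m L' := by
  intro hL' ξ hξ
  have hL := hL'.of_equiv e.symm
  have h1 := h hL ((m0 e.toLinearMap).comp ξ (zero_add _))
    (by rw [kap_comp hL' hL _ s M m m (zero_add m), hξ, Ext.comp_zero])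
  have h2 : e.toLinearMap.comp e.symm.toLinearMap = LinearMap.id := by ext; simp
  rw [← m0_id_comp ξ, ← h2, ← m0_comp_m0_assoc, h1, Ext.comp_zero]

lemma KSurj.of_equiv {m : ℕ} {L L' : Type u} [AddCommGroup L] [Module R L] [AddCommGroup L']
    [Module R L'] (e : L ≃ₗ[R] L') (h : KSurj s M m L) : KSurj s M m L' := by
  intro hL' τ
  have hL := hL'.of_equiv e.symm
  obtain ⟨ξ, hξ⟩ := h hL ((m0 e.toLinearMap).comp τ (zero_add _))
  refine ⟨(m0 e.symm.toLinearMap).comp ξ (zero_add _), ?_⟩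
  have h2 : e.toLinearMap.comp e.symm.toLinearMap = LinearMap.id := by ext; simp
  rw [kap_comp hL hL' _ s M m m (zero_add m), hξ, m0_comp_m0_assoc, h2, m0_id_comp]

lemma devissage {m : ℕ} (h1 : KSurj s M m (R ⧸ maximalIdeal R))
    (h2 : KInj s M (m + 1) (R ⧸ maximalIdeal R)) (L : Type u) [AddCommGroup L] [Module R L]
    (hL : IsFiniteLength R L) : KSurj s M m L ∧ KInj s M (m + 1) L := by
  induction hL with
  | @of_subsingleton L _ _ _ =>
    have := (ModuleCat.isZero_of_subsingleton (ModuleCat.of R L)).hasProjectiveDimensionLT_zero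
    refine ⟨fun hL τ => ⟨0, ?_⟩, fun hL ξ _ => ?_⟩
    · rw [kap_zero]
      exact (τ.eq_zero_of_hasProjectiveDimensionLT 0 (Nat.zero_le _)).symm
    · exact ξ.eq_zero_of_hasProjectiveDimensionLT 0 (Nat.zero_le _)
  | @of_simple_quotient L _ _ N hs hN ih =>
    obtain ⟨I, hI, ⟨e⟩⟩ := isSimpleModule_iff_quot_maximal.mp hs
    obtain rfl := IsLocalRing.eq_maximalIdeal hI
    have q1 := h1.of_equiv e.symm
    have q2 := h2.of_equiv e.symm
    have hA : Sm R N := sm_of_finiteLength _ hN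
    have hC : Sm R (L ⧸ N) := (sm_quot prim_max).of_equiv e.symm
    let S : SES R N L (L ⧸ N) := ⟨N.subtype, N.mkQ, LinearMap.exact_subtype_mkQ N,
      N.injective_subtype, N.mkQ_surjective⟩
    constructor
    · intro hL τ
      obtain ⟨ξ', hξ'⟩ := ih.1 hA ((m0 S.f).comp τ (zero_add _))
      have h3 : S.e.comp ξ' (by omega : 1 + (m + s) = m + 1 + s) = 0 := by
        apply q2 hC
        rw [kap_comp hA hC _ s M m (m + 1) (add_comm 1 m), hξ', S.e_f_comp]
      obtain ⟨ξ, rfl⟩ := S.ct1 _ _ h3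
      rw [kap_comp hL hA _ s M m m (zero_add m)] at hξ'
      obtain ⟨υ, hυ⟩ := S.ct2 (kap hL s M m ξ - τ) (by rw [ext_comp_sub, hξ', sub_self])
      obtain ⟨υ', rfl⟩ := q1 hC υ
      refine ⟨ξ - (m0 S.g).comp υ' (zero_add _), ?_⟩
      rw [kap_sub, kap_comp hC hL _ s M m m (zero_add m), hυ, sub_sub_cancel]
    · intro hL ξ hξ
      have h3 : (m0 S.f).comp ξ (zero_add _) = 0 := by
        apply ih.2 hA
        rw [kap_comp hL hA _ s M (m + 1) (m + 1) (zero_add _), hξ, Ext.comp_zero]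
      obtain ⟨ζ, rfl⟩ := S.ct2 _ h3
      rw [kap_comp hC hL _ s M (m + 1) (m + 1) (zero_add _)] at hξ
      obtain ⟨υ, hυ⟩ := S.ct3 (add_comm 1 m) _ hξ
      obtain ⟨υ', rfl⟩ := ih.1 hA υ
      have h4 : ζ - S.e.comp υ' (by omega : 1 + (m + s) = m + 1 + s) = 0 := by
        apply q2 hC
        rw [kap_sub, kap_comp hA hC _ s M m (m + 1) (add_comm 1 m), hυ, sub_self]
      rw [sub_eq_zero.mp h4, S.g_e_comp]

/-- the sequence `m / c → R / c → k` -/
def cS (c : Ideal R) (h : c ≤ maximalIdeal R) :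
    SES R (LinearMap.ker (fac c _ h)) (R ⧸ c) (R ⧸ maximalIdeal R) :=
  SES.ofSurj _ (fac_surjective c _ h)

lemma step_inj {m : ℕ}
    (hI : ∀ (L : Type u) [AddCommGroup L] [Module R L], IsFiniteLength R L → KInj s M m L) :
    KInj s M (m + 1) (R ⧸ maximalIdeal R) := by
  intro hk ξ hξ
  obtain ⟨c, h, hc, h0⟩ := kap_linj s M (m + 1) _ prim_max ξ hξ
  have hK : Sm R (LinearMap.ker (fac c _ h)) := sm_of_finiteLength _ (fl_sub hc _)
  obtain ⟨η, rfl⟩ := (cS c h).ct3 (by omega : 1 + (m + s) = m + 1 + s) ξ h0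
  rw [kap_comp hK hk _ s M m (m + 1) (add_comm 1 m)] at hξ
  obtain ⟨τ, hτ⟩ := (cS c h).ct1 _ _ hξ
  obtain ⟨c', h', hc', τ', hτ'⟩ := kap_lsurj s M m c hc τ
  have hK' : Sm R (LinearMap.ker (fac c' _ (h'.trans h))) := sm_of_finiteLength _ (fl_sub hc' _)
  let φ : LinearMap.ker (fac c' _ (h'.trans h)) →ₗ[R] LinearMap.ker (fac c _ h) :=
    (fac c' c h').restrict (fun x hx => by
      rw [LinearMap.mem_ker, ← LinearMap.comp_apply, fac_comp]
      exact hx)
  have hφ : (cS c h).f.comp φ = (fac c' c h').comp (cS c' (h'.trans h)).f := rfl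
  have h1 : (m0 φ).comp η (zero_add _) - (m0 (cS c' (h'.trans h)).f).comp τ' (zero_add _) = 0 := by
    apply hI _ (fl_sub hc' _) hK'
    rw [kap_sub, kap_comp hK hK' _ s M m m (zero_add m),
      kap_comp (sm_quot hc') hK' _ s M m m (zero_add m), hτ', ← hτ, m0_comp_m0_assoc,
      m0_comp_m0_assoc, hφ, sub_self]
  have h2 := (cS c' (h'.trans h)).nat (cS c h) φ (fac c' c h') LinearMap.id hφ
    (fac_comp c' c _ h' h)
  rw [m0_id_comp] at h2
  rw [← h2, Ext.comp_assoc_of_second_deg_zero, sub_eq_zero.mp h1, (cS c' _).e_f_comp]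

lemma step_surj {m : ℕ}
    (hI : ∀ (L : Type u) [AddCommGroup L] [Module R L], IsFiniteLength R L → KInj s M m L)
    (hS : ∀ m', m = m' + 1 →
      ∀ (L : Type u) [AddCommGroup L] [Module R L], IsFiniteLength R L → KSurj s M m' L) :
    KSurj s M m (R ⧸ maximalIdeal R) := by
  intro hk τ
  obtain ⟨c, h, hc, τ', hτ'⟩ := kap_lsurj s M m _ prim_max τ
  have hK : Sm R (LinearMap.ker (fac c _ h)) := sm_of_finiteLength _ (fl_sub hc _)
  have h1 : (m0 (cS c h).f).comp τ' (zero_add _) = 0 := by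
    apply hI _ (fl_sub hc _) hK
    rw [kap_comp (sm_quot hc) hK _ s M m m (zero_add m), hτ']
    exact (cS c h).f_g_comp τ
  obtain ⟨ξ, rfl⟩ := (cS c h).ct2 _ h1
  rw [kap_comp hk (sm_quot hc) _ s M m m (zero_add m)] at hτ'
  have h2 : (m0 (cS c h).g).comp (kap hk s M m ξ - τ) (zero_add _) = 0 := by
    rw [ext_comp_sub, hτ']
    exact sub_self _
  cases m with
  | zero => exact ⟨ξ, sub_eq_zero.mp ((cS c h).g_inj0 _ h2)⟩
  | succ m =>
    obtain ⟨υ, hυ⟩ := (cS c h).ct3 (add_comm 1 m) _ h2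
    obtain ⟨υ', rfl⟩ := hS m rfl _ (fl_sub hc _) hK υ
    refine ⟨ξ - (cS c h).e.comp υ' (by omega), ?_⟩
    rw [kap_sub, kap_comp hK hk _ s M m (m + 1) (add_comm 1 m), hυ, sub_sub_cancel]

theorem kap_bij (h : ∀ ξ : E R (R ⧸ maximalIdeal R) M.T s, ξ = 0) (m : ℕ) :
    KInj s M m (R ⧸ maximalIdeal R) ∧ KSurj s M m (R ⧸ maximalIdeal R) := by
  have key : ∀ m : ℕ,
      (∀ (L : Type u) [AddCommGroup L] [Module R L], IsFiniteLength R L → KInj s M m L) ∧
      ∀ m', m = m' + 1 →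
        ∀ (L : Type u) [AddCommGroup L] [Module R L], IsFiniteLength R L → KSurj s M m' L := by
    intro m
    induction m with
    | zero =>
      refine ⟨fun L _ _ hL _ ξ _ => ?_, fun m' hm' => by omega⟩
      have h' : ∀ ξ : E R (R ⧸ maximalIdeal R) M.T (0 + s), ξ = 0 := by
        rw [zero_add]
        exact h
      exact vanish_finiteLength h' L hL ξ
    | succ m ih =>
      have h1 := devissage (step_surj ih.1 ih.2) (step_inj ih.1)
      refine ⟨fun L _ _ hL => (h1 L hL).2, fun m' hm' L _ _ hL => ?_⟩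
      obtain rfl : m = m' := by omega
      exact (h1 L hL).1
  exact ⟨(key m).1 _ (fl_quot prim_max), step_surj (key m).1 (key m).2⟩

end Pool.Agent.Lib.MP_c091ab_al
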