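import Pool.Agent.Lib.MP_c091ab_al.Gap4

/-!
A complex of `R'`-modules computing `Ext_R(k, -)` of the truncation below a gap.
-/

universe u

open CategoryTheory Abelian IsLocalRing

namespace Pool.Agent.Lib.MP_c091ab_al

/-- a module with a differential and a family of homogeneous parts -/
structure DG (R' : Type u) [CommRing R'] where
  V : Type u
  [ag : AddCommGroup V]
  [md : Module R' V]
  D : V →ₗ[R'] V
  DD : ∀ v, D (D v) = 0
  G : ℤ → Submodule R' V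
  hG : ∀ n v, v ∈ G n → D v ∈ G (n + 1)

attribute [instance] DG.ag DG.md

section dg

variable {R' : Type u} [CommRing R']

/-- exactness in degree `n` -/
def DG.Ex (A : DG R') (n : ℤ) : Prop :=
  ∀ v ∈ A.G n, A.D v = 0 → ∃ w ∈ A.G (n - 1), A.D w = v

/-- the fibre of a chain map -/
def DG.cocone (A B : DG R') (f : A.V →ₗ[R'] B.V) (hD : ∀ v, f (A.D v) = B.D (f v))
    (hf : ∀ n v, v ∈ A.G n → f v ∈ B.G n) : DG R' where
  V := A.V × B.V
  D := (A.D.comp (LinearMap.fst R' _ _)).prod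
    (f.comp (LinearMap.fst R' _ _) - B.D.comp (LinearMap.snd R' _ _))
  DD := by
    rintro ⟨a, b⟩
    refine Prod.ext (A.DD a) ?_
    change f (A.D a) - B.D (f a - B.D b) = 0
    rw [hD, map_sub, B.DD, sub_zero, sub_self]
  G n := (A.G n).prod (B.G (n - 1))
  hG := by
    rintro n ⟨a, b⟩ ⟨ha, hb⟩
    refine ⟨A.hG n a ha, ?_⟩
    have h1 := B.hG _ b hb
    rw [sub_add_cancel] at h1
    rw [add_sub_cancel_right]
    exact Submodule.sub_mem _ (hf n a ha) h1

end dg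

variable {R R' : Type u} [CommRing R] [CommRing R'] [Algebra R R'] [IsLocalRing R]
  [IsNoetherianRing R]

/-- the differential on cochains -/
noncomputable def dW {T : Type u} [AddCommGroup T] [Module R T]
    (w : ∀ n, FF R n →ₗ[R] T) : ∀ n, FF R n →ₗ[R] T
  | 0 => 0
  | n + 1 => (w n).comp (dd R n)

/-- cochains on the minimal resolution with values in `M` -/
noncomputable def WW (M : Md R R') : DG R' where
  V := ∀ n, FF R n →ₗ[R] M.T
  D :=
    { toFun := dW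
      map_add' := fun a b => funext fun n => by
        cases n with
        | zero => exact (add_zero _).symm
        | succ n => rfl
      map_smul' := fun a b => funext fun n => by
        cases n with
        | zero => exact (smul_zero (A := FF R 0 →ₗ[R] M.T) a).symm
        | succ n => rfl }
  DD := fun v => funext fun n => by
    match n with
    | 0 => rfl
    | 1 => rfl
    | n + 2 =>
      change ((v n).comp (dd R n)).comp (dd R (n + 1)) = 0
      rw [LinearMap.comp_assoc, dd_dd, LinearMap.comp_zero]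
  G n :=
    { carrier := {w | ∀ b : ℕ, (b : ℤ) ≠ n → w b = 0}
      add_mem' := fun {x y} hx hy b hb => by
        change x b + y b = 0
        rw [hx b hb, hy b hb, add_zero]
      zero_mem' := fun _ _ => rfl
      smul_mem' := fun c x hx b hb => by
        change c • x b = 0
        rw [hx b hb, smul_zero] }
  hG := fun n v hv b hb => by
    cases b with
    | zero => rfl
    | succ b =>
      change (v b).comp (dd R b) = 0
      rw [hv b (by push_cast at hb; omega), LinearMap.zero_comp]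

variable {M N : Md R R'}

lemma WW_D_succ (w : (WW M).V) (n : ℕ) : (WW M).D w (n + 1) = (w n).comp (dd R n) := rfl

/-- a cochain in one degree -/
noncomputable def sgl (b : ℕ) (v : FF R b →ₗ[R] M.T) : (WW M).V :=
  Pi.single (M := fun n => FF R n →ₗ[R] M.T) b v

lemma sgl_same (b : ℕ) (v : FF R b →ₗ[R] M.T) : sgl b v b = v := Pi.single_eq_same _ _

lemma sgl_ne {b c : ℕ} (h : c ≠ b) (v : FF R b →ₗ[R] M.T) : sgl b v c = 0 :=
  Pi.single_eq_of_ne h _

lemma sgl_mem (b : ℕ) (v : FF R b →ₗ[R] M.T) : sgl b v ∈ (WW M).G b :=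
  fun _ hc => sgl_ne (by exact_mod_cast hc) v

lemma W_ext {b : ℕ} {w w' : (WW M).V} (h : w ∈ (WW M).G b) (h' : w' ∈ (WW M).G b)
    (e : w b = w' b) : w = w' := by
  funext c
  by_cases hc : c = b
  · subst hc
    exact e
  · rw [h c (by exact_mod_cast hc), h' c (by exact_mod_cast hc)]

lemma W_neg {n : ℤ} (hn : n < 0) {w : (WW M).V} (h : w ∈ (WW M).G n) : w = 0 :=
  funext fun b => h b (by omega)

lemma W_D_eq_zero {b : ℕ} {w : (WW M).V} (h : w ∈ (WW M).G b) (e : (w b).comp (dd R b) = 0) :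
    (WW M).D w = 0 :=
  W_ext (b := b + 1) (by push_cast; exact (WW M).hG _ _ h) (Submodule.zero_mem _) e

lemma W_rep {w : (WW M).V} (h : (WW M).D w = 0) (b : ℕ) : ∃ ξ, Rep b (w b) ξ :=
  rep_of_cocycle _ (congr_fun h (b + 1))

lemma W_rep_D (w : (WW M).V) (b : ℕ) : Rep b ((WW M).D w b) 0 := by
  cases b with
  | zero => exact rep_zero 0
  | succ b => exact rep_cob _

lemma W_bound {b : ℕ} {w : (WW M).V} (h : w ∈ (WW M).G b) (hr : Rep b (w b) 0) :
    ∃ v ∈ (WW M).G (b - 1), (WW M).D v = w := by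
  cases b with
  | zero =>
    refine ⟨0, Submodule.zero_mem _, ?_⟩
    rw [map_zero]
    exact W_ext (Submodule.zero_mem _) h hr.zero0.symm
  | succ b =>
    obtain ⟨v, hv⟩ := hr.zero_succ
    refine ⟨sgl b v, by simpa using sgl_mem b v, ?_⟩
    refine W_ext (by push_cast; exact (WW M).hG _ _ (sgl_mem b v)) h ?_
    rw [WW_D_succ, sgl_same, hv]

lemma W_ex (h : ∀ (n : ℕ) (ξ : E R (R ⧸ maximalIdeal R) M.T n), ξ = 0) (n : ℤ) : (WW M).Ex n := by
  intro w hw hD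
  rcases lt_or_ge n 0 with hn | hn
  · exact ⟨0, Submodule.zero_mem _, by rw [W_neg hn hw, map_zero]⟩
  · obtain ⟨b, rfl⟩ := Int.eq_ofNat_of_zero_le hn
    obtain ⟨ξ, hξ⟩ := W_rep hD b
    rw [h b ξ] at hξ
    exact W_bound hw hξ

/-- functoriality of cochains -/
noncomputable def Wmap (g : M.T →ₗ[R'] N.T) : (WW M).V →ₗ[R'] (WW N).V where
  toFun w b := (g.restrictScalars R).comp (w b)
  map_add' _ _ := funext fun _ => LinearMap.comp_add _ _ _
  map_smul' c x := funext fun b => LinearMap.ext fun z => map_smul g c (x b z)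

lemma Wmap_D (g : M.T →ₗ[R'] N.T) (w : (WW M).V) :
    Wmap g ((WW M).D w) = (WW N).D (Wmap g w) := by
  funext b
  cases b with
  | zero => exact LinearMap.comp_zero _
  | succ b => rfl

lemma Wmap_G (g : M.T →ₗ[R'] N.T) (n : ℤ) (w : (WW M).V) (h : w ∈ (WW M).G n) :
    Wmap g w ∈ (WW N).G n := by
  intro b hb
  change (g.restrictScalars R).comp (w b) = 0
  rw [h b hb, LinearMap.comp_zero]

lemma sm_k : Sm R (R ⧸ maximalIdeal R) := sm_quot prim_max

/-- a complex of `R'`-modules computing `Ext(k, -)` of the `s`-th cosyzygy, shifted by `s` -/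
structure Model (s : ℕ) (M : Md R R') where
  U : DG R'
  α : (WW M).V →ₗ[R'] U.V
  αD : ∀ v, α ((WW M).D v) = U.D (α v)
  αG : ∀ n v, v ∈ (WW M).G n → α v ∈ U.G n
  cl : (m : ℕ) → U.V → E R (R ⧸ maximalIdeal R) (iter s M).T m → Prop
  u1 : ∀ n : ℤ, n < s → U.Ex n
  u2 : ∀ (m : ℕ) (u : U.V), u ∈ U.G (m + s) → U.D u = 0 → ∃ τ, cl m u τ
  u3 : ∀ (m : ℕ) (u : U.V), cl m u 0 → ∃ v ∈ U.G (m + s - 1), U.D v = u
  u4 : ∀ m u u' τ τ', cl m u τ → cl m u' τ' → cl m (u - u') (τ - τ')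
  u5 : ∀ (m : ℕ) (w : (WW M).V) ξ, w ∈ (WW M).G (m + s) → Rep (m + s) (w (m + s)) ξ →
    cl m (α w) (kap sm_k s M m ξ)
  u6 : ∀ (m : ℕ) v τ, v ∈ U.G (m + s - 1) → cl m (U.D v) τ → τ = 0
  u7 : 0 < s → ∀ w : (WW M).V, (∀ b x, w b x ∈ gam R M.T) → α w = 0

/-- the model with no step -/
noncomputable def model0 (M : Md R R') : Model 0 M where
  U := WW M
  α := LinearMap.id
  αD _ := rfl
  αG _ _ h := h
  cl m u τ := u ∈ (WW M).G m ∧ Rep m (u m) τ
  u1 n hn v hv _ := ⟨0, Submodule.zero_mem _, by rw [W_neg (by simpa using hn) hv, map_zero]⟩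
  u2 m u hu hD := by
    obtain ⟨ξ, hξ⟩ := W_rep hD m
    exact ⟨ξ, by simpa using hu, hξ⟩
  u3 m u h := by simpa using W_bound h.1 h.2
  u4 m u u' τ τ' h h' := ⟨Submodule.sub_mem _ h.1 h'.1, h.2.sub h'.2⟩
  u5 m w ξ hw hr := ⟨by simpa using hw, hr⟩
  u6 m v τ _ h := h.2.unique (W_rep_D v m)
  u7 h := absurd h (lt_irrefl 0)

lemma Step.bj {M : Md R R'} (S : Step M) (w : (WW M).V) : Wmap S.b (Wmap S.j w) = 0 := by
  funext b
  apply LinearMap.ext
  intro x
  exact (S.ex _).mpr ⟨_, rfl⟩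

lemma Step.wex {M : Md R R'} (S : Step M) (n : ℤ) : (WW S.C).Ex n :=
  W_ex (S.acyc _ sm_k) n

/-- the model with one more step -/
noncomputable def modelSucc {s : ℕ} (M : Md R R') (P : Model s (stp M).N) : Model (s + 1) M where
  U := DG.cocone (WW (stp M).C) P.U (P.α.comp (Wmap (stp M).b))
    (fun v => by rw [LinearMap.comp_apply, Wmap_D, P.αD]; rfl)
    (fun n v hv => P.αG n _ (Wmap_G _ n v hv))
  α := (Wmap (stp M).j).prod 0
  αD v := by
    refine Prod.ext (Wmap_D _ v) ?_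
    change (0 : P.U.V) = P.α (Wmap (stp M).b (Wmap (stp M).j v)) - P.U.D 0
    rw [(stp M).bj, map_zero, map_zero, sub_zero]
  αG n v hv := ⟨Wmap_G _ n v hv, Submodule.zero_mem _⟩
  cl m u τ := ∃ c ∈ (WW (stp M).C).G (m + s), (WW (stp M).C).D c = u.1 ∧
    P.cl m (P.α (Wmap (stp M).b c) - u.2) τ
  u1 := by
    rintro n hn ⟨c, u⟩ ⟨hc, hu⟩ hD
    obtain ⟨c', hc', rfl⟩ := (stp M).wex n c hc (congrArg Prod.fst hD)
    have h1 : P.α (Wmap (stp M).b ((WW (stp M).C).D c')) - P.U.D u = 0 := congrArg Prod.snd hD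
    obtain ⟨v, hv, hv'⟩ := P.u1 (n - 1) (by push_cast at hn; omega)
      (P.α (Wmap (stp M).b c') - u) (Submodule.sub_mem _ (P.αG _ _ (Wmap_G _ _ _ hc')) hu)
      (by rw [map_sub, ← P.αD, ← Wmap_D, h1])
    refine ⟨(c', v), ⟨hc', hv⟩, Prod.ext rfl ?_⟩
    change P.α (Wmap (stp M).b c') - P.U.D v = u
    rw [hv', sub_sub_cancel]
  u2 := by
    rintro m ⟨c, u⟩ ⟨hc, hu⟩ hD
    obtain ⟨c', hc', rfl⟩ := (stp M).wex _ c hc (congrArg Prod.fst hD)
    have h1 : P.α (Wmap (stp M).b ((WW (stp M).C).D c')) - P.U.D u = 0 := congrArg Prod.snd hD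
    have e : (m : ℤ) + (s + 1 : ℕ) - 1 = m + s := by push_cast; ring
    rw [e] at hc' hu
    obtain ⟨τ, hτ⟩ := P.u2 m (P.α (Wmap (stp M).b c') - u)
      (Submodule.sub_mem _ (P.αG _ _ (Wmap_G _ _ _ hc')) hu)
      (by rw [map_sub, ← P.αD, ← Wmap_D, h1])
    exact ⟨τ, c', hc', rfl, hτ⟩
  u3 := by
    rintro m ⟨c, u⟩ ⟨c', hc', hD, hcl⟩
    obtain ⟨v, hv, hv'⟩ := P.u3 m _ hcl
    have e : (m : ℤ) + (s + 1 : ℕ) - 1 = m + s := by push_cast; ring
    rw [e]
    refine ⟨(c', v), ⟨hc', hv⟩, Prod.ext hD ?_⟩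
    change P.α (Wmap (stp M).b c') - P.U.D v = u
    rw [hv', sub_sub_cancel]
  u4 := by
    rintro m ⟨c, u⟩ ⟨d, u'⟩ τ τ' ⟨c', hc', hD, hcl⟩ ⟨d', hd', hD', hcl'⟩
    refine ⟨c' - d', Submodule.sub_mem _ hc' hd', by rw [map_sub, hD, hD']; rfl, ?_⟩
    have h1 := P.u4 m _ _ _ _ hcl hcl'
    have e : P.α (Wmap (stp M).b (c' - d')) - (u - u') =
        P.α (Wmap (stp M).b c') - u - (P.α (Wmap (stp M).b d') - u') := by
      rw [map_sub, map_sub]
      abel
    exact e ▸ h1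
  u5 := by
    intro m w ξ hw hr
    have e : (m : ℤ) + (s + 1 : ℕ) - 1 = m + s := by push_cast; ring
    have hD : (WW M).D w = 0 := W_D_eq_zero (b := m + (s + 1)) (by exact_mod_cast hw) hr.cocycle
    obtain ⟨c, hc, hc'⟩ := (stp M).wex _ _ (Wmap_G (stp M).j _ _ hw)
      (by rw [← Wmap_D, hD, map_zero])
    rw [e] at hc
    have h1 : (WW (stp M).N).D (Wmap (stp M).b c) = 0 := by rw [← Wmap_D, hc', (stp M).bj]
    obtain ⟨η, hη⟩ := W_rep h1 (m + s)
    have h2 := Rep.conn (stp M).s2 (v := c (m + s)) hη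
      ((stp M).s1.g.comp (w (m + s + 1))) (congr_fun hc' (m + s + 1)).symm
    have h3 : (stp M).k1 sm_k (n := m + s) ξ = η :=
      (stp M).k1_eq sm_k (h2.unique (hr.map (stp M).s1.g))
    refine ⟨c, hc, hc', ?_⟩
    have h4 := P.u5 m _ η (Wmap_G (stp M).b _ _ hc) hη
    rw [← h3] at h4
    exact (sub_zero (P.α (Wmap (stp M).b c))).symm ▸ h4
  u6 := by
    rintro m ⟨c₀, u₀⟩ τ ⟨hc₀, hu₀⟩ ⟨c', hc', hD, hcl⟩
    have e : (m : ℤ) + (s + 1 : ℕ) - 1 = m + s := by push_cast; ring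
    rw [e] at hc₀ hu₀
    obtain ⟨c'', hc'', h1⟩ := (stp M).wex _ (c' - c₀) (Submodule.sub_mem _ hc' hc₀)
      (by rw [map_sub, hD]; exact sub_self _)
    refine P.u6 m (P.α (Wmap (stp M).b c'') + u₀) τ
      (Submodule.add_mem _ (P.αG _ _ (Wmap_G _ _ _ hc'')) hu₀) ?_
    have e2 : P.U.D (P.α (Wmap (stp M).b c'') + u₀) =
        P.α (Wmap (stp M).b c') - (P.α (Wmap (stp M).b c₀) - P.U.D u₀) := by
      rw [map_add, ← P.αD, ← Wmap_D, h1, map_sub, map_sub]
      abel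
    rw [e2]
    exact hcl
  u7 _ w hw := by
    refine Prod.ext ?_ rfl
    funext b
    apply LinearMap.ext
    intro x
    exact ((stp M).hj _).mpr (hw b x)

lemma model_nonempty (s : ℕ) : ∀ M : Md R R', Nonempty (Model s M) := by
  induction s with
  | zero => exact fun M => ⟨model0 M⟩
  | succ s ih => exact fun M => (ih (stp M).N).map (modelSucc M)

theorem Model.exact {s : ℕ} (P : Model s M) (h : ∀ ξ : E R (R ⧸ maximalIdeal R) M.T s, ξ = 0)
    (n : ℤ) (hn : (s : ℤ) ≤ n) : (DG.cocone (WW M) P.U P.α P.αD P.αG).Ex n := by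
  obtain ⟨m, rfl⟩ : ∃ m : ℕ, n = m + s := ⟨(n - s).toNat, by omega⟩
  rintro ⟨w, u⟩ ⟨hw, hu⟩ hD
  have hD1 : (WW M).D w = 0 := congrArg Prod.fst hD
  have hD2 : P.α w = P.U.D u := sub_eq_zero.mp (congrArg Prod.snd hD)
  obtain ⟨ξ, hξ⟩ := W_rep hD1 (m + s)
  have h1 := P.u5 m w ξ hw hξ
  rw [hD2] at h1
  rw [(kap_bij h m).1 sm_k ξ (P.u6 m u _ hu h1)] at hξ
  obtain ⟨w₀, hw₀, rfl⟩ := W_bound (b := m + s) (by exact_mod_cast hw) hξ
  push_cast at hw₀
  have h2 : P.α w₀ - u ∈ P.U.G (m + s - 1) := Submodule.sub_mem _ (P.αG _ _ hw₀) hu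
  have h3 : P.U.D (P.α w₀ - u) = 0 := by rw [map_sub, ← P.αD, hD2, sub_self]
  cases m with
  | zero =>
    obtain ⟨v, hv, hv'⟩ := P.u1 _ (by omega) _ h2 h3
    refine ⟨(w₀, v), ⟨hw₀, hv⟩, Prod.ext rfl ?_⟩
    change P.α w₀ - P.U.D v = u
    rw [hv', sub_sub_cancel]
  | succ m =>
    have e : ((m + 1 : ℕ) : ℤ) + s - 1 = m + s := by push_cast; ring
    rw [e] at h2 hw₀ ⊢
    obtain ⟨τ, hτ⟩ := P.u2 m _ h2 h3
    obtain ⟨ξ', rfl⟩ := (kap_bij h m).2 sm_k τ
    obtain ⟨w', hw'⟩ := rep_of_class ξ'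
    have h4 : sgl (m + s) w' ∈ (WW M).G (m + s) := by exact_mod_cast sgl_mem (m + s) w'
    have h5 := P.u4 m _ _ _ _ hτ (P.u5 m _ ξ' h4 (by rw [sgl_same]; exact hw'))
    rw [sub_self] at h5
    obtain ⟨v, hv, hv'⟩ := P.u3 m _ h5
    refine ⟨(w₀ - sgl (m + s) w', v), ⟨Submodule.sub_mem _ hw₀ h4, hv⟩, Prod.ext ?_ ?_⟩
    · change (WW M).D (w₀ - sgl (m + s) w') = (WW M).D w₀
      rw [map_sub, W_D_eq_zero (sgl_mem (m + s) w') (by rw [sgl_same]; exact hw'.cocycle), sub_zero]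
    · change P.α (w₀ - sgl (m + s) w') - P.U.D v = u
      rw [hv', map_sub]
      abel

end Pool.Agent.Lib.MP_c091ab_al
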