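import Mathlib

/-!
A bounded complex of finite projective modules (an iterated cone, that is a Koszul complex) in
which cycles lying deep in the adic filtration are boundaries.
-/

universe u

open IsLocalRing

namespace Pool.Agent.Lib.MP_c091ab_al

/-- a bounded complex of finite projective modules starting in degree `lo + 1` with an
augmentation -/
structure KZ (A : Type u) [CommRing A] [IsLocalRing A] (lo : ℤ) where
  Q : ℤ → Type u
  [ag : ∀ r, AddCommGroup (Q r)]
  [md : ∀ r, Module A (Q r)]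
  [fin : ∀ r, Module.Finite A (Q r)]
  [proj : ∀ r, Module.Projective A (Q r)]
  d : ∀ r, Q (r + 1) →ₗ[A] Q r
  dd : ∀ r x, d r (d (r + 1) x) = 0
  hi : ℤ
  low : ∀ r, r ≤ lo → Subsingleton (Q r)
  high : ∀ r, hi + 1 < r → Subsingleton (Q r)
  coaug : Q (hi + 1) →ₗ[A] A
  top : Q (hi + 1)
  coaug_top : coaug top = 1
  d_top : d hi top ∈ (maximalIdeal A • ⊤ : Submodule A (Q hi))
  aug : Q (lo + 1) →ₗ[A] A
  one : Q (lo + 1)
  aug_one : aug one = 1
  aug_d : ∀ x, aug (d (lo + 1) x) ∈ maximalIdeal A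

attribute [instance] KZ.ag KZ.md KZ.fin KZ.proj

variable {A : Type u} [CommRing A] [IsLocalRing A]

/-- a power of `y` kills the homology -/
def KZ.Kill {lo : ℤ} (K : KZ A lo) (y : A) : Prop :=
  ∃ N : ℕ, ∀ r z, K.d r z = 0 → ∃ w, K.d (r + 1) w = y ^ N • z

/-- the ring in one degree -/
def KZ.base (A : Type u) [CommRing A] [IsLocalRing A] (lo : ℤ) : KZ A lo where
  Q r := PLift (r = lo + 1) → A
  d _ := 0
  dd _ _ := rfl
  hi := lo
  low r hr := ⟨fun _ _ => funext fun h => absurd h.down (by omega)⟩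
  high r hr := ⟨fun _ _ => funext fun h => absurd h.down (by omega)⟩
  coaug := LinearMap.proj ⟨rfl⟩
  top := fun _ => 1
  coaug_top := rfl
  d_top := Submodule.zero_mem _
  aug := LinearMap.proj ⟨rfl⟩
  one := fun _ => 1
  aug_one := rfl
  aug_d _ := Ideal.zero_mem _

/-- the cone of multiplication by `y` -/
def KZ.cone {lo : ℤ} (K : KZ A (lo + 1)) (y : A) (hy : y ∈ maximalIdeal A) : KZ A lo where
  Q r := K.Q (r + 1) × K.Q r
  d r := ((K.d (r + 1)).comp (LinearMap.fst A _ _) + y • LinearMap.snd A _ _).prod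
    (-(K.d r).comp (LinearMap.snd A _ _))
  dd := by
    rintro r ⟨a, b⟩
    refine Prod.ext ?_ ?_
    · change K.d (r + 1) (K.d (r + 1 + 1) a + y • b) + y • (-K.d (r + 1) b) = 0
      rw [map_add, K.dd, map_smul, zero_add, smul_neg, add_neg_cancel]
    · change -K.d r (-K.d (r + 1) b) = 0
      rw [map_neg, K.dd, neg_zero, neg_zero]
  hi := K.hi
  low r hr := by
    have := K.low (r + 1) (by omega)
    have := K.low r (by omega)
    infer_instance
  high r hr := by
    have := K.high (r + 1) (by omega)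
    have := K.high r (by omega)
    infer_instance
  coaug := K.coaug.comp (LinearMap.snd A _ _)
  top := (0, K.top)
  coaug_top := K.coaug_top
  d_top := by
    have e : ((K.d (K.hi + 1) 0 + y • K.top, -K.d K.hi K.top) : K.Q (K.hi + 1) × K.Q K.hi) =
        y • (K.top, 0) - LinearMap.inr A _ _ (K.d K.hi K.top) := by
      simp
    change (K.d (K.hi + 1) 0 + y • K.top, -K.d K.hi K.top) ∈ _
    rw [e]
    refine Submodule.sub_mem _ (Submodule.smul_mem_smul hy Submodule.mem_top) ?_
    refine Submodule.smul_induction_on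
      (p := fun z => LinearMap.inr A (K.Q (K.hi + 1)) (K.Q K.hi) z ∈
        (maximalIdeal A • ⊤ : Submodule A (K.Q (K.hi + 1) × K.Q K.hi))) K.d_top ?_ ?_
    · intro a ha z _
      rw [map_smul]
      exact Submodule.smul_mem_smul ha Submodule.mem_top
    · intro a b ha hb
      rw [map_add]
      exact Submodule.add_mem _ ha hb
  aug := K.aug.comp (LinearMap.fst A _ _)
  one := (K.one, 0)
  aug_one := K.aug_one
  aug_d := by
    rintro ⟨a, b⟩
    change K.aug (K.d (lo + 1 + 1) a + y • b) ∈ _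
    rw [map_add, map_smul]
    exact Ideal.add_mem _ (K.aug_d a) (Ideal.mul_mem_right _ _ hy)

lemma KZ.cone_kill_self {lo : ℤ} (K : KZ A (lo + 1)) (y : A) (hy : y ∈ maximalIdeal A) :
    (K.cone y hy).Kill y := by
  refine ⟨1, ?_⟩
  rintro r ⟨a, b⟩ hz
  have h1 : K.d (r + 1) a + y • b = 0 := congrArg Prod.fst hz
  refine ⟨(0, a), Prod.ext ?_ ?_⟩
  · change K.d (r + 1 + 1) 0 + y • a = y ^ 1 • a
    rw [map_zero, zero_add, pow_one]
  · change -K.d (r + 1) a = y ^ 1 • b
    rw [pow_one, neg_eq_iff_add_eq_zero, h1]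

lemma KZ.cone_kill {lo : ℤ} (K : KZ A (lo + 1)) (y : A) (hy : y ∈ maximalIdeal A) {x : A}
    (hx : K.Kill x) : (K.cone y hy).Kill x := by
  obtain ⟨N, hN⟩ := hx
  refine ⟨N + N, ?_⟩
  rintro r ⟨a, b⟩ hz
  have h1 : K.d (r + 1) a + y • b = 0 := congrArg Prod.fst hz
  have h2 : K.d r b = 0 := neg_eq_zero.mp (congrArg Prod.snd hz)
  obtain ⟨b', hb'⟩ := hN r b h2
  obtain ⟨a', ha'⟩ := hN (r + 1) (x ^ N • a + y • b') (by
    rw [map_add, map_smul, map_smul, hb', smul_comm y, ← smul_add, h1, smul_zero])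
  refine ⟨(a', -(x ^ N • b')), Prod.ext ?_ ?_⟩
  · change K.d (r + 1 + 1) a' + y • (-(x ^ N • b')) = x ^ (N + N) • a
    rw [ha', smul_add, smul_neg, smul_comm y, add_neg_cancel_right, smul_smul, pow_add]
  · change -K.d (r + 1) (-(x ^ N • b')) = x ^ (N + N) • b
    rw [map_neg, neg_neg, map_smul, hb', smul_smul, pow_add]

lemma exists_kz_kill (ys : List A) (hys : ∀ y ∈ ys, y ∈ maximalIdeal A) :
    ∀ lo : ℤ, ∃ K : KZ A lo, ∀ y ∈ ys, K.Kill y := by
  induction ys with
  | nil => exact fun lo => ⟨KZ.base A lo, by simp⟩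
  | cons y ys ih =>
    intro lo
    obtain ⟨K, hK⟩ := ih (fun z hz => hys z (List.mem_cons_of_mem _ hz)) (lo + 1)
    refine ⟨K.cone y (hys y (by simp)), fun z hz => ?_⟩
    rcases List.mem_cons.mp hz with rfl | hz
    · exact K.cone_kill_self _ _
    · exact K.cone_kill _ _ (hK z hz)

variable (A) in
theorem exists_kz_pow [IsNoetherianRing A] : ∃ K : KZ A 0, ∀ r, ∃ N : ℕ,
    ∀ x ∈ maximalIdeal A ^ N, ∀ z, K.d r z = 0 → x • z ∈ LinearMap.range (K.d (r + 1)) := by
  obtain ⟨t, ht⟩ := IsNoetherian.noetherian (maximalIdeal A)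
  obtain ⟨K, hK⟩ := exists_kz_kill t.toList
    (fun y hy => ht ▸ Submodule.subset_span (by simpa using hy)) 0
  refine ⟨K, fun r => ?_⟩
  · let J : Ideal A :=
      { carrier := {x | ∀ z, K.d r z = 0 → x • z ∈ LinearMap.range (K.d (r + 1))}
        add_mem' := fun {a b} ha hb z hz => by
          rw [add_smul]
          exact Submodule.add_mem _ (ha z hz) (hb z hz)
        zero_mem' := fun z _ => by
          rw [zero_smul]
          exact Submodule.zero_mem _
        smul_mem' := fun c a ha z hz => by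
          rw [smul_assoc]
          exact Submodule.smul_mem _ _ (ha z hz) }
    have h2 : maximalIdeal A ≤ J.radical := by
      rw [← ht]
      refine Submodule.span_le.mpr fun a ha => ?_
      obtain ⟨N, hN⟩ := hK a (by simpa using ha)
      exact ⟨N, fun z hz => hN r z hz⟩
    obtain ⟨N, hN⟩ := Ideal.exists_pow_le_of_le_radical_of_fg h2 (IsNoetherian.noetherian _)
    exact ⟨N, fun x hx => hN hx⟩

variable (A) in
theorem exists_kz [IsNoetherianRing A] : ∃ (K : KZ A 0) (c : ℕ), ∀ r z, K.d r z = 0 →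
    z ∈ (maximalIdeal A ^ c • ⊤ : Submodule A (K.Q (r + 1))) → ∃ w, K.d (r + 1) w = z := by
  obtain ⟨K, hK⟩ := exists_kz_pow A
  have h1 : ∀ r, ∃ c : ℕ, ∀ z, K.d r z = 0 →
      z ∈ (maximalIdeal A ^ c • ⊤ : Submodule A (K.Q (r + 1))) → ∃ w, K.d (r + 1) w = z := by
    intro r
    obtain ⟨N, hN⟩ := hK r
    obtain ⟨k, hk⟩ := (maximalIdeal A).exists_pow_inf_eq_pow_smul (LinearMap.ker (K.d r))
    refine ⟨N + k, fun z hz hz' => ?_⟩
    have h3 : z ∈ (maximalIdeal A ^ (N + k) • ⊤ ⊓ LinearMap.ker (K.d r) :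
        Submodule A (K.Q (r + 1))) := ⟨hz', hz⟩
    rw [hk (N + k) (by omega), Nat.add_sub_cancel] at h3
    refine Submodule.smul_induction_on (p := fun z => z ∈ LinearMap.range (K.d (r + 1))) h3 ?_ ?_
    · intro x hx y hy
      exact hN x hx y hy.2
    · intro x y hx hy
      exact Submodule.add_mem _ hx hy
  choose c hc using h1
  refine ⟨K, (Finset.Icc 0 K.hi).sup c, fun r z hz hz' => ?_⟩
  by_cases hr : r ∈ Finset.Icc 0 K.hi
  · exact hc r z hz (Submodule.smul_mono_left (Ideal.pow_le_pow_right (Finset.le_sup hr)) hz')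
  · have : Subsingleton (K.Q (r + 1)) := by
      rw [Finset.mem_Icc] at hr
      rcases lt_or_ge r 0 with h | h
      · exact K.low _ (by omega)
      · exact K.high _ (by omega)
    exact ⟨0, Subsingleton.elim _ _⟩

end Pool.Agent.Lib.MP_c091ab_al
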