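import Pool.Agent.Lib.MP_c091ab_al.Gap5
import Pool.Agent.Lib.MP_c091ab_al.Gap6

/-!
The staircase argument, and the theorem: a gap in the Bass numbers of a module over a deep
extension kills `Ext(k, k)` in some degree.
-/

universe u

open CategoryTheory Abelian IsLocalRing

namespace Pool.Agent.Lib.MP_c091ab_al

variable {R R' : Type u} [CommRing R] [CommRing R'] [Algebra R R'] [IsLocalRing R]
  [IsNoetherianRing R] [IsLocalRing R']

omit [IsLocalRing R] [IsNoetherianRing R] in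
lemma lin_expand {n : ℕ} {T : Type u} [AddCommGroup T] [Module R T] (f : (Fin n → R) →ₗ[R] T)
    (x : Fin n → R) : f x = ∑ u, x u • f (Pi.single u 1) := by
  conv_lhs => rw [pi_eq_sum_univ' x]
  rw [map_sum]
  exact Finset.sum_congr rfl fun u _ => map_smul f _ _

theorem staircase (K : KZ R' 0) (c : ℕ)
    (hK : ∀ r z, K.d r z = 0 → z ∈ (maximalIdeal R' ^ c • ⊤ : Submodule R' (K.Q (r + 1))) →
      ∃ w, K.d (r + 1) w = z)
    (hc : ∀ x ∈ maximalIdeal R, algebraMap R R' x ∈ maximalIdeal R' ^ c)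
    (M : Md R R') (V : DG R') (ρ : V.V →ₗ[R'] (WW M).V) (hρ : ∀ v, ρ (V.D v) = (WW M).D (ρ v))
    (s : ℕ) (hV : ∀ n : ℤ, (s : ℤ) ≤ n → V.Ex n) (a : ℕ) (u₀ : Fin (syz R a).rk) (c₀ : V.V)
    (hc₀ : c₀ ∈ V.G a) (hD : V.D c₀ = 0) (hm : ∀ y ∈ maximalIdeal R', y • c₀ = 0) (n : ℕ) :
    ∀ b : ℕ, n + b = a → s ≤ b → ∃ r : ℤ, r = n ∧
      ∃ (ζ : Fin (syz R b).rk → K.Q (r + 1)) (t : K.Q (r + 1) →ₗ[R'] V.V),
        (∀ q, t q ∈ V.G b) ∧ (∀ q, V.D (t q) = 0) ∧ (∀ x, t (K.d (r + 1) x) = 0) ∧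
        (∀ l : FF R b →ₗ[R] R, l.comp (dd R b) = 0 →
          K.d r (∑ w, algebraMap R R' (l (Pi.single w 1)) • ζ w) = 0) ∧
        ∑ w, ρ (t (ζ w)) b (Pi.single w 1) = ρ c₀ a (Pi.single u₀ 1) := by
  induction n with
  | zero =>
    intro b hb _
    obtain rfl : b = a := by omega
    refine ⟨0, rfl, Pi.single u₀ K.one, (LinearMap.toSpanSingleton R' V.V c₀).comp K.aug,
      fun q => Submodule.smul_mem _ _ hc₀, fun q => ?_, fun x => hm _ (K.aug_d x),
      fun l _ => ?_, ?_⟩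
    · change V.D (K.aug q • c₀) = 0
      rw [map_smul, hD, smul_zero]
    · have := K.low 0 le_rfl
      exact Subsingleton.elim _ _
    · rw [Finset.sum_eq_single u₀]
      · rw [Pi.single_eq_same]
        change ρ (K.aug K.one • c₀) b _ = _
        rw [K.aug_one, one_smul]
      · intro w _ hw
        rw [Pi.single_eq_of_ne hw, map_zero, map_zero]
        rfl
      · intro h
        exact absurd (Finset.mem_univ _) h
  | succ n ih =>
    intro b hb hs
    obtain ⟨r, hr, ζ, t, ht1, ht2, ht3, hζ, hsum⟩ := ih (b + 1) (by omega) (by omega)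
    have h1 : ∀ u : Fin (syz R b).rk, ∃ z, K.d (r + 1) z =
        ∑ w, algebraMap R R' (dd R b (Pi.single w 1) u) • ζ w := by
      intro u
      refine hK r _ (hζ ((LinearMap.proj u).comp (dd R b)) ?_) ?_
      · rw [LinearMap.comp_assoc, dd_dd, LinearMap.comp_zero]
      · exact Submodule.sum_mem _ fun w _ =>
          Submodule.smul_mem_smul (hc _ (dd_entry b _ u)) Submodule.mem_top
    choose ζ' hζ' using h1
    let Z : Submodule R' V.V := V.G (b + 1) ⊓ LinearMap.ker V.D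
    let f : V.G b →ₗ[R'] Z := LinearMap.codRestrict Z (V.D.comp (V.G b).subtype)
      (fun v => ⟨V.hG _ _ v.2, V.DD _⟩)
    have hf : Function.Surjective f := by
      rintro ⟨v, hv, hv'⟩
      obtain ⟨w, hw, hw'⟩ := hV (b + 1) (by omega) v hv hv'
      rw [add_sub_cancel_right] at hw
      exact ⟨⟨w, hw⟩, Subtype.ext hw'⟩
    obtain ⟨h', hh'⟩ := Module.projective_lifting_property f
      (LinearMap.codRestrict Z t (fun q => ⟨by exact_mod_cast ht1 q, ht2 q⟩)) hf
    let h : K.Q (r + 1) →ₗ[R'] V.V := (V.G b).subtype.comp h'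
    have hh : ∀ q, V.D (h q) = t q := fun q => congrArg Subtype.val (LinearMap.congr_fun hh' q)
    refine ⟨r + 1, by push_cast; omega, ζ', h.comp (K.d (r + 1)), fun q => (h' _).2,
      fun q => ?_, fun x => ?_, fun l hl => ?_, ?_⟩
    · rw [LinearMap.comp_apply, hh, ht3]
    · rw [LinearMap.comp_apply, K.dd, map_zero]
    · rw [map_sum]
      simp only [map_smul, hζ', Finset.smul_sum, smul_smul]
      rw [Finset.sum_comm]
      refine Finset.sum_eq_zero fun w _ => ?_
      have e := lin_expand l (dd R b (Pi.single w 1))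
      rw [show l (dd R b (Pi.single w 1)) = 0 from LinearMap.congr_fun hl _] at e
      rw [← Finset.sum_smul]
      have e2 : ∑ u, algebraMap R R' (l (Pi.single u 1)) *
          algebraMap R R' (dd R b (Pi.single w 1) u) = 0 := by
        rw [← map_zero (algebraMap R R'), e, map_sum]
        exact Finset.sum_congr rfl fun u _ => by rw [smul_eq_mul, map_mul, mul_comm]
      rw [e2, zero_smul]
    · rw [← hsum]
      have e1 : ∀ u : Fin (syz R b).rk, ρ ((h.comp (K.d (r + 1))) (ζ' u)) b (Pi.single u 1) =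
          ∑ w, dd R b (Pi.single w 1) u • ρ (h (ζ w)) b (Pi.single u 1) := by
        intro u
        let ev : (WW M).V →ₗ[R'] M.T :=
          { toFun := fun w => w b (Pi.single u 1)
            map_add' := fun _ _ => rfl
            map_smul' := fun _ _ => rfl }
        change ev (ρ (h (K.d (r + 1) (ζ' u)))) = _
        rw [hζ', map_sum, map_sum, map_sum]
        refine Finset.sum_congr rfl fun w _ => ?_
        rw [map_smul, map_smul, map_smul, algebraMap_smul]
        rfl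
      rw [Finset.sum_congr rfl fun u _ => e1 u, Finset.sum_comm]
      refine Finset.sum_congr rfl fun w _ => ?_
      rw [← hh, hρ, WW_D_succ, LinearMap.comp_apply]
      exact (lin_expand _ _).symm

theorem gap_socle (K : KZ R' 0) (c : ℕ)
    (hK : ∀ r z, K.d r z = 0 → z ∈ (maximalIdeal R' ^ c • ⊤ : Submodule R' (K.Q (r + 1))) →
      ∃ w, K.d (r + 1) w = z)
    (hc : ∀ x ∈ maximalIdeal R, algebraMap R R' x ∈ maximalIdeal R' ^ c)
    (hc' : ∀ x ∈ maximalIdeal R, algebraMap R R' x ∈ maximalIdeal R')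
    (M : Md R R') (s₀ : M.T) (hs₀ : s₀ ≠ 0) (hm : ∀ y ∈ maximalIdeal R', y • s₀ = 0)
    (s : ℕ) (hs : 0 < s) (h : ∀ ξ : E R (R ⧸ maximalIdeal R) M.T s, ξ = 0) :
    ∃ a, (syz R a).rk = 0 := by
  obtain ⟨P⟩ := model_nonempty s M
  refine ⟨(K.hi + 1).toNat + s, ?_⟩
  by_contra hne
  let u₀ : Fin (syz R ((K.hi + 1).toNat + s)).rk := ⟨0, Nat.pos_of_ne_zero hne⟩
  let w₀ : FF R ((K.hi + 1).toNat + s) →ₗ[R] M.T :=
    (LinearMap.toSpanSingleton R M.T s₀).comp (LinearMap.proj u₀)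
  have hmR : ∀ x ∈ maximalIdeal R, x • s₀ = 0 := fun x hx => by
    rw [← algebraMap_smul R', hm _ (hc' x hx)]
  have hval : ∀ (b : ℕ) (x : FF R b), ∃ r : R, sgl (M := M) _ w₀ b x = r • s₀ := by
    intro b x
    by_cases hb : b = (K.hi + 1).toNat + s
    · subst hb
      rw [sgl_same]
      exact ⟨x u₀, rfl⟩
    · rw [sgl_ne hb]
      exact ⟨0, (zero_smul R s₀).symm⟩
  obtain ⟨r, hr, ζ, t, -, -, -, -, hsum⟩ := staircase K c hK hc M
    (DG.cocone (WW M) P.U P.α P.αD P.αG) (LinearMap.fst R' _ _) (fun _ => rfl) s (P.exact h)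
    ((K.hi + 1).toNat + s) u₀ (sgl _ w₀, 0) ⟨sgl_mem _ w₀, Submodule.zero_mem _⟩
    (by
      refine Prod.ext (W_D_eq_zero (w := sgl _ w₀) (sgl_mem _ w₀) ?_) ?_
      · rw [sgl_same]
        apply LinearMap.ext
        intro x
        exact hmR _ (dd_entry _ x u₀)
      · change P.α (sgl _ w₀) - P.U.D 0 = 0
        rw [map_zero, sub_zero]
        refine P.u7 hs _ fun b x => ?_
        obtain ⟨r, hr⟩ := hval b x
        rw [hr]
        exact Submodule.smul_mem _ _ ⟨1, fun y hy => hmR y (by simpa using hy)⟩)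
    (by
      intro y hy
      refine Prod.ext ?_ (smul_zero y)
      funext b
      apply LinearMap.ext
      intro x
      obtain ⟨r, hr⟩ := hval b x
      change y • sgl (M := M) _ w₀ b x = 0
      rw [hr, smul_comm, hm y hy, smul_zero])
    (K.hi + 1).toNat s rfl le_rfl
  have := K.high (r + 1) (by omega)
  apply hs₀
  have e1 : sgl (M := M) _ w₀ ((K.hi + 1).toNat + s) (Pi.single u₀ 1) = s₀ := by
    rw [sgl_same]
    change (Pi.single u₀ (1 : R) : FF R _) u₀ • s₀ = s₀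
    rw [Pi.single_eq_same, one_smul]
  refine e1.symm.trans (hsum.symm.trans (Finset.sum_eq_zero fun w _ => ?_))
  rw [Subsingleton.elim (ζ w) 0, map_zero, map_zero]
  rfl

omit [IsNoetherianRing R] in
lemma exists_socle [IsNoetherianRing R']
    (hr : maximalIdeal R' ≤ ((maximalIdeal R).map (algebraMap R R')).radical) (M : Md R R')
    (x : M.T) (hx : x ≠ 0) (hx' : x ∈ gam R M.T) :
    ∃ s₀ : M.T, s₀ ≠ 0 ∧ ∀ y ∈ maximalIdeal R', y • s₀ = 0 := by
  have key : ∀ (N : ℕ) (x : M.T), x ≠ 0 → (∀ y ∈ maximalIdeal R' ^ N, y • x = 0) →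
      ∃ s₀ : M.T, s₀ ≠ 0 ∧ ∀ y ∈ maximalIdeal R', y • s₀ = 0 := by
    intro N
    induction N with
    | zero => exact fun x hx h => absurd (by simpa using h 1 (by simp)) hx
    | succ N ih =>
      intro x hx h
      by_cases h1 : ∀ y ∈ maximalIdeal R', y • x = 0
      · exact ⟨x, hx, h1⟩
      · push Not at h1
        obtain ⟨y, hy, hy'⟩ := h1
        refine ih (y • x) hy' fun z hz => ?_
        rw [smul_smul]
        exact h _ (by rw [pow_succ]; exact Ideal.mul_mem_mul hz hy)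
  obtain ⟨N, hN⟩ := hx'
  obtain ⟨N', hN'⟩ := Ideal.exists_pow_le_of_le_radical_of_fg hr (IsNoetherian.noetherian _)
  refine key (N' * N) x hx fun y hy => ?_
  have h1 : ((maximalIdeal R).map (algebraMap R R')) ^ N ≤
      LinearMap.ker (LinearMap.toSpanSingleton R' M.T x) := by
    rw [← Ideal.map_pow, Ideal.map_le_iff_le_comap]
    intro r hr
    change algebraMap R R' r • x = 0
    rw [algebraMap_smul]
    exact hN r hr
  rw [pow_mul] at hy
  exact h1 (Ideal.pow_right_mono hN' N hy)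

variable (R') in
/-- No gaps: over a sufficiently deep extension a vanishing Bass number above a nonvanishing one
kills `Ext(k, k)` in some degree. -/
theorem gap_main [IsNoetherianRing R'] : ∃ c : ℕ, ∀ (R : Type u) [CommRing R] [IsLocalRing R]
    [IsNoetherianRing R] [Algebra R R'],
    (∀ x ∈ maximalIdeal R, algebraMap R R' x ∈ maximalIdeal R' ^ (c + 1)) →
    maximalIdeal R' ≤ ((maximalIdeal R).map (algebraMap R R')).radical →
    ∀ (j s : ℕ) (M : Md R R'), 0 < s → (∃ ξ : E R (R ⧸ maximalIdeal R) M.T j, ξ ≠ 0) →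
      (∀ ξ : E R (R ⧸ maximalIdeal R) M.T (s + j), ξ = 0) →
      ∃ a, ∀ ξ : E R (R ⧸ maximalIdeal R) (R ⧸ maximalIdeal R) a, ξ = 0 := by
  obtain ⟨K, c, hK⟩ := exists_kz R'
  refine ⟨c, fun R _ _ _ _ hc hr j s => ?_⟩
  have tor : ∀ (M : Md R R') (n : ℕ), 0 < n → (∃ x : M.T, x ≠ 0 ∧ x ∈ gam R M.T) →
      (∀ ξ : E R (R ⧸ maximalIdeal R) M.T n, ξ = 0) →
      ∃ a, ∀ ξ : E R (R ⧸ maximalIdeal R) (R ⧸ maximalIdeal R) a, ξ = 0 := by
    rintro M n hn ⟨x, hx, hx'⟩ h
    obtain ⟨s₀, hs₀, hm⟩ := exists_socle hr M x hx hx'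
    obtain ⟨a, ha⟩ := gap_socle K c hK
      (fun x hx => Ideal.pow_le_pow_right (Nat.le_succ c) (hc x hx))
      (fun x hx => Ideal.pow_le_self (Nat.succ_ne_zero c) (hc x hx)) M s₀ hs₀ hm n hn h
    exact ⟨a, ext_zero_of_rk a ha⟩
  induction j with
  | zero =>
    rintro M hs ⟨ξ, hξ⟩ h
    refine tor M _ hs ?_ h
    obtain ⟨f, rfl⟩ := exists_m0 ξ
    refine ⟨f 1, fun h0 => hξ ((m0_eq_zero_iff f).mpr (quot_ext fun r => ?_)), 1, fun r hr => ?_⟩
    · have : Ideal.Quotient.mk (maximalIdeal R) r = r • (1 : R ⧸ maximalIdeal R) := by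
        change _ = Ideal.Quotient.mk _ (r * 1)
        rw [mul_one]
      rw [this, map_smul, h0, smul_zero, LinearMap.zero_apply]
    · have : r • (1 : R ⧸ maximalIdeal R) = 0 := by
        change Ideal.Quotient.mk _ (r * 1) = 0
        rw [mul_one]
        exact Ideal.Quotient.eq_zero_iff_mem.mpr (by simpa using hr)
      rw [← map_smul, this, map_zero]
  | succ j ih =>
    rintro M hs ⟨ξ, hξ⟩ h
    by_cases ht : ∃ x : M.T, x ≠ 0 ∧ x ∈ gam R M.T
    · exact tor M _ (by omega) ht h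
    have hsub : Subsingleton (LinearMap.ker (stp M).jR.rangeRestrict) := by
      have h0 : ∀ x : LinearMap.ker (stp M).jR.rangeRestrict, x = 0 := by
        intro x
        by_contra hx
        exact ht ⟨x.1, fun h1 => hx (Subtype.ext h1),
          ((stp M).hj x.1).mp (congrArg Subtype.val x.2)⟩
      exact ⟨fun a b => by rw [h0 a, h0 b]⟩
    have hz : ∀ (n : ℕ) (γ : E R (R ⧸ maximalIdeal R) (LinearMap.ker (stp M).jR.rangeRestrict) n),
        γ = 0 := by
      intro n γ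
      have e : (LinearMap.id : LinearMap.ker (stp M).jR.rangeRestrict →ₗ[R] _) = 0 :=
        LinearMap.ext fun _ => Subsingleton.elim _ _
      rw [← comp_m0_id γ, e, m0_zero, Ext.comp_zero]
    refine ih (stp M).N hs ⟨(stp M).k1 sm_k ξ, fun h0 => hξ ?_⟩ fun η => ?_
    · have h1 := (stp M).k1_spec sm_k ξ
      rw [h0, Ext.zero_comp] at h1
      obtain ⟨γ, rfl⟩ := (stp M).s1.co2 _ h1.symm
      rw [hz _ γ, Ext.zero_comp]
    · obtain ⟨ζ, hζ⟩ := (stp M).s1.co3 rfl (η.comp (stp M).s2.e rfl) (hz _ _)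
      apply (stp M).conn_inj sm_k
      rw [← hζ, h ζ, Ext.zero_comp]

end Pool.Agent.Lib.MP_c091ab_al
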