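import Pool.Agent.Lib.MP_c091ab_al.Gap7

/-!
A module `M` with `m M ≠ M` has a nonzero Bass number; the gap theorem for modules over a
perfect algebra.
-/

universe u

open CategoryTheory Abelian IsLocalRing

namespace Pool.Agent.Lib.MP_c091ab_al

variable {R : Type u} [CommRing R] [IsLocalRing R] [IsNoetherianRing R]

lemma fl_of_sm (L : Type u) [AddCommGroup L] [Module R L] [Module.Finite R L] (h : Sm R L) :
    IsFiniteLength R L := by
  obtain ⟨N, hN⟩ := h
  obtain ⟨n, g, hg⟩ := Module.Finite.exists_fin (R := R) (M := L)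
  obtain ⟨_, _⟩ := isFiniteLength_iff_isNoetherian_isArtinian.mp
    (fl_quot (R := R) (c := maximalIdeal R ^ N) ⟨N, le_rfl⟩)
  let f : (Fin n → R ⧸ maximalIdeal R ^ N) →ₗ[R] L :=
    ∑ i, (Submodule.liftQ (maximalIdeal R ^ N) (LinearMap.toSpanSingleton R L (g i))
      (fun r hr => hN r hr (g i))).comp (LinearMap.proj i)
  have hf : Function.Surjective f := by
    intro l
    have : l ∈ Submodule.span R (Set.range g) := hg ▸ Submodule.mem_top
    obtain ⟨a, rfl⟩ := (Submodule.mem_span_range_iff_exists_fun R).mp this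
    refine ⟨fun i => Submodule.Quotient.mk (a i), ?_⟩
    rw [LinearMap.sum_apply]
    rfl
  exact isFiniteLength_iff_isNoetherian_isArtinian.mpr
    ⟨inferInstance, isArtinian_of_surjective _ f hf⟩

theorem smul_top_of_ext (M : Type u) [AddCommGroup M] [Module R M]
    (h : ∀ (j : ℕ) (ξ : E R (R ⧸ maximalIdeal R) M j), ξ = 0) :
    (maximalIdeal R • ⊤ : Submodule R M) = ⊤ := by
  obtain ⟨K, hK⟩ := exists_kz_pow R
  have key : ∀ n : ℕ, ∀ r : ℤ, r + 1 = n →
      (∀ (j : ℕ) (ξ : E R (K.Q (r + 1) ⧸ LinearMap.range (K.d (r + 1))) M (j + 1)), ξ = 0) ∧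
      ∀ f : K.Q (r + 1) →ₗ[R] M, f.comp (K.d (r + 1)) = 0 →
        ∃ g : K.Q r →ₗ[R] M, g.comp (K.d r) = f := by
    have step : ∀ r : ℤ,
        (∀ (j : ℕ) (ξ : E R (K.Q r ⧸ LinearMap.range (K.d r)) M (j + 1)), ξ = 0) →
        (∀ (j : ℕ) (ξ : E R (K.Q (r + 1) ⧸ LinearMap.range (K.d (r + 1))) M (j + 1)), ξ = 0) ∧
        ∀ f : K.Q (r + 1) →ₗ[R] M, f.comp (K.d (r + 1)) = 0 →
          ∃ g : K.Q r →ₗ[R] M, g.comp (K.d r) = f := by
      intro r ih
      let π : (K.Q (r + 1) ⧸ LinearMap.range (K.d (r + 1))) →ₗ[R] LinearMap.range (K.d r) :=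
        Submodule.liftQ _ (K.d r).rangeRestrict (by
          rintro _ ⟨x, rfl⟩
          exact Subtype.ext (K.dd r x))
      have hπ : Function.Surjective π := by
        rintro ⟨_, x, rfl⟩
        exact ⟨Submodule.Quotient.mk x, rfl⟩
      let S₁ := SES.ofSurj π hπ
      let S₂ : SES R (LinearMap.range (K.d r)) (K.Q r) (K.Q r ⧸ LinearMap.range (K.d r)) :=
        ⟨(LinearMap.range (K.d r)).subtype, (LinearMap.range (K.d r)).mkQ,
          LinearMap.exact_subtype_mkQ _, (LinearMap.range (K.d r)).injective_subtype,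
          (LinearMap.range (K.d r)).mkQ_surjective⟩
      have hfl : IsFiniteLength R (LinearMap.ker π) := by
        apply fl_of_sm
        obtain ⟨N, hN⟩ := hK r
        refine ⟨N, ?_⟩
        rintro x hx ⟨z, hz⟩
        obtain ⟨z, rfl⟩ := Submodule.Quotient.mk_surjective _ z
        apply Subtype.ext
        change x • Submodule.Quotient.mk z = 0
        rw [← Submodule.Quotient.mk_smul, Submodule.Quotient.mk_eq_zero]
        exact hN x hx z (congrArg Subtype.val hz)
      have h1 : ∀ (j : ℕ) (ξ : E R (K.Q (r + 1) ⧸ LinearMap.range (K.d (r + 1))) M j),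
          ∃ ζ : E R (K.Q r) M j,
            (m0 S₁.g).comp ((m0 S₂.f).comp ζ (zero_add j)) (zero_add j) = ξ := by
        intro j ξ
        obtain ⟨η, rfl⟩ := S₁.ct2 ξ (vanish_finiteLength (h j) _ hfl _)
        obtain ⟨ζ, rfl⟩ := S₂.ct1 (add_comm 1 j) η (ih j _)
        exact ⟨ζ, rfl⟩
      refine ⟨fun j ξ => ?_, fun f hf => ?_⟩
      · obtain ⟨ζ, rfl⟩ := h1 _ ξ
        rw [Ext.eq_zero_of_projective ζ, Ext.comp_zero, Ext.comp_zero]
      · obtain ⟨ζ, hζ⟩ := h1 0 (m0 (Submodule.liftQ (LinearMap.range (K.d (r + 1))) f (by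
          rintro _ ⟨x, rfl⟩
          exact LinearMap.congr_fun hf x)))
        obtain ⟨g, rfl⟩ := exists_m0 ζ
        rw [m0_comp_m0, m0_comp_m0] at hζ
        refine ⟨g, LinearMap.ext fun x => ?_⟩
        exact LinearMap.congr_fun (m0_inj hζ) (Submodule.Quotient.mk x)
    intro n
    induction n with
    | zero =>
      intro r hr
      refine step r fun j ξ => ?_
      have := K.low r (by omega)
      exact vanish_finiteLength (h _) _ IsFiniteLength.of_subsingleton ξ
    | succ n ih =>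
      intro r hr
      obtain ⟨r, rfl⟩ : ∃ r', r = r' + 1 := ⟨r - 1, by omega⟩
      exact step _ (ih r (by push_cast at hr; omega)).1
  have hpos : 0 ≤ K.hi + 1 := by
    by_contra hneg
    have := K.low (K.hi + 1) (by omega)
    have h1 := K.coaug_top
    rw [Subsingleton.elim K.top 0, map_zero] at h1
    exact zero_ne_one h1
  rw [eq_top_iff]
  intro s _
  obtain ⟨g, hg⟩ := (key (K.hi + 1).toNat K.hi (by omega)).2
    ((LinearMap.toSpanSingleton R M s).comp K.coaug) (by
      have := K.high (K.hi + 1 + 1) (by omega)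
      apply LinearMap.ext
      intro x
      rw [Subsingleton.elim x 0, map_zero, map_zero])
  have h2 : g (K.d K.hi K.top) = s := by
    refine (LinearMap.congr_fun hg K.top).trans ?_
    change K.coaug K.top • s = s
    rw [K.coaug_top, one_smul]
  rw [← h2]
  refine Submodule.smul_induction_on
    (p := fun z => g z ∈ (maximalIdeal R • ⊤ : Submodule R M)) K.d_top ?_ ?_
  · intro a ha z _
    rw [map_smul]
    exact Submodule.smul_mem_smul ha Submodule.mem_top
  · intro a b ha hb
    rw [map_add]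
    exact Submodule.add_mem _ ha hb

/-- a copy of the ring -/
def Cp (R : Type u) : Type u := R

instance : CommRing (Cp R) := inferInstanceAs (CommRing R)

instance : IsLocalRing (Cp R) := inferInstanceAs (IsLocalRing R)

instance : IsNoetherianRing (Cp R) := inferInstanceAs (IsNoetherianRing R)

theorem gap_perfect (p : ℕ) [Fact p.Prime] [CharP R p] {S : Type u} [CommRing S] [CharP S p]
    [PerfectRing S p] (ι : R →+* S) (M : Type u) [AddCommGroup M] [Module S M] [Module R M]
    (hM : ∀ (r : R) (x : M), r • x = ι r • x) (j i : ℕ) (hji : j < i)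
    (hj : ∃ ξ : E R (R ⧸ maximalIdeal R) M j, ξ ≠ 0)
    (hi : ∀ ξ : E R (R ⧸ maximalIdeal R) M i, ξ = 0) :
    ∃ a, ∀ ξ : E R (R ⧸ maximalIdeal R) (R ⧸ maximalIdeal R) a, ξ = 0 := by
  have hp : p.Prime := Fact.out
  obtain ⟨c, hc⟩ := gap_main (Cp R)
  let φ : R →+* Cp R := iterateFrobenius R p (c + 1)
  let σ : Cp R →+* S := (iterateFrobeniusEquiv S p (c + 1)).symm.toRingHom.comp ι
  let _ : Algebra R (Cp R) := φ.toAlgebra
  let _ : Module (Cp R) M := Module.compHom M σ
  have hσ : ∀ r : R, σ (φ r) = ι r := by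
    intro r
    change (iterateFrobeniusEquiv S p (c + 1)).symm (ι (r ^ p ^ (c + 1))) = ι r
    rw [RingEquiv.symm_apply_eq, map_pow]
    rfl
  have _ : IsScalarTower R (Cp R) M := ⟨fun r r' x => by
    change σ (φ r * r') • x = r • σ r' • x
    rw [map_mul, hσ, hM, mul_smul]⟩
  obtain ⟨s, rfl⟩ : ∃ s, i = s + j := ⟨i - j, by omega⟩
  refine hc R ?_ ?_ j s (Md.mk M) (by omega) hj hi
  · intro x hx
    exact Ideal.pow_le_pow_right (Nat.lt_pow_self hp.one_lt).le
      (Ideal.pow_mem_pow (I := maximalIdeal R) hx (p ^ (c + 1)))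
  · intro x hx
    exact ⟨p ^ (c + 1), Ideal.mem_map_of_mem (algebraMap R (Cp R)) (x := x) hx⟩

end Pool.Agent.Lib.MP_c091ab_al
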