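import Pool.Agent.Lib.MP_c091ab_al.Basic

/-!
Passing from a perfect algebra to its quotient by the radical of one element keeps the vanishing
of all high `Ext(k, -)`.
-/

universe u

open CategoryTheory Abelian IsLocalRing

namespace Pool.Agent.Lib.MP_c091ab_al

variable {R : Type u} [CommRing R]

/-- a reduced ring killed by the prime `p` in which every element is a `p`-th power -/
structure Perf (p : ℕ) (S : Type u) [CommRing S] : Prop where
  char : (p : S) = 0
  red : IsReduced S
  root : ∀ s : S, ∃ t, t ^ p = s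

lemma Perf.pow_inj {p : ℕ} (hp : p.Prime) {S : Type u} [CommRing S] (h : Perf p S) (e : ℕ)
    {a b : S} (hab : a ^ p ^ e = b ^ p ^ e) : a = b := by
  rcases subsingleton_or_nontrivial S with hS | hS
  · exact Subsingleton.elim _ _
  have := Fact.mk hp
  have : CharP S p := (CharP.charP_iff_prime_eq_zero hp).mpr h.char
  have := h.red
  have h1 : (a - b) ^ p ^ e = 0 := by rw [sub_pow_char_pow, hab, sub_self]
  exact sub_eq_zero.mp (IsNilpotent.eq_zero ⟨_, h1⟩)

lemma Perf.root_pow {p : ℕ} {S : Type u} [CommRing S] (h : Perf p S) (e : ℕ) (s : S) :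
    ∃ t, t ^ p ^ e = s := by
  induction e generalizing s with
  | zero => exact ⟨s, by simp⟩
  | succ e ih =>
    obtain ⟨t, rfl⟩ := h.root s
    obtain ⟨v, rfl⟩ := ih t
    exact ⟨v, by rw [← pow_mul, pow_succ]⟩

lemma Perf.quot {p : ℕ} {S : Type u} [CommRing S] (h : Perf p S) (I : Ideal S) :
    Perf p (S ⧸ I.radical) where
  char := by
    rw [← map_natCast (Ideal.Quotient.mk I.radical), h.char, map_zero]
  red := (Ideal.isRadical_iff_quotient_reduced _).mp I.radical_isRadical
  root := by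
    intro s
    obtain ⟨a, rfl⟩ := Ideal.Quotient.mk_surjective s
    obtain ⟨t, rfl⟩ := h.root a
    exact ⟨Ideal.Quotient.mk _ t, by rw [map_pow]⟩

/-- Every map from a finite module to the radical of `(y)` factors through `S`. -/
lemma Perf.factor {p : ℕ} (hp : p.Prime) {S : Type u} [CommRing S] [Algebra R S] (h : Perf p S)
    (y : S) {W : Type u} [AddCommGroup W] [Module R W] [Module.Finite R W]
    (f : W →ₗ[R] (Ideal.span {y}).radical) :
    ∃ (g : W →ₗ[R] S) (g' : S →ₗ[R] (Ideal.span {y}).radical), f = g'.comp g := by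
  have := h.red
  choose rt hrt using h.root
  let ρ : ℕ → S := fun e => rt^[e] y
  have hρ : ∀ e, ρ (e + 1) ^ p = ρ e := fun e => by
    simp only [ρ, Function.iterate_succ_apply', hrt]
  have hρ' : ∀ e, ρ e ^ p ^ e = y := by
    intro e
    induction e with
    | zero => simp [ρ]
    | succ e ih => rw [pow_succ', pow_mul, hρ, ih]
  obtain ⟨p', hp'⟩ : ∃ p', p = p' + 1 + 1 := ⟨p - 2, by have := hp.two_le; omega⟩
  let μ : ℕ → S →ₗ[R] S := fun e => (LinearMap.mulLeft S (ρ e)).restrictScalars R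
  let f' : W →ₗ[R] S := (((Ideal.span {y}).radical).subtype.restrictScalars R).comp f
  let N : ℕ →o Submodule R W := ⟨fun e => (LinearMap.range (μ e)).comap f', by
    refine monotone_nat_of_le_succ fun e w hw => ?_
    obtain ⟨s, hs⟩ := hw
    refine ⟨ρ (e + 1) ^ (p' + 1) * s, ?_⟩
    rw [← hs]
    change ρ (e + 1) * (ρ (e + 1) ^ (p' + 1) * s) = ρ e * s
    rw [← hρ e, hp']
    ring⟩
  have hN : iSup N = ⊤ := by
    rw [eq_top_iff]
    intro w _
    obtain ⟨n, hn⟩ := (f w).2
    obtain ⟨s, hs⟩ := Ideal.mem_span_singleton'.mp hn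
    obtain ⟨c, hc⟩ := Nat.exists_eq_add_of_le (Nat.lt_pow_self hp.one_lt (n := n)).le
    obtain ⟨t, ht⟩ := h.root_pow n (s * (f w : S) ^ c)
    refine Submodule.mem_iSup_of_mem n ⟨t, ?_⟩
    change ρ n * t = (f w : S)
    apply h.pow_inj hp n
    rw [mul_pow, hρ', ht, hc, pow_add, ← hs]
    ring
  obtain ⟨e, he⟩ := Submodule.FG.stabilizes_of_iSup_eq Module.Finite.fg_top N hN
  have hmem : ∀ w, f' w ∈ LinearMap.range (μ e) := fun w => by
    have : w ∈ N e := he ▸ Submodule.mem_top
    exact this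
  have hker : LinearMap.ker (μ e) ≤ LinearMap.ker (μ (e + 1)) := by
    intro s hs
    change ρ e * s = 0 at hs
    change ρ (e + 1) * s = 0
    refine IsNilpotent.eq_zero ⟨p, ?_⟩
    rw [mul_pow, hρ, hp', pow_succ, ← mul_assoc, mul_right_comm, hs, zero_mul]
  let lam : LinearMap.range (μ e) →ₗ[R] S :=
    ((LinearMap.ker (μ e)).liftQ (μ (e + 1)) hker).comp
      (LinearMap.quotKerEquivRange (μ e)).symm.toLinearMap
  have hlam : ∀ (s : S) (hs : μ e s ∈ LinearMap.range (μ e)), lam ⟨μ e s, hs⟩ = μ (e + 1) s := by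
    intro s hs
    simp only [lam, LinearMap.comp_apply, LinearEquiv.coe_coe,
      LinearMap.quotKerEquivRange_symm_apply_image, Submodule.mkQ_apply, Submodule.liftQ_apply]
  have hu : ρ (e + 1) ^ (p' + 1) ∈ (Ideal.span {y}).radical := by
    refine Ideal.pow_mem_of_mem _ ?_ _ (by omega)
    exact ⟨p ^ (e + 1), by rw [hρ']; exact Ideal.mem_span_singleton_self y⟩
  let g' : S →ₗ[R] (Ideal.span {y}).radical :=
    (LinearMap.codRestrict (Ideal.span {y}).radical (LinearMap.mulLeft S (ρ (e + 1) ^ (p' + 1)))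
      (fun s => Ideal.mul_mem_right _ _ hu)).restrictScalars R
  refine ⟨lam.comp (f'.codRestrict _ hmem), g', ?_⟩
  ext w
  obtain ⟨s, hs⟩ := hmem w
  have e1 : f'.codRestrict _ hmem w = ⟨μ e s, hs ▸ hmem w⟩ := Subtype.ext hs.symm
  change f' w = ρ (e + 1) ^ (p' + 1) * lam (f'.codRestrict _ hmem w)
  rw [e1, hlam, ← hs]
  change ρ e * s = ρ (e + 1) ^ (p' + 1) * (ρ (e + 1) * s)
  rw [← hρ e, hp']
  ring

lemma Perf.vanish_radical [IsNoetherianRing R] {p : ℕ} (hp : p.Prime) {S : Type u} [CommRing S]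
    [Algebra R S] (h : Perf p S) (y : S) {L : Type u} [AddCommGroup L] [Module R L]
    [Module.Finite R L] {n : ℕ} (hv : ∀ ξ : E R L S n, ξ = 0)
    (ξ : E R L (Ideal.span {y}).radical n) : ξ = 0 := by
  obtain ⟨W, _, _, _, θ, hθ⟩ := exists_universal (R := R) n L
  obtain ⟨f, rfl⟩ := hθ _ ξ
  obtain ⟨g, g', rfl⟩ := h.factor hp y f
  rw [← m0_comp_m0, ← Ext.comp_assoc_of_third_deg_zero, hv (θ.comp (m0 g) (add_zero n)),
    Ext.zero_comp]

lemma Perf.vanish_quot [IsNoetherianRing R] {p : ℕ} (hp : p.Prime) {S : Type u} [CommRing S]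
    [Algebra R S] (h : Perf p S) (y : S) {L : Type u} [AddCommGroup L] [Module R L]
    [Module.Finite R L] {n : ℕ} (hv : ∀ ξ : E R L S n, ξ = 0) (hv' : ∀ ξ : E R L S (n + 1), ξ = 0)
    (ξ : E R L (S ⧸ (Ideal.span {y}).radical) n) : ξ = 0 := by
  let J := (Ideal.span {y}).radical
  have hex : Function.Exact (J.subtype.restrictScalars R)
      (Ideal.Quotient.mkₐ R J).toLinearMap := by
    intro s
    change Ideal.Quotient.mk J s = 0 ↔ _
    rw [Ideal.Quotient.eq_zero_iff_mem]
    exact ⟨fun hs => ⟨⟨s, hs⟩, rfl⟩, by rintro ⟨t, rfl⟩; exact t.2⟩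
  have hS := sc_exact _ _ hex J.injective_subtype Ideal.Quotient.mk_surjective
  obtain ⟨η, rfl⟩ := Ext.covariant_sequence_exact₃ _ hS ξ rfl (h.vanish_radical hp y hv' _)
  rw [hv η, Ext.zero_comp]

theorem Perf.vanish_residue [IsNoetherianRing R] [IsLocalRing R] {p : ℕ} (hp : p.Prime) (n : ℕ)
    (r : ℕ) : ∀ (S : Type u) [CommRing S] [Algebra R S] (_ : Perf p S) (ys : List S),
      ys.length = r → Ideal.span {y | y ∈ ys} ≠ ⊤ →
      (∀ a ∈ maximalIdeal R, algebraMap R S a ∈ (Ideal.span {y | y ∈ ys}).radical) →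
      (∀ j, n ≤ j → ∀ ξ : E R (R ⧸ maximalIdeal R) S j, ξ = 0) →
      ∀ ξ : E R (R ⧸ maximalIdeal R) (R ⧸ maximalIdeal R) n, ξ = 0 := by
  induction r with
  | zero =>
    intro S _ _ h ys hlen hne hm hv
    obtain rfl := List.length_eq_zero_iff.mp hlen
    have := h.red
    have h0 : ∀ a ∈ maximalIdeal R, ∀ s : S, a • s = 0 := by
      intro a ha s
      obtain ⟨m, hm'⟩ := hm a ha
      have : algebraMap R S a = 0 := IsNilpotent.eq_zero ⟨m, by simpa using hm'⟩
      rw [Algebra.smul_def, this, zero_mul]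
    have h1 : (1 : S) ∉ (maximalIdeal R • ⊤ : Submodule R S) := by
      intro h1
      have : ∀ s ∈ (maximalIdeal R • ⊤ : Submodule R S), s = 0 := fun s hs =>
        Submodule.smul_induction_on hs (fun a ha t _ => h0 a ha t)
          (fun x y hx hy => by rw [hx, hy, add_zero])
      apply hne
      rw [Ideal.eq_top_iff_one, this 1 h1]
      exact Ideal.zero_mem _
    obtain ⟨i, r, hri⟩ := exists_retract (1 : S) h1 (fun a ha => h0 a ha 1)
    exact vanish_retract_right i r hri (hv n le_rfl)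
  | succ r ih =>
    intro S _ _ h ys hlen hne hm hv
    obtain ⟨y, ys, rfl⟩ := List.exists_cons_of_length_eq_add_one hlen
    let J := (Ideal.span {y}).radical
    have hspan : Ideal.span {z | z ∈ ys.map (Ideal.Quotient.mk J)} =
        (Ideal.span {z | z ∈ y :: ys}).map (Ideal.Quotient.mk J) := by
      rw [Ideal.map_span]
      apply le_antisymm
      · apply Ideal.span_mono
        intro z hz
        obtain ⟨w, hw, rfl⟩ := List.mem_map.mp hz
        exact ⟨w, List.mem_cons_of_mem _ hw, rfl⟩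
      · rw [Ideal.span_le]
        rintro _ ⟨w, hw, rfl⟩
        rcases List.mem_cons.mp hw with rfl | hw
        · have : Ideal.Quotient.mk J w = 0 := Ideal.Quotient.eq_zero_iff_mem.mpr
            (Ideal.le_radical (Ideal.mem_span_singleton_self _))
          rw [this]
          exact Ideal.zero_mem _
        · exact Ideal.subset_span (List.mem_map.mpr ⟨w, hw, rfl⟩)
    refine ih (S ⧸ J) (h.quot _) (ys.map (Ideal.Quotient.mk J)) (by simpa using hlen) ?_ ?_ ?_
    · rw [hspan]
      intro htop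
      apply hne
      have h1 : (1 : S ⧸ J) ∈ (Ideal.span {z | z ∈ y :: ys}).map (Ideal.Quotient.mk J) :=
        htop ▸ Submodule.mem_top
      obtain ⟨a, ha, ha'⟩ := (Ideal.mem_map_iff_of_surjective _
        Ideal.Quotient.mk_surjective).mp h1
      rw [← map_one (Ideal.Quotient.mk J), Ideal.Quotient.eq] at ha'
      have h2 : a - 1 ∈ (Ideal.span {z | z ∈ y :: ys}).radical :=
        Ideal.radical_mono (Ideal.span_mono (by simp)) ha'
      rw [← Ideal.radical_eq_top, Ideal.eq_top_iff_one]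
      have h3 : (1 : S) = a - (a - 1) := by ring
      rw [h3]
      exact Ideal.sub_mem _ (Ideal.le_radical ha) h2
    · intro a ha
      rw [hspan]
      obtain ⟨m, hm'⟩ := hm a ha
      refine ⟨m, ?_⟩
      have : algebraMap R (S ⧸ J) a = Ideal.Quotient.mk J (algebraMap R S a) := rfl
      rw [this, ← map_pow]
      exact Ideal.mem_map_of_mem _ hm'
    · intro j hj
      exact h.vanish_quot hp y (hv j hj) (hv (j + 1) (by omega))

end Pool.Agent.Lib.MP_c091ab_al
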