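import Pool.Agent.Lib.MP_c091ab_al.Basic

/-!
Serre's theorem: a Noetherian local ring whose residue field has finite projective dimension is
regular.
-/

universe u

open CategoryTheory Abelian IsLocalRing Pointwise

namespace Pool.Agent.Lib.MP_c091ab_al

variable {R : Type u} [CommRing R]

/-- If the socle of `R` is nonzero, finite modules of finite projective dimension are free. -/
lemma free_of_socle [IsLocalRing R] [IsNoetherianRing R] (s : R) (hs : s ≠ 0)
    (hm : ∀ a ∈ maximalIdeal R, a * s = 0) (n : ℕ) :
    ∀ (L : Type u) [AddCommGroup L] [Module R L] [Module.Finite R L],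
      HasProjectiveDimensionLT (ModuleCat.of R L) n → Module.Free R L := by
  induction n with
  | zero =>
    intro L _ _ _ h
    have := ModuleCat.isZero_iff_subsingleton.mp
      (isZero_of_hasProjectiveDimensionLT_zero (ModuleCat.of R L))
    have : Subsingleton L := this
    infer_instance
  | succ n ih =>
    intro L _ _ _ h
    cases n with
    | zero =>
      have h1 : Projective (ModuleCat.of R L) :=
        projective_iff_hasProjectiveDimensionLT_one.mpr h
      have : Module.Projective R L := (IsProjective.iff_projective L).mpr h1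
      exact Module.free_of_flat_of_isLocalRing
    | succ n =>
      obtain ⟨m, f, hf, hker⟩ := exists_min_cover (R := R) L
      have hS := LinearMap.shortExact_shortComplexKer hf
      have h1 := (hS.hasProjectiveDimensionLT_X₃_iff n inferInstance).mp h
      have h2 : Module.Free R (LinearMap.ker f) := ih _ h1
      have h3 : ∀ x ∈ (maximalIdeal R • ⊤ : Submodule R (Fin m → R)), s • x = 0 := by
        intro x hx
        refine Submodule.smul_induction_on hx ?_ ?_
        · intro a ha y _
          rw [smul_smul, mul_comm, hm a ha, zero_smul]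
        · intro x y hx hy
          rw [smul_add, hx, hy, add_zero]
      have h4 : Subsingleton (LinearMap.ker f) := by
        by_contra hne
        rw [not_subsingleton_iff_nontrivial] at hne
        have h5 : s ∈ Module.annihilator R (LinearMap.ker f) := by
          rw [Module.mem_annihilator]
          intro x
          exact Subtype.ext (h3 x.1 (hker x.2))
        rw [Module.annihilator_eq_bot.mpr inferInstance] at h5
        exact hs h5
      have h6 : Function.Injective f := by
        rw [← LinearMap.ker_eq_bot]
        exact Submodule.subsingleton_iff_eq_bot.mp h4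
      exact Module.Free.of_equiv (LinearEquiv.ofBijective f ⟨h6, hf⟩)

/-- change of rings along a regular element -/
lemma pd_quot [IsLocalRing R] [IsNoetherianRing R] (x : R) (hx : IsSMulRegular R x) (n : ℕ) :
    ∀ (L : Type u) [AddCommGroup L] [Module R L] [Module.Finite R L], IsSMulRegular L x →
      HasProjectiveDimensionLT (ModuleCat.of R L) (n + 1) →
      HasProjectiveDimensionLT (ModuleCat.of (R ⧸ Ideal.span {x}) (QuotSMulTop x L)) (n + 1) := by
  induction n with
  | zero =>
    intro L _ _ _ _ h
    have h1 : Projective (ModuleCat.of R L) :=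
      projective_iff_hasProjectiveDimensionLT_one.mpr h
    have : Module.Projective R L := (IsProjective.iff_projective L).mpr h1
    have : Module.Free R L := Module.free_of_flat_of_isLocalRing
    infer_instance
  | succ n ih =>
    intro L _ _ _ hL h
    obtain ⟨m, f, hf, -⟩ := exists_min_cover (R := R) L
    have hS := LinearMap.shortExact_shortComplexKer hf
    have h1 := (hS.hasProjectiveDimensionLT_X₃_iff n inferInstance).mp h
    have hF : IsSMulRegular (Fin m → R) x := IsSMulRegular.pi fun _ => hx
    have h2 := ih (LinearMap.ker f) (hF.submodule _ _) h1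
    have hsurj : Function.Surjective (algebraMap R (R ⧸ Ideal.span {x})) :=
      Ideal.Quotient.mk_surjective
    let f₁ := (QuotSMulTop.map x (LinearMap.ker f).subtype).extendScalarsOfSurjective hsurj
    let f₂ := (QuotSMulTop.map x f).extendScalarsOfSurjective hsurj
    have hex : Function.Exact f₁ f₂ :=
      QuotSMulTop.map_exact x (LinearMap.exact_subtype_ker_map f) hf
    have hinj : Function.Injective f₁ := by
      have h0 : Function.Exact (0 : PUnit.{u + 1} →ₗ[R] LinearMap.ker f)
          (LinearMap.ker f).subtype :=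
        (LinearMap.exact_zero_iff_injective _ _).mpr (LinearMap.ker f).injective_subtype
      have h3 := QuotSMulTop.map_first_exact_on_four_term_exact_of_isSMulRegular_last h0
        (LinearMap.exact_subtype_ker_map f) hL
      rw [map_zero] at h3
      exact (LinearMap.exact_zero_iff_injective _ _).mp h3
    have hS' := sc_exact f₁ f₂ hex hinj (QuotSMulTop.map_surjective x hf)
    exact hS'.hasProjectiveDimensionLT_X₃ (n + 1) h2 inferInstance

theorem serre (d : ℕ) : ∀ (R : Type u) [CommRing R] [IsLocalRing R] [IsNoetherianRing R],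
    ringKrullDim R = d → ∀ n, HasProjectiveDimensionLT (ModuleCat.of R (R ⧸ maximalIdeal R)) n →
    IsRegularLocalRing R := by
  induction d using Nat.strong_induction_on with
  | _ d ih =>
  intro R _ _ _ hd n hn
  by_cases hbot : maximalIdeal R = ⊥
  · apply IsRegularLocalRing.of_spanFinrank_maximalIdeal_le
    rw [hbot, hd]
    simp
  -- find a regular element outside `m ^ 2`
  have hx : ∃ x ∈ maximalIdeal R, x ∉ maximalIdeal R • maximalIdeal R ∧ IsSMulRegular R x := by
    by_contra hcon
    push Not at hcon
    have hfin := associatedPrimes.finite R R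
    have hsub : ((maximalIdeal R : Ideal R) : Set R) ⊆
        ⋃ I ∈ (↑(insert (maximalIdeal R • maximalIdeal R) hfin.toFinset) : Set (Ideal R)),
          (id I : Ideal R) := by
      intro x hx
      by_cases h2 : x ∈ maximalIdeal R • maximalIdeal R
      · exact Set.mem_biUnion (Finset.mem_coe.mpr (Finset.mem_insert_self _ _)) h2
      · have h3 : x ∈ ⋃ P ∈ associatedPrimes R R, (P : Set R) := by
          rw [biUnion_associatedPrimes_eq_compl_regular]
          exact hcon x hx h2
        obtain ⟨P, hP, hxP⟩ := Set.mem_iUnion₂.mp h3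
        exact Set.mem_biUnion (Finset.mem_coe.mpr
          (Finset.mem_insert_of_mem (hfin.mem_toFinset.mpr hP))) hxP
    rw [Ideal.subset_union_prime (maximalIdeal R • maximalIdeal R)
      (maximalIdeal R • maximalIdeal R)] at hsub
    · obtain ⟨I, hI, hle⟩ := hsub
      rcases Finset.mem_insert.mp hI with rfl | hI
      · exact hbot (Submodule.eq_bot_of_le_smul_of_le_jacobson_bot (maximalIdeal R) _
          (IsNoetherian.noetherian _) hle (IsLocalRing.maximalIdeal_le_jacobson _))
      · obtain ⟨hP, s, hs⟩ := isAssociatedPrime_iff.mp (hfin.mem_toFinset.mp hI)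
        have hs0 : s ≠ 0 := by
          rintro rfl
          apply hP.ne_top
          rw [hs]
          simp
        have hm : ∀ a ∈ maximalIdeal R, a * s = 0 := by
          intro a ha
          have : a ∈ I := hle ha
          rw [hs] at this
          simpa using this
        have hfree := free_of_socle s hs0 hm n _ hn
        apply hbot
        rw [← Ideal.annihilator_quotient (I := maximalIdeal R)]
        exact Module.annihilator_eq_bot.mpr inferInstance
    · intro I hI hne _
      rcases Finset.mem_insert.mp hI with rfl | hI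
      · exact absurd rfl hne
      · exact (hfin.mem_toFinset.mp hI).isPrime
  obtain ⟨x, hxm, hx2, hxr⟩ := hx
  have hne : Ideal.span {x} ≠ ⊤ := fun h => (maximalIdeal.isMaximal R).ne_top
    (top_le_iff.mp (h ▸ (Ideal.span_singleton_le_iff_mem _).mpr hxm))
  have : Nontrivial (R ⧸ Ideal.span {x}) := Ideal.Quotient.nontrivial_iff.mpr hne
  have : IsLocalRing (R ⧸ Ideal.span {x}) :=
    IsLocalRing.of_surjective' _ Ideal.Quotient.mk_surjective
  have hmap : (maximalIdeal R).map (Ideal.Quotient.mk (Ideal.span {x})) =
      maximalIdeal (R ⧸ Ideal.span {x}) :=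
    IsLocalRing.map_maximalIdeal_of_surjective _ Ideal.Quotient.mk_surjective
  have hdim := ringKrullDim_quotient_span_singleton_succ_eq_ringKrullDim hxr hxm
  obtain ⟨d', hd'⟩ : ∃ d' : ℕ, ringKrullDim (R ⧸ Ideal.span {x}) = d' := by
    have h1 := ringKrullDim_ne_bot (R := R ⧸ Ideal.span {x})
    have h2 := ringKrullDim_ne_top (R := R ⧸ Ideal.span {x})
    obtain ⟨a, ha⟩ := WithBot.ne_bot_iff_exists.mp h1
    rw [← ha] at h2 ⊢
    obtain ⟨b, hb⟩ := ENat.ne_top_iff_exists.mp (fun h => h2 (by rw [h]; rfl) : a ≠ ⊤)
    exact ⟨b, by rw [← hb]; rfl⟩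
  have hdd : d' + 1 = d := by
    rw [hd', hd] at hdim
    exact_mod_cast hdim
  -- the maximal ideal has finite projective dimension
  have hS := sc_exact (maximalIdeal R).subtype (maximalIdeal R).mkQ
    (LinearMap.exact_subtype_mkQ _) (maximalIdeal R).injective_subtype
    (maximalIdeal R).mkQ_surjective
  have hn2 : HasProjectiveDimensionLT (ModuleCat.of R (R ⧸ maximalIdeal R)) (n + 2) :=
    hasProjectiveDimensionLT_of_ge _ n (n + 2) (by omega)
  have h1 := (hS.hasProjectiveDimensionLT_X₃_iff n inferInstance).mp hn2
  have h2 := pd_quot x hxr n (maximalIdeal R) (hxr.submodule _ _) h1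
  let q : QuotSMulTop x (maximalIdeal R) := Submodule.Quotient.mk ⟨x, hxm⟩
  have hq1 : ∀ a ∈ maximalIdeal (R ⧸ Ideal.span {x}), a • q = 0 := by
    intro a ha
    rw [← hmap] at ha
    obtain ⟨b, hb, rfl⟩ := (Ideal.mem_map_iff_of_surjective _
      Ideal.Quotient.mk_surjective).mp ha
    change b • q = 0
    rw [← Submodule.Quotient.mk_smul, Submodule.Quotient.mk_eq_zero]
    have : b • (⟨x, hxm⟩ : maximalIdeal R) = x • (⟨b, hb⟩ : maximalIdeal R) :=
      Subtype.ext (mul_comm b x)
    rw [this]
    exact Submodule.smul_mem_pointwise_smul _ _ _ Submodule.mem_top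
  have hq2 : q ∉ (maximalIdeal (R ⧸ Ideal.span {x}) • ⊤ :
      Submodule (R ⧸ Ideal.span {x}) (QuotSMulTop x (maximalIdeal R))) := by
    intro hq
    have key : ∀ z ∈ (maximalIdeal (R ⧸ Ideal.span {x}) • ⊤ :
        Submodule (R ⧸ Ideal.span {x}) (QuotSMulTop x (maximalIdeal R))),
        ∃ w : maximalIdeal R, (w : R) ∈ maximalIdeal R • maximalIdeal R ∧
          z = Submodule.Quotient.mk w := by
      intro z hz
      refine Submodule.smul_induction_on hz ?_ ?_
      · intro a ha y _
        rw [← hmap] at ha
        obtain ⟨b, hb, rfl⟩ := (Ideal.mem_map_iff_of_surjective _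
          Ideal.Quotient.mk_surjective).mp ha
        obtain ⟨w, rfl⟩ := Submodule.Quotient.mk_surjective _ y
        exact ⟨b • w, Submodule.smul_mem_smul hb w.2, rfl⟩
      · rintro _ _ ⟨w, hw, rfl⟩ ⟨w', hw', rfl⟩
        exact ⟨w + w', Submodule.add_mem _ hw hw', rfl⟩
    obtain ⟨w, hw, hw'⟩ := key q hq
    rw [Submodule.Quotient.eq] at hw'
    obtain ⟨v, -, hv⟩ := (Submodule.mem_smul_pointwise_iff_exists _ _ _).mp hw'
    apply hx2
    have h3 : x = w + x * v := by
      have := congrArg Subtype.val hv
      simp only [SetLike.val_smul, smul_eq_mul, AddSubgroupClass.coe_sub] at this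
      rw [this]
      ring
    rw [h3]
    exact Submodule.add_mem _ hw (Submodule.smul_mem_smul hxm v.2)
  obtain ⟨i, r, hri⟩ := exists_retract q hq2 hq1
  have hret : Retract (ModuleCat.of (R ⧸ Ideal.span {x})
      ((R ⧸ Ideal.span {x}) ⧸ maximalIdeal (R ⧸ Ideal.span {x})))
      (ModuleCat.of (R ⧸ Ideal.span {x}) (QuotSMulTop x (maximalIdeal R))) :=
    ⟨ModuleCat.ofHom i, ModuleCat.ofHom r, ModuleCat.hom_ext hri⟩
  have hreg := ih d' (by omega) (R ⧸ Ideal.span {x}) hd' (n + 1)
    (hret.hasProjectiveDimensionLT (n + 1))
  apply IsRegularLocalRing.of_spanFinrank_maximalIdeal_le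
  have h5 := hreg.spanFinrank_maximalIdeal
  rw [hd'] at h5
  have h6 : (maximalIdeal (R ⧸ Ideal.span {x})).spanFinrank = d' := by exact_mod_cast h5
  obtain ⟨t, ht, ht'⟩ := Submodule.FG.exists_span_finset_card_eq_spanFinrank
    (IsNoetherian.noetherian (maximalIdeal (R ⧸ Ideal.span {x})))
  choose σ hσ using Ideal.Quotient.mk_surjective (I := Ideal.span {x})
  classical
  have h7 : maximalIdeal R = Ideal.span (↑(insert x (t.image σ)) : Set R) := by
    have e1 : (Ideal.span (↑(t.image σ) : Set R)).map (Ideal.Quotient.mk (Ideal.span {x})) =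
        maximalIdeal (R ⧸ Ideal.span {x}) := by
      rw [Ideal.map_span, ← ht', Finset.coe_image, Set.image_image]
      simp only [hσ, Set.image_id']
    have e2 := congrArg (Ideal.comap (Ideal.Quotient.mk (Ideal.span {x}))) (hmap.trans e1.symm)
    rw [Ideal.comap_map_of_surjective _ Ideal.Quotient.mk_surjective,
      Ideal.comap_map_of_surjective _ Ideal.Quotient.mk_surjective,
      ← RingHom.ker_eq_comap_bot, Ideal.mk_ker,
      sup_eq_left.mpr ((Ideal.span_singleton_le_iff_mem _).mpr hxm)] at e2
    rw [e2, Finset.coe_insert, Ideal.span_insert, sup_comm]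
  have h8 : (maximalIdeal R).spanFinrank ≤ d := by
    rw [h7]
    refine (Submodule.spanFinrank_span_le_ncard_of_finite (Finset.finite_toSet _)).trans ?_
    rw [Set.ncard_coe_finset]
    refine (Finset.card_insert_le _ _).trans ?_
    have := Finset.card_image_le (s := t) (f := σ)
    omega
  rw [hd]
  exact_mod_cast h8

end Pool.Agent.Lib.MP_c091ab_al
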