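import Pool.Agent.Lib.MP_c091ab_al.Serre

/-!
The projective dimension of the residue field is at least the dimension of the ring.
-/

universe u

open CategoryTheory Abelian IsLocalRing Pointwise

namespace Pool.Agent.Lib.MP_c091ab_al

theorem serre_sharp (d : ℕ) : ∀ (R : Type u) [CommRing R] [IsLocalRing R] [IsNoetherianRing R],
    ringKrullDim R = d → ∀ n, HasProjectiveDimensionLT (ModuleCat.of R (R ⧸ maximalIdeal R)) n →
    IsRegularLocalRing R ∧ d < n := by
  induction d using Nat.strong_induction_on with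
  | _ d ih =>
  intro R _ _ _ hd n hn
  refine ⟨serre d R hd n hn, ?_⟩
  have hnt : Nontrivial (R ⧸ maximalIdeal R) :=
    Ideal.Quotient.nontrivial_iff.mpr (maximalIdeal.isMaximal R).ne_top
  obtain rfl | ⟨n, rfl⟩ : n = 0 ∨ ∃ m, n = m + 1 := by
    cases n with
    | zero => exact Or.inl rfl
    | succ m => exact Or.inr ⟨m, rfl⟩
  · have h0 := ModuleCat.isZero_iff_subsingleton.mp
      (isZero_of_hasProjectiveDimensionLT_zero (ModuleCat.of R (R ⧸ maximalIdeal R)))
    exact absurd h0 (not_subsingleton _)
  by_cases hbot : maximalIdeal R = ⊥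
  · have h0 : (d : WithBot ℕ∞) = 0 := by
      rw [← hd, ← IsLocalRing.maximalIdeal_height_eq_ringKrullDim, hbot]
      simp
    have : d = 0 := by exact_mod_cast h0
    omega
  obtain rfl | ⟨n, rfl⟩ : n = 0 ∨ ∃ m, n = m + 1 := by
    cases n with
    | zero => exact Or.inl rfl
    | succ m => exact Or.inr ⟨m, rfl⟩
  · have h1 : Projective (ModuleCat.of R (R ⧸ maximalIdeal R)) :=
      projective_iff_hasProjectiveDimensionLT_one.mpr hn
    have : Module.Projective R (R ⧸ maximalIdeal R) := (IsProjective.iff_projective _).mpr h1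
    have : Module.Free R (R ⧸ maximalIdeal R) := Module.free_of_flat_of_isLocalRing
    exfalso
    apply hbot
    rw [← Ideal.annihilator_quotient (I := maximalIdeal R)]
    exact Module.annihilator_eq_bot.mpr inferInstance
  -- find a regular element outside `m ^ 2`
  have hx : ∃ x ∈ maximalIdeal R, x ∉ maximalIdeal R • maximalIdeal R ∧ IsSMulRegular R x := by
    by_contra hcon
    push Not at hcon
    have hfin := associatedPrimes.finite R R
    have hsub : ((maximalIdeal R : Ideal R) : Set R) ⊆
        ⋃ I ∈ (↑(insert (maximalIdeal R • maximalIdeal R) hfin.toFinset) : Set (Ideal R)),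
          (id I : Ideal R) := by
      intro x hx
      by_cases h2 : x ∈ maximalIdeal R • maximalIdeal R
      · exact Set.mem_biUnion (Finset.mem_coe.mpr (Finset.mem_insert_self _ _)) h2
      · have h3 : x ∈ ⋃ P ∈ associatedPrimes R R, (P : Set R) := by
          rw [biUnion_associatedPrimes_eq_compl_regular]
          exact hcon x hx h2
        obtain ⟨P, hP, hxP⟩ := Set.mem_iUnion₂.mp h3
        exact Set.mem_biUnion (Finset.mem_coe.mpr
          (Finset.mem_insert_of_mem (hfin.mem_toFinset.mpr hP))) hxP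
    rw [Ideal.subset_union_prime (maximalIdeal R • maximalIdeal R)
      (maximalIdeal R • maximalIdeal R)] at hsub
    · obtain ⟨I, hI, hle⟩ := hsub
      rcases Finset.mem_insert.mp hI with rfl | hI
      · exact hbot (Submodule.eq_bot_of_le_smul_of_le_jacobson_bot (maximalIdeal R) _
          (IsNoetherian.noetherian _) hle (IsLocalRing.maximalIdeal_le_jacobson _))
      · obtain ⟨hP, s, hs⟩ := isAssociatedPrime_iff.mp (hfin.mem_toFinset.mp hI)
        have hs0 : s ≠ 0 := by
          rintro rfl
          apply hP.ne_top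
          rw [hs]
          simp
        have hm : ∀ a ∈ maximalIdeal R, a * s = 0 := by
          intro a ha
          have : a ∈ I := hle ha
          rw [hs] at this
          simpa using this
        have hfree := free_of_socle s hs0 hm _ _ hn
        apply hbot
        rw [← Ideal.annihilator_quotient (I := maximalIdeal R)]
        exact Module.annihilator_eq_bot.mpr inferInstance
    · intro I hI hne _
      rcases Finset.mem_insert.mp hI with rfl | hI
      · exact absurd rfl hne
      · exact (hfin.mem_toFinset.mp hI).isPrime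
  obtain ⟨x, hxm, hx2, hxr⟩ := hx
  have hne : Ideal.span {x} ≠ ⊤ := fun h => (maximalIdeal.isMaximal R).ne_top
    (top_le_iff.mp (h ▸ (Ideal.span_singleton_le_iff_mem _).mpr hxm))
  have : Nontrivial (R ⧸ Ideal.span {x}) := Ideal.Quotient.nontrivial_iff.mpr hne
  have : IsLocalRing (R ⧸ Ideal.span {x}) :=
    IsLocalRing.of_surjective' _ Ideal.Quotient.mk_surjective
  have hmap : (maximalIdeal R).map (Ideal.Quotient.mk (Ideal.span {x})) =
      maximalIdeal (R ⧸ Ideal.span {x}) :=
    IsLocalRing.map_maximalIdeal_of_surjective _ Ideal.Quotient.mk_surjective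
  have hdim := ringKrullDim_quotient_span_singleton_succ_eq_ringKrullDim hxr hxm
  obtain ⟨d', hd'⟩ : ∃ d' : ℕ, ringKrullDim (R ⧸ Ideal.span {x}) = d' := by
    have h1 := ringKrullDim_ne_bot (R := R ⧸ Ideal.span {x})
    have h2 := ringKrullDim_ne_top (R := R ⧸ Ideal.span {x})
    obtain ⟨a, ha⟩ := WithBot.ne_bot_iff_exists.mp h1
    rw [← ha] at h2 ⊢
    obtain ⟨b, hb⟩ := ENat.ne_top_iff_exists.mp (fun h => h2 (by rw [h]; rfl) : a ≠ ⊤)
    exact ⟨b, by rw [← hb]; rfl⟩
  have hdd : d' + 1 = d := by
    rw [hd', hd] at hdim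
    exact_mod_cast hdim
  -- the maximal ideal has finite projective dimension
  have hS := sc_exact (maximalIdeal R).subtype (maximalIdeal R).mkQ
    (LinearMap.exact_subtype_mkQ _) (maximalIdeal R).injective_subtype
    (maximalIdeal R).mkQ_surjective
  have hn2 : HasProjectiveDimensionLT (ModuleCat.of R (R ⧸ maximalIdeal R)) (n + 2) := hn
  have h1 := (hS.hasProjectiveDimensionLT_X₃_iff n inferInstance).mp hn2
  have h2 := pd_quot x hxr n (maximalIdeal R) (hxr.submodule _ _) h1
  let q : QuotSMulTop x (maximalIdeal R) := Submodule.Quotient.mk ⟨x, hxm⟩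
  have hq1 : ∀ a ∈ maximalIdeal (R ⧸ Ideal.span {x}), a • q = 0 := by
    intro a ha
    rw [← hmap] at ha
    obtain ⟨b, hb, rfl⟩ := (Ideal.mem_map_iff_of_surjective _
      Ideal.Quotient.mk_surjective).mp ha
    change b • q = 0
    rw [← Submodule.Quotient.mk_smul, Submodule.Quotient.mk_eq_zero]
    have : b • (⟨x, hxm⟩ : maximalIdeal R) = x • (⟨b, hb⟩ : maximalIdeal R) :=
      Subtype.ext (mul_comm b x)
    rw [this]
    exact Submodule.smul_mem_pointwise_smul _ _ _ Submodule.mem_top
  have hq2 : q ∉ (maximalIdeal (R ⧸ Ideal.span {x}) • ⊤ :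
      Submodule (R ⧸ Ideal.span {x}) (QuotSMulTop x (maximalIdeal R))) := by
    intro hq
    have key : ∀ z ∈ (maximalIdeal (R ⧸ Ideal.span {x}) • ⊤ :
        Submodule (R ⧸ Ideal.span {x}) (QuotSMulTop x (maximalIdeal R))),
        ∃ w : maximalIdeal R, (w : R) ∈ maximalIdeal R • maximalIdeal R ∧
          z = Submodule.Quotient.mk w := by
      intro z hz
      refine Submodule.smul_induction_on hz ?_ ?_
      · intro a ha y _
        rw [← hmap] at ha
        obtain ⟨b, hb, rfl⟩ := (Ideal.mem_map_iff_of_surjective _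
          Ideal.Quotient.mk_surjective).mp ha
        obtain ⟨w, rfl⟩ := Submodule.Quotient.mk_surjective _ y
        exact ⟨b • w, Submodule.smul_mem_smul hb w.2, rfl⟩
      · rintro _ _ ⟨w, hw, rfl⟩ ⟨w', hw', rfl⟩
        exact ⟨w + w', Submodule.add_mem _ hw hw', rfl⟩
    obtain ⟨w, hw, hw'⟩ := key q hq
    rw [Submodule.Quotient.eq] at hw'
    obtain ⟨v, -, hv⟩ := (Submodule.mem_smul_pointwise_iff_exists _ _ _).mp hw'
    apply hx2
    have h3 : x = w + x * v := by
      have := congrArg Subtype.val hv
      simp only [SetLike.val_smul, smul_eq_mul, AddSubgroupClass.coe_sub] at this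
      rw [this]
      ring
    rw [h3]
    exact Submodule.add_mem _ hw (Submodule.smul_mem_smul hxm v.2)
  obtain ⟨i, r, hri⟩ := exists_retract q hq2 hq1
  have hret : Retract (ModuleCat.of (R ⧸ Ideal.span {x})
      ((R ⧸ Ideal.span {x}) ⧸ maximalIdeal (R ⧸ Ideal.span {x})))
      (ModuleCat.of (R ⧸ Ideal.span {x}) (QuotSMulTop x (maximalIdeal R))) :=
    ⟨ModuleCat.ofHom i, ModuleCat.ofHom r, ModuleCat.hom_ext hri⟩
  have hreg := ih d' (by omega) (R ⧸ Ideal.span {x}) hd' (n + 1)
    (hret.hasProjectiveDimensionLT (n + 1))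
  have := hreg.2
  omega

end Pool.Agent.Lib.MP_c091ab_al
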